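import Pool.Agent.P.MP_dba3d2_lc.A.Iface2

/-! Step A_ALPH of the stability project. -/

namespace Pool.Agent.P.MP_dba3d2_lc

open Filter MP_4b59b0_al

namespace A_alph

theorem exists_mod (a n j : ℕ) (hj : j < n) : ∃ u, a ≤ u ∧ u < a + n ∧ u % n = j := by
  have hn : 0 < n := by omega
  have h1 := Nat.mod_lt a hn
  refine ⟨a + (j + n - a % n) % n, Nat.le_add_right _ _,
    Nat.add_lt_add_left (Nat.mod_lt _ hn) _, ?_⟩
  rw [Nat.add_mod_mod, ← Nat.mod_add_mod, show a % n + (j + n - a % n) = j + n by omega,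
    Nat.add_mod_right, Nat.mod_eq_of_lt hj]

theorem ep1 {Γ : HG} {c : Γ.G} (hc : ¬ IsOfFinOrder c) (k : Γ.G) :
    Commute k ((c ^ Γ.e) ^ Γ.e) ↔ Commute k (c ^ Γ.e) :=
  Geo0.ep0 hc (Geo0.pow_inf hc Γ.good.pos.ne') (Commute.refl _) k

/-- the intersection of the elementary closures of the elements of `Z` of infinite order -/
def R0 (Γ : HG) (Z : Subgroup Γ.G) : Subgroup Γ.G where
  carrier := {g | ∀ v ∈ Z, ¬ IsOfFinOrder v → Commute g (v ^ Γ.e)}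
  one_mem' := fun _ _ _ => Commute.one_left _
  mul_mem' := fun ha hb v h1 h2 => (ha v h1 h2).mul_left (hb v h1 h2)
  inv_mem' := fun ha v h1 h2 => (ha v h1 h2).inv_left

theorem R0_norm (Γ : HG) (Z : Subgroup Γ.G) : ∀ g ∈ Z, ∀ r ∈ R0 Γ Z, g * r * g⁻¹ ∈ R0 Γ Z := by
  intro g hg r hr v h1 h2
  have h3 : ¬ IsOfFinOrder (g⁻¹ * v * g⁻¹⁻¹) := fun h => h2 (by
    obtain ⟨n, h0, hn⟩ := isOfFinOrder_iff_pow_eq_one.1 h
    rw [conj_pow, conj_eq_one_iff] at hn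
    exact isOfFinOrder_iff_pow_eq_one.2 ⟨n, h0, hn⟩)
  have h4 : Commute r ((g⁻¹ * v * g⁻¹⁻¹) ^ Γ.e) :=
    hr _ (Z.mul_mem (Z.mul_mem (Z.inv_mem hg) h1) (Z.inv_mem (Z.inv_mem hg))) h3
  rw [conj_pow] at h4
  have h5 := h4.map (MulAut.conj g)
  simp only [MulAut.conj_apply, inv_inv, mul_assoc, mul_inv_cancel_left, mul_inv_cancel,
    mul_one] at h5
  rw [mul_assoc]
  exact h5

end A_alph

open A_alph

theorem p_A_ALPH (hA_PSI : S_A_PSI) :
    S_A_ALPH := by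
  classical
  rintro Γ K ⟨-, ⟨x, hxZ, y, hyZ, hx, hy, hxy⟩, hR⟩
  have he := Γ.good.pos.ne'
  have hF : {f : Γ.G | Commute f (x ^ Γ.e) ∧ Commute f (y ^ Γ.e)}.Finite := by
    refine (hA_PSI Γ.toHG0 _ (Geo0.pow_inf hx he)).1.subset fun f hf => ⟨hf.1, ?_⟩
    by_contra h
    exact hxy ((Geo0.ep0 hy h hf.2 _).1 ((Geo0.ep0 hx h hf.1 _).2 (Commute.refl _)))
  have hR0 : R0 Γ (Subgroup.centralizer (K : Set Γ.G)) ≤ K :=
    hR _ (hF.subset fun f hf => ⟨hf x hxZ hx, hf y hyZ hy⟩) (R0_norm Γ _)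
  have hw : ∀ f : Γ.G, ∃ w ∈ Subgroup.centralizer (K : Set Γ.G), ¬ IsOfFinOrder w ∧
      ¬ Commute (x ^ Γ.e) (w ^ Γ.e) ∧ (f ∈ K → w = y) ∧
      (Commute f (x ^ Γ.e) → Commute f (w ^ Γ.e) → f ∈ K) := by
    intro f
    by_cases h1 : f ∈ K
    · exact ⟨y, hyZ, hy, hxy, fun _ => rfl, fun _ _ => h1⟩
    by_cases h2 : Commute f (x ^ Γ.e)
    · have h3 : ¬ ∀ v ∈ Subgroup.centralizer (K : Set Γ.G), ¬ IsOfFinOrder v →
          Commute f (v ^ Γ.e) := fun h => h1 (hR0 h)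
      push Not at h3
      obtain ⟨v, h4, h5, h6⟩ := h3
      refine ⟨v, h4, h5, fun h => h6 ?_, fun h => (h1 h).elim, fun _ h => (h6 h).elim⟩
      exact (Geo0.ep0 h5 (Geo0.pow_inf hx he) h f).1 ((ep1 hx f).2 h2)
    · exact ⟨y, hyZ, hy, hxy, fun _ => rfl, fun h => (h2 h).elim⟩
  choose w w1 w2 w3 w4 w5 using hw
  obtain ⟨n, φ, -, hφ⟩ := hF.fin_param
  have h1 : (1 : Γ.G) ∈ Set.range φ := by
    rw [hφ]; exact ⟨Commute.one_left _, Commute.one_left _⟩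
  obtain ⟨j₀, hj₀⟩ := h1
  have hn : 0 < n := j₀.pos
  let c : ℕ → Γ.G := fun t => if t % 2 = 0 then x else w (φ ⟨t / 2 % n, Nat.mod_lt _ hn⟩)
  have c1 : ∀ t, c t ∈ Subgroup.centralizer (K : Set Γ.G) ∧ ¬ IsOfFinOrder (c t) := by
    intro t
    simp only [c]
    split_ifs
    · exact ⟨hxZ, hx⟩
    · exact ⟨w1 _, w2 _⟩
  refine ⟨fun t => c t ^ Γ.e, 2 * n + 2, ?_, fun t => Geo0.pow_inf (c1 t).2 he, fun t k hk => ?_,
    fun t k h => (ep1 (c1 t).2 k).1 h, fun t => ?_, fun t0 k hk => ?_⟩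
  · refine ((Set.finite_range fun j => w (φ j) ^ Γ.e).insert (x ^ Γ.e)).subset ?_
    rintro _ ⟨t, rfl⟩
    simp only [c]
    split_ifs
    · exact Set.mem_insert _ _
    · exact Set.mem_insert_of_mem _ ⟨_, rfl⟩
  · exact (Commute.symm ((c1 t).1 k hk)).pow_left _
  · simp only [c]
    by_cases h : t % 2 = 0
    · rw [if_pos h, if_neg (by omega)]
      exact w3 _
    · rw [if_neg h, if_pos (by omega)]
      exact fun h => w3 _ h.symm
  · have k1 : Commute k (x ^ Γ.e) := by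
      have := hk (t0 % 2) (by omega)
      simp only [c] at this
      rwa [if_pos (by omega)] at this
    have k2 : ∀ j, Commute k (w (φ j) ^ Γ.e) := by
      intro j
      obtain ⟨u, u1, u2, u3⟩ := exists_mod (t0 / 2) n j j.2
      have := hk (2 * u + 1 - t0) (by omega)
      simp only [c] at this
      rw [if_neg (by omega)] at this
      have e : (⟨(t0 + (2 * u + 1 - t0)) / 2 % n, Nat.mod_lt _ hn⟩ : Fin n) = j := by
        apply Fin.ext
        show (t0 + (2 * u + 1 - t0)) / 2 % n = j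
        rw [show (t0 + (2 * u + 1 - t0)) / 2 = u by omega, u3]
      rwa [e] at this
    have k3 : k ∈ Set.range φ := by
      rw [hφ]
      refine ⟨k1, ?_⟩
      have := k2 j₀
      rwa [hj₀, w4 1 K.one_mem] at this
    obtain ⟨j, rfl⟩ := k3
    exact w5 _ k1 (k2 j)

end Pool.Agent.P.MP_dba3d2_lc
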