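import Pool.Agent.P.MP_dba3d2_lc.A.Iface2

/-! Step A_AX1 of the stability project. -/

namespace Pool.Agent.P.MP_dba3d2_lc

open Filter MP_4b59b0_al

namespace A_ax1

variable {V : Type} {X : Sp V} {H : Type} [Group H] [MulAction H V]

/-- the stable translation length -/
noncomputable def tau (X : Sp V) (c : H) : ℝ :=
  ⨅ s : V × ℕ, (X.d s.1 (c ^ (s.2 + 1) • s.1) : ℝ) / (s.2 + 1)

theorem le_tau [Nonempty V] {c : H} {t : ℝ}
    (h : ∀ (q : V) (k : ℕ), t * (k + 1) ≤ X.d q (c ^ (k + 1) • q)) : t ≤ tau X c :=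
  le_ciInf fun s => (le_div_iff₀ (by positivity)).2 (h s.1 s.2)

theorem tau_le (c : H) (q : V) (k : ℕ) : (k : ℝ) * tau X c ≤ X.d q (c ^ k • q) := by
  cases k with
  | zero => simp
  | succ k =>
    have h : tau X c ≤ (X.d q (c ^ (k + 1) • q) : ℝ) / (k + 1) :=
      ciInf_le (f := fun s : V × ℕ => (X.d s.1 (c ^ (s.2 + 1) • s.1) : ℝ) / (s.2 + 1))
        ⟨0, by rintro _ ⟨s, rfl⟩; positivity⟩ (q, k)
    rw [le_div_iff₀ (by positivity)] at h
    push_cast
    linarith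

theorem zp (iso : X.Iso H) (c : H) (q : V) (k : ℤ) :
    X.d q (c ^ k • q) = X.d q (c ^ k.natAbs • q) := by
  rcases Int.natAbs_eq k with h | h
  · rw [← zpow_natCast, ← h]
  · rw [← iso.disp_inv (c ^ k.natAbs), ← zpow_natCast, ← zpow_neg, ← h]

theorem sup {a : ℕ → ℕ} {D : ℕ} (h : ∀ i j, a i + a j ≤ a (i + j) + D) (n k : ℕ) :
    k * a n ≤ a (k * n) + k * D := by
  induction k with
  | zero => simp
  | succ k ih =>
    have := h (k * n) n
    rw [Nat.succ_mul, Nat.succ_mul, Nat.succ_mul]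
    omega

theorem lim {a b e : ℕ} (h : ∀ k, k * a ≤ k * b + e) : a ≤ b := by
  by_contra hc
  have h1 := h (e + 1)
  have h2 : (e + 1) * (b + 1) ≤ (e + 1) * a := Nat.mul_le_mul_left _ (by omega)
  rw [Nat.mul_succ] at h2
  omega

theorem up [Nonempty V] (iso : X.Iso H) {c : H} {M : ℕ} (hM : 0 < M) {p : V}
    (h : ∀ i j : ℕ, X.d p ((c ^ M) ^ i • p) + X.d p ((c ^ M) ^ j • p) ≤
      X.d p ((c ^ M) ^ (i + j) • p) + X.d p (c ^ M • p)) (n : ℕ) :
    (X.d p ((c ^ M) ^ n • p) : ℝ) ≤ X.d p (c ^ M • p) + (M * n : ℕ) * tau X c := by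
  rcases Nat.eq_zero_or_pos n with rfl | hn
  · simp [X.d_self]
  have h0 : (0 : ℝ) < (M * n : ℕ) := by exact_mod_cast Nat.mul_pos hM hn
  have key : ∀ (q : V) (j : ℕ), j * X.d p ((c ^ M) ^ n • p) ≤
      M * n * X.d q (c ^ j • q) + j * X.d p (c ^ M • p) := fun q j => lim (e := 2 * X.d p q) fun k => by
    have h1 := sup (a := fun i => X.d p ((c ^ M) ^ i • p)) h n (k * j)
    have h2 := iso.disp_move ((c ^ M) ^ (k * j * n)) p q
    have h3 := iso.disp_pow (c ^ j) q (k * (M * n))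
    have e : (c ^ j) ^ (k * (M * n)) = (c ^ M) ^ (k * j * n) := by
      rw [← pow_mul, ← pow_mul]
      congr 1
      ring
    rw [e] at h3
    simp only [mul_add, ← mul_assoc] at *
    omega
  have h1 : ((X.d p ((c ^ M) ^ n • p) : ℝ) - X.d p (c ^ M • p)) / (M * n : ℕ) ≤ tau X c :=
    le_tau fun q k => by
      have h2 : (((k + 1) * X.d p ((c ^ M) ^ n • p) : ℕ) : ℝ) ≤
          (M * n * X.d q (c ^ (k + 1) • q) + (k + 1) * X.d p (c ^ M • p) : ℕ) := by
        exact_mod_cast key q (k + 1)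
      rw [div_mul_eq_mul_div, div_le_iff₀ h0]
      push_cast at h2 ⊢
      linarith
  rw [div_le_iff₀ h0] at h1
  linarith

end A_ax1

open A_ax1 in
theorem p_A_AX1 (hA_LOX : S_A_LOX) (hA_CH : S_A_CH) :
    S_A_AX1 := by
  intro R
  obtain ⟨N, hN⟩ := hA_LOX R
  obtain ⟨M, hM, hC⟩ := hA_CH R
  refine ⟨2 * M + (16 * R.δ + 2) * (N + 1), fun c hc => ⟨tau R.sp c, ?_⟩⟩
  have t0 : 0 ≤ tau R.sp c := le_tau fun q k => by simp
  have hN0 : (0 : ℝ) < N := by
    have := hN c hc 1 1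
    exact_mod_cast Nat.pos_of_ne_zero fun h => by simp [h] at this
  have t1 : 1 ≤ N * tau R.sp c := by
    have : (N : ℝ)⁻¹ ≤ tau R.sp c := le_tau fun q k => by
      rw [inv_mul_le_iff₀ hN0]
      exact_mod_cast hN c hc q (k + 1)
    rwa [inv_le_iff_one_le_mul₀' hN0] at this
  have hd : (0 : ℝ) ≤ R.δ := Nat.cast_nonneg _
  have hm : (0 : ℝ) ≤ M * tau R.sp c := by positivity
  have h1 : (16 * R.δ + 2 : ℝ) * 1 ≤ (16 * R.δ + 2) * (N * tau R.sp c) := by gcongr
  have h2 : (0 : ℝ) ≤ R.δ * tau R.sp c := by positivity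
  refine ⟨?_, fun q k => ?_, ?_, fun p k => ?_⟩
  · push_cast
    nlinarith
  · rw [zp R.iso, ← Int.cast_abs, ← Nat.cast_natAbs]
    exact tau_le c q _
  · obtain ⟨m, m1, m2⟩ := R.sp.exists_mid 1 (c • 1)
    refine ⟨m, ?_⟩
    have h3 : (R.sp.d m (c • m) : ℝ) ≤ tau R.sp c + 16 * R.δ + 1 := by
      by_cases hl : 8 * R.δ + 1 < R.sp.d m (c • m)
      · have : (R.sp.d m (c • m) : ℝ) - 16 * R.δ ≤ tau R.sp c := le_tau fun q k => by
          have h4 : (((k + 1) * R.sp.d m (c • m) : ℕ) : ℝ) ≤ (R.sp.d q (c ^ (k + 1) • q) +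
              (k + 1) * (3 * (2 * R.δ)) + 5 * (2 * R.δ) : ℕ) := by
            exact_mod_cast Sp.pow_lower R.iso R.hyp' (Sp.mid R.iso R.hyp' m1 m2 (by omega)).1
              (by omega) (k + 1) q
          have h5 : (0 : ℝ) ≤ k * R.δ := by positivity
          push_cast at h4
          linarith
        linarith
      · have : (R.sp.d m (c • m) : ℝ) ≤ (8 * R.δ + 1 : ℕ) := by exact_mod_cast not_lt.1 hl
        push_cast at this
        linarith
    push_cast
    nlinarith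
  · rw [zp R.iso, ← Int.cast_abs, ← Nat.cast_natAbs]
    generalize k.natAbs = j
    have h3 := up R.iso hM (hC c hc p) (j / M)
    have h4 := R.iso.disp_mul ((c ^ M) ^ (j / M)) (c ^ (j % M)) p
    rw [← pow_mul, ← pow_add, Nat.div_add_mod, pow_mul] at h4
    have h5 := (R.iso.disp_pow c p (j % M)).trans
      (Nat.mul_le_mul_right _ (Nat.mod_lt j hM).le)
    have h6 := R.iso.disp_pow c p M
    have h7 : ((M * (j / M) : ℕ) : ℝ) * tau R.sp c ≤ j * tau R.sp c :=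
      mul_le_mul_of_nonneg_right (by exact_mod_cast Nat.mul_div_le j M) t0
    have h8 : (R.sp.d p (c ^ j • p) : ℝ) ≤
        R.sp.d p ((c ^ M) ^ (j / M) • p) + M * R.sp.d p (c • p) := by
      exact_mod_cast (by omega)
    have h9 : (R.sp.d p (c ^ M • p) : ℝ) ≤ M * R.sp.d p (c • p) := by exact_mod_cast h6
    have h10 : (0 : ℝ) ≤ (16 * R.δ + 2) * (N + 1) * R.sp.d p (c • p) := by positivity
    push_cast at *
    linarith

end Pool.Agent.P.MP_dba3d2_lc
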