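import Pool.Agent.P.MP_dba3d2_lc.A.Iface2

/-! Step A_AX2 of the stability project. -/

namespace Pool.Agent.P.MP_dba3d2_lc

open Filter MP_4b59b0_al

theorem p_A_AX2 (hA_LOX : S_A_LOX) (hA_CH : S_A_CH) :
    S_A_AX2 := by
  intro R
  obtain ⟨M, hM, h⟩ := hA_CH R
  refine ⟨2 * M + 6 * R.δ, fun c hc p q => ?_⟩
  have iso := R.iso
  have bt : ∀ (x : R.G) (i j : ℕ),
      R.sp.Bt (R.sp.d x (c ^ M • x)) x ((c ^ M) ^ i • x) ((c ^ M) ^ (i + j) • x) := fun x i j => by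
    have h1 := h c hc x i j
    have h2 := iso ((c ^ M) ^ i) x ((c ^ M) ^ j • x)
    rw [← mul_smul, ← pow_add] at h2
    unfold Sp.Bt
    omega
  obtain ⟨i, hi⟩ := R.unbdd (Geo0.pow_inf hc hM.ne') q
    (R.sp.d q p + R.sp.d q (c ^ M • q) + 2 * R.δ)
  have b1 : R.sp.Bt (R.sp.d q (c ^ M • q) + 2 * (2 * R.δ)) p ((c ^ M) ^ i • q)
      ((c ^ M) ^ (i + i) • p) :=
    (R.hyp'.bc (bt q i i) le_rfl (iso _ q p).le hi (by
      rw [pow_add, mul_smul, iso, R.sp.symm ((c ^ M) ^ i • q)]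
      exact hi)).2
  obtain ⟨t, ht⟩ : ∃ t : ℕ, R.sp.d ((c ^ M) ^ i • q) ((c ^ M) ^ t • p) ≤
      2 * R.sp.d p (c ^ M • p) + R.sp.d q (c ^ M • q) + 6 * R.δ := by
    by_cases h1 : R.sp.d p ((c ^ M) ^ (i + i) • p) ≤ R.sp.d p ((c ^ M) ^ i • q)
    · refine ⟨i + i, ?_⟩
      unfold Sp.Bt at b1
      omega
    obtain ⟨t, t1, t2, t3⟩ := Sp.ivt
      (fun t => R.sp.d p ((c ^ M) ^ t • p) ≤ R.sp.d p ((c ^ M) ^ i • q)) (i + i)
      (by rw [pow_zero, one_smul, R.sp.d_self]; exact Nat.zero_le _) h1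
    have b2 := bt p t (i + i - t)
    rw [Nat.add_sub_cancel' t1.le] at b2
    have b3 := R.hyp'.l2 b2 b1
    have b4 := iso.disp_mul ((c ^ M) ^ t) (c ^ M) p
    rw [← pow_succ] at b4
    have b5 := R.sp.symm ((c ^ M) ^ i • q) ((c ^ M) ^ t • p)
    exact ⟨t, by omega⟩
  refine ⟨M * (t - i : ℤ), ?_⟩
  have e : c ^ (M * (t - i) : ℤ) = ((c ^ M) ^ i)⁻¹ * (c ^ M) ^ t := by
    rw [zpow_mul, zpow_natCast, sub_eq_neg_add, zpow_add, zpow_neg, zpow_natCast, zpow_natCast]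
  rw [e, mul_smul, iso.inv']
  have d1 := iso.disp_pow c p M
  have d2 := iso.disp_pow c q M
  have d3 := R.one_le_d (g := c) (fun e => hc (e ▸ IsOfFinOrder.one)) p
  nlinarith [Nat.zero_le (M * R.sp.d q (c • q)), Nat.zero_le (R.δ * R.sp.d q (c • q)),
    Nat.mul_le_mul_left R.δ d3]

end Pool.Agent.P.MP_dba3d2_lc
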