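import Pool.Agent.P.MP_dba3d2_lc.A.Iface2

/-! Step A_BW of the stability project. -/

namespace Pool.Agent.P.MP_dba3d2_lc

open Filter MP_4b59b0_al

namespace A_bw

theorem near {V : Type} (X : Sp V) {x y x' y' : V} {c : ℕ} (h1 : X.d x x' ≤ c)
    (h2 : X.d y y' ≤ c) : X.d x y ≤ X.d x' y' + 2 * c ∧ X.d x' y' ≤ X.d x y + 2 * c := by
  have := X.tri x x' y
  have := X.tri x' y' y
  have := X.tri x' x y'
  have := X.tri x y y'
  have := X.symm x x'
  have := X.symm y y'
  omega

end A_bw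

theorem p_A_BW (hA_PRE : S_A_PRE) (hA_MATCH : S_A_MATCH) (hA_CE0 : S_A_CE0) :
    S_A_BW := by
  intro Γ r K hK
  obtain ⟨c, T, s, P, h, p1, p2, p3, p4, p5⟩ := hA_PRE Γ r K hK
  obtain ⟨C1, hM⟩ := hA_MATCH Γ c T (s + 2)
  obtain ⟨C0, hC⟩ := hA_CE0 Γ
  obtain ⟨C, hc, h1, h0, hT⟩ : ∃ C, c ≤ C ∧ C1 * (T + 1) ≤ C ∧ C0 * (C1 + T + 1) ≤ C ∧
      T + 2 * C1 ≤ C :=
    ⟨c + C1 * (T + 1) + C0 * (C1 + T + 1) + T + 2 * C1, by omega, by omega, by omega, by omega⟩
  refine ⟨C, P, p2, fun i l n hl => ?_, ?_⟩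
  · have H := p4 i l C (∑ t ∈ Finset.range n, l t) n hc fun t ht => ⟨hl t ht,
      Finset.single_le_sum (f := l) (fun _ _ => Nat.zero_le _) (Finset.mem_range.2 ht)⟩
    have key : ∀ m ≤ n, ∑ t ∈ Finset.range m, l t ≤ Γ.sp.d (P i l 0) (P i l m) + C * m ∧
        Γ.sp.d (P i l 0) (P i l m) ≤ ∑ t ∈ Finset.range m, l t + C * m := fun m hm => by
      induction m with
      | zero => simp [Γ.sp.d_self]
      | succ m ih =>
        have a1 := ih (by omega)
        have a2 := H.bt 0 m (m + 1) (by omega) (by omega) hm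
        have a3 := p3 i l m
        have a4 := Γ.sp.tri (P i l 0) (P i l m) (P i l (m + 1))
        unfold Sp.Bt at a2
        rw [Finset.sum_range_succ, mul_add, mul_one]
        omega
    have := key n le_rfl
    rwa [p1, Γ.d_one] at this
  intro i j l l' n n' U D g p q hl hl' b1 b2 b3 b4 hd
  have H := p4 i l C U n hc hl
  have e : ∀ a b, Γ.sp.d (g • P j l' a) (g • P j l' b) = Γ.sp.d (P j l' a) (P j l' b) :=
    fun a b => Γ.iso g _ _
  obtain ⟨t, t', ht, hv⟩ := hM C (U + T) D n n' _ _ _ _ p q H ((p4 j l' C U n' hc hl').smul g)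
    (by omega) (by rwa [p1]) (by rwa [p1]) (by simpa only [p1, smul_eq_mul, mul_one] using b3)
    (by simpa only [p1, smul_eq_mul, mul_one] using b4) (le_trans (by
      refine le_trans ?_ (Nat.mul_le_mul_right _ h1)
      rw [mul_assoc]
      exact Nat.mul_le_mul_left _ (by nlinarith [Nat.zero_le (T * U), Nat.zero_le (T * D)])) hd)
  rcases hv with ⟨ht', hv⟩ | ⟨hs, ht', hv⟩
  · have k : l t ≤ l' t' + C ∧ l' t' ≤ l t + C := by
      have a1 := A_bw.near _ (hv 0 (by omega)) (hv 1 (by omega))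
      have a2 := p3 i l t
      have a3 := p3 j l' t'
      simp only [e, add_zero] at a1
      omega
    refine ⟨⟨t, by omega, t', by omega, k⟩, fun hij hll hinj => ?_⟩
    subst hij hll
    obtain rfl := hinj t t' k.1 k.2
    refine p5 i l t g fun v hvs => ?_
    have m := H.mv (t + v) (by omega)
    have a1 := hv v (by omega)
    have a2 := hv (v + 1) (by omega)
    exact hC (C1 + T) g _ (P i l (t + v)) (P i l (t + v + 1)) (H.inf _ (by omega))
      (a1.trans (by omega)) (le_trans a2 (by omega)) (m.1.trans (by omega))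
      (m.2.trans (by omega)) (h0.trans (H.lo _ (by omega)))
  · have k : ∀ v a, v < 2 → t' = a + 1 + v → l (t + v) ≤ l' a + C ∧ l' a ≤ l (t + v) + C :=
      fun v a hv2 ha => by
      have a1 := A_bw.near _ (hv v (by omega)) (hv (v + 1) (by omega))
      have a2 := p3 i l (t + v)
      have a3 := p3 j l' a
      have a4 := Γ.sp.symm (P j l' a) (P j l' (a + 1))
      simp only [e, show t' - v = a + 1 by omega, show t' - (v + 1) = a by omega,
        ← add_assoc] at a1
      omega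
    have k0 := k 0 (t' - 1) (by omega) (by omega)
    have k1 := k 1 (t' - 2) (by omega) (by omega)
    refine ⟨⟨t + 0, by omega, t' - 1, by omega, k0⟩, fun hij hll hinj => ?_⟩
    subst hij hll
    have := hinj _ _ k0.1 k0.2
    have := hinj _ _ k1.1 k1.2
    omega

end Pool.Agent.P.MP_dba3d2_lc
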