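import Pool.Agent.P.MP_dba3d2_lc.A.Iface2

/-! Step A_BW2 of the stability project. -/

namespace Pool.Agent.P.MP_dba3d2_lc

open Filter MP_4b59b0_al

namespace A_bw2

/-- the block lengths -/
def lam (c r i b t : ℕ) : ℕ := (c + 1) * (r * (b / ((c + 1) * r) + t + 1) + i)

variable {c r i j b b' t t' : ℕ}

theorem le_lam (hi : i < r) : b ≤ lam c r i b t := by
  have h := Nat.lt_mul_div_succ b (show 0 < (c + 1) * r from Nat.mul_pos (by omega) (by omega))
  refine h.le.trans ?_
  unfold lam
  rw [mul_assoc]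
  exact Nat.mul_le_mul_left _ (le_add_right (Nat.mul_le_mul_left _ (by omega)))

theorem c_le (hi : i < r) : c ≤ lam c r i b t := by
  have : 0 < r * (b / ((c + 1) * r) + t + 1) + i :=
    Nat.add_pos_left (Nat.mul_pos (by omega) (Nat.succ_pos _)) _
  exact (Nat.le_succ c).trans (Nat.le_mul_of_pos_right _ this)

theorem lam_le {n : ℕ} (hi : i < r) (ht : t < n) : lam c r i b t ≤ b + (c + 1) * r * (n + 1) := by
  have h := Nat.mul_div_le b ((c + 1) * r)
  have h1 : (c + 1) * i ≤ (c + 1) * r := Nat.mul_le_mul_left _ hi.le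
  have h2 : (c + 1) * r * (t + 1) ≤ (c + 1) * r * n := Nat.mul_le_mul_left _ ht
  have h3 : lam c r i b t =
      (c + 1) * r * (b / ((c + 1) * r)) + (c + 1) * r * (t + 1) + (c + 1) * i := by
    unfold lam
    ring
  rw [h3, mul_add_one _ n]
  omega

theorem near {x y : ℕ} (h : (c + 1) * x ≤ (c + 1) * y + c) : x ≤ y := by
  by_contra hc
  have := Nat.mul_le_mul_left (c + 1) (show y + 1 ≤ x by omega)
  rw [mul_add_one] at this
  omega

theorem lam_inj (hi : i < r) (hj : j < r) (h : lam c r i b t ≤ lam c r j b' t' + c)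
    (h' : lam c r j b' t' ≤ lam c r i b t + c) :
    lam c r i b t = lam c r j b' t' ∧ i = j ∧ (b = b' → t = t') := by
  have e := le_antisymm (near h) (near h')
  have e1 : i = j := by
    have := congrArg (· % r) e
    simpa only [Nat.mul_add_mod, Nat.mod_eq_of_lt hi, Nat.mod_eq_of_lt hj] using this
  refine ⟨by unfold lam; rw [e], e1, ?_⟩
  rintro rfl
  subst e1
  have := Nat.eq_of_mul_eq_mul_left (by omega : 0 < r) (Nat.add_right_cancel e)
  omega

end A_bw2

open A_bw2

theorem p_A_BW2 (hA_BW : S_A_BW) :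
    S_A_BW2 := by
  intro Γ r K hK
  obtain ⟨c, P, h1, h2, h3⟩ := hA_BW Γ r K hK
  have hC : (c + 1) * r + c ≤ (c + 1) * ((c + 1) * r + 1) := by
    rw [add_one_mul c ((c + 1) * r + 1), mul_add_one c]
    omega
  refine ⟨(c + 1) * ((c + 1) * r + 1), fun i b n => P i (lam c r i b) n,
    fun i b n => h1 i _ n, fun i b n => ?_, fun i b n => ?_, ?_⟩
  · have e := (h2 i (lam c r i b) n fun t _ => c_le i.2).1
    have e1 := Finset.card_nsmul_le_sum (Finset.range n) (lam c r i b) b fun t _ => le_lam i.2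
    rw [Finset.card_range, smul_eq_mul] at e1
    have e2 : c * n ≤ (c + 1) * ((c + 1) * r + 1) * n := Nat.mul_le_mul_right _ (by omega)
    exact (e1.trans e).trans (Nat.add_le_add_left e2 _)
  · have e := (h2 i (lam c r i b) n fun t _ => c_le i.2).2
    have e1 := Finset.sum_le_card_nsmul (Finset.range n) (lam c r i b)
      (b + (c + 1) * r * (n + 1)) fun t ht => lam_le i.2 (Finset.mem_range.1 ht)
    rw [Finset.card_range, smul_eq_mul] at e1
    have e2 := Nat.mul_le_mul_right (n * (n + 1)) hC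
    have e3 : c * n ≤ c * (n * (n + 1)) :=
      Nat.mul_le_mul_left _ (Nat.le_mul_of_pos_right _ (by omega))
    refine (e.trans (Nat.add_le_add_right e1 _)).trans ?_
    rw [mul_assoc _ n]
    nlinarith
  · intro i j b b' n n' D g p q b1 b2 b3 b4 hd
    have m1 : (c + 1) * r * (n + 1) ≤ (c + 1) * r * (n + n' + 1) :=
      Nat.mul_le_mul_left _ (by omega)
    have m2 : (c + 1) * r * (n' + 1) ≤ (c + 1) * r * (n + n' + 1) :=
      Nat.mul_le_mul_left _ (by omega)
    obtain ⟨⟨t, ht, t', ht', a1, a2⟩, a3⟩ := h3 i j (lam c r i b) (lam c r j b') n n'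
      (b + b' + (c + 1) * r * (n + n' + 1)) D g p q
      (fun t ht => ⟨c_le i.2, (lam_le i.2 ht).trans (by omega)⟩)
      (fun t ht => ⟨c_le j.2, (lam_le j.2 ht).trans (by omega)⟩) b1 b2 b3 b4 (by
        refine le_trans ?_ hd
        have m3 : (c + 1) * r * (n + n' + 1) ≤ (c + 1) * r * (b + b' + n + n' + D + 1) :=
          Nat.mul_le_mul_left _ (by omega)
        rw [mul_assoc (c + 1) _ (b + b' + n + n' + D + 1)]
        refine Nat.mul_le_mul (by omega) ?_
        rw [add_one_mul ((c + 1) * r)]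
        omega)
    obtain ⟨e1, e2, -⟩ := lam_inj i.2 j.2 a1 a2
    obtain rfl : i = j := Fin.ext e2
    have m4 := Nat.mul_le_mul_right (n + 1) (le_of_add_le_left hC)
    have m5 := Nat.mul_le_mul_right (n' + 1) (le_of_add_le_left hC)
    have l1 := le_lam (c := c) (b := b) (t := t) i.2
    have l2 := le_lam (c := c) (b := b') (t := t') i.2
    have l3 := lam_le (c := c) (b := b) i.2 ht
    have l4 := lam_le (c := c) (b := b') i.2 ht'
    refine ⟨rfl, by omega, by omega, ?_⟩
    rintro rfl -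
    exact a3 rfl rfl fun s s' u u' => (lam_inj i.2 i.2 u u').2.2 rfl

end Pool.Agent.P.MP_dba3d2_lc
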