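import Pool.Agent.P.MP_dba3d2_lc.A.Iface2

/-! Step A_BWM of the stability project. -/

namespace Pool.Agent.P.MP_dba3d2_lc

open Filter MP_4b59b0_al

namespace A_bwm

variable {Γ : HG} {a : Amb} {μ : a.K}

theorem on_move {p g u : MM Γ a} (h : On μ p 1 u) (h' : Ll (ds p (g * p)) μ) :
    On μ p g (g * u) := by
  refine Ll.mono_left ?_ (Ll.add h (h'.add h'))
  have h1 := ds_tri g (g * p) p
  have h2 := ds_tri p (g * p) (g * u)
  have h3 : ds g (g * p) = ds 1 p := by rw [← ds_mul_left g 1 p, mul_one]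
  have h4 : ds g (g * u) = ds 1 u := by rw [← ds_mul_left g 1 u, mul_one]
  rw [ds_mul_left] at h2
  rw [ds_comm (g * p) p] at h1
  linarith

theorem on_short {p g w : MM Γ a} (h : On μ p g (g * w)) (h' : Ll (ln w) μ) : Ll (ds g p) μ := by
  refine Ll.mono_left ?_ (Ll.add h h')
  have h4 : ds g (g * w) = ln w := by rw [← ds_one_left w, ← ds_mul_left g 1 w, mul_one]
  linarith [ds_nonneg p (g * w)]

end A_bwm

theorem p_A_BWM (hA_OVM : S_A_OVM) :
    S_A_BWM := by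
  intro Γ r K C w hw hK a μ b n hμ hb hn hs
  have self : ∀ i j (g p q : MM Γ a), Ov μ p q 1 (gw (w i) (b i) n) g (g * gw (w j) (b j) n) →
      i = j ∧ g ∈ (K i).map (cst Γ a) := by
    rintro i j g p q ⟨h0, h1, h2, h3, h4⟩
    have t1 := ds_tri 1 p (gw (w i) (b i) n : MM Γ a)
    have t2 := ds_tri 1 q (gw (w i) (b i) n : MM Γ a)
    have t3 := ds_tri g p (g * gw (w j) (b j) n)
    have t4 := ds_tri g q (g * gw (w j) (b j) n)
    have hD := Ll.add (Ll.add h1 h2) (Ll.add h3 h4)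
    have h5 := (((((((hb i).add (hb j)).add hn).add hn).add hD).add
      (big_iff_ll.1 hμ)).nat_mul C).ls_right h0 (ds_nonneg p q) 1
    rw [Nat.cast_one, one_mul] at h5
    obtain ⟨rfl, -, -, h6⟩ := hA_OVM Γ r K C w hw hK a i j (b i) (b j) n n _ g p q
      (by linarith) (by linarith) (by linarith) (by linarith) h5
    exact ⟨rfl, h6 rfl rfl⟩
  refine ⟨hK, hs, fun i k hk => ?_, fun i p q h0 h1 h2 ⟨g, hg, h3, h4⟩ => ?_, self,
    fun i x hx _ g p q ⟨h0, _, _, h3, h4⟩ => ?_⟩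
  · exact Germ.coe_eq.2 (Eventually.of_forall fun j => hw.comm i (b i j) (n j) k hk)
  · obtain ⟨-, k, hk, rfl⟩ := self i i g p q ⟨h0, h1, h2, A_bwm.on_move h1 h3, A_bwm.on_move h2 h4⟩
    have := hK i
    exact hg ((cst Γ a).isOfFinOrder
      ((K i).subtype.isOfFinOrder (isOfFinOrder_of_finite (⟨k, hk⟩ : K i))))
  · have h5 := hμ.ll_of_not_big (mem_std_iff.1 hx)
    refine (Ll.mono_left ?_ ((A_bwm.on_short h3 h5).add (A_bwm.on_short h4 h5))).not_ls hμ.pos h0
    rw [ds_comm g p]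
    exact ds_tri p g q

end Pool.Agent.P.MP_dba3d2_lc
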