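import Pool.Agent.P.MP_dba3d2_lc.A.Iface2

/-! Step A_CE of the stability project. -/

namespace Pool.Agent.P.MP_dba3d2_lc

open Filter MP_4b59b0_al

namespace A_ce

theorem fl {C n m : ℕ} {t : ℝ} (h0 : (n : ℝ) ≤ t) (h : (C : ℝ) * (t + 1) ≤ m) :
    C * (⌊t⌋₊ + 1) ≤ m := by
  have := Nat.floor_le ((Nat.cast_nonneg n).trans h0)
  have : (C : ℝ) * (⌊t⌋₊ + 1) ≤ m := (mul_le_mul_of_nonneg_left (by linarith) C.cast_nonneg).trans h
  exact_mod_cast this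

end A_ce

theorem p_A_CE (hA_CE0 : S_A_CE0) :
    S_A_CE := by
  intro Γ
  obtain ⟨C, hC⟩ := hA_CE0 Γ
  refine ⟨C + 20 * Γ.δ + 2, fun a T g p q => ?_⟩
  refine Germ.inductionOn T fun t => Germ.inductionOn g fun g => Germ.inductionOn p fun p =>
    Germ.inductionOn q fun q hp hq => ⟨fun h => Germ.inductionOn h fun h hh h1 h2 h3 => ?_,
      fun hg m => Germ.inductionOn m fun m h1 h2 h3 => ?_⟩
  · rw [Bas2A.fin_coe, ← Ultrafilter.eventually_not] at hh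
    refine (Bas2A.ep_coe h g).2 ?_
    filter_upwards [hh, Germ.coe_le.1 hp, Germ.coe_le.1 hq, Germ.coe_le.1 h1, Germ.coe_le.1 h2,
      Germ.coe_le.1 h3] with i k0 k1 k2 k3 k4 k5
    refine hC ⌊t i⌋₊ (g i) (h i) (p i) (q i) k0 (Nat.le_floor k1) (Nat.le_floor k2) (Nat.le_floor k3)
      (Nat.le_floor k4) (le_trans (Nat.mul_le_mul_right _ (by omega)) (A_ce.fl k1 k5))
  · refine Germ.coe_le.2 ?_
    filter_upwards [(Bas2A.fin_coe g).1 hg, Germ.coe_le.1 hp, Germ.coe_le.1 hq, Germ.coe_eq.1 h1,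
      Germ.coe_le.1 h2, Germ.coe_le.1 h3] with i k0 k1 k2 k3 k4 k5
    have e : Γ.sp.d (p i) (m i) + Γ.sp.d (m i) (q i) = Γ.sp.d (p i) (q i) := Nat.cast_injective
      (R := ℝ) ((Nat.cast_add _ _).trans k3)
    have b : 2 * ⌊t i⌋₊ + 4 * Γ.δ + 1 ≤ (C + 20 * Γ.δ + 2) * (⌊t i⌋₊ + 1) := by nlinarith
    have := Γ.tors_small (T := ⌊t i⌋₊) (x := p i) (y := q i) (p := m i) k0 (Nat.le_floor k1)
      (Nat.le_floor k2) e.le (b.trans (A_ce.fl k1 k4)) (b.trans (A_ce.fl k1 k5))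
    exact Nat.cast_le.2 (this.trans (by omega))

end Pool.Agent.P.MP_dba3d2_lc
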