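import Pool.Agent.P.MP_dba3d2_lc.A.Iface2

/-! Step A_CE0 of the stability project. -/

namespace Pool.Agent.P.MP_dba3d2_lc

open Filter MP_4b59b0_al

namespace A_ce0

theorem pow_le (Γ : HG) {h p : Γ.G} {T : ℕ} (hp : Γ.sp.d p (h • p) ≤ T) (j : ℕ) :
    Γ.sp.d p (h ^ j • p) ≤ j * T := by
  induction j with
  | zero => simp [Γ.sp.d_self]
  | succ j ih =>
    have h1 := Γ.sp.tri p (h ^ j • p) (h ^ (j + 1) • p)
    rw [pow_succ, mul_smul, Γ.iso] at h1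
    rw [pow_succ, mul_smul, add_mul, one_mul]
    omega

theorem fin (Γ : HG) {g h : Γ.G} (hh : ¬ IsOfFinOrder h) {n : ℕ} (hn : n ≠ 0)
    (hc : Commute g (h ^ n)) : Commute g (h ^ Γ.e) := by
  rcases Γ.good.norm h g hh n n (by exact_mod_cast hn) (by
    rw [zpow_natCast, hc.eq, mul_inv_cancel_right]) with e | e
  · exact mul_inv_eq_iff_eq_mul.1 e
  · refine absurd (isOfFinOrder_iff_pow_eq_one.2 ⟨Γ.e * n + Γ.e * n,
      by have := Nat.mul_pos Γ.good.pos (Nat.pos_of_ne_zero hn); omega, ?_⟩) hh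
    have h1 : g * h ^ (Γ.e * n) * g⁻¹ = (h ^ (Γ.e * n))⁻¹ := by
      rw [pow_mul, ← conj_pow, e, inv_pow]
    rw [mul_comm, pow_mul, (hc.pow_right _).eq, mul_inv_cancel_right, ← pow_mul, mul_comm] at h1
    rw [pow_add, ← eq_inv_iff_mul_eq_one, ← h1]

end A_ce0

theorem p_A_CE0 :
    S_A_CE0 := by
  intro Γ
  obtain ⟨b, hb⟩ : ∃ b, b = (Γ.fin (60 * Γ.δ)).toFinset.card := ⟨_, rfl⟩
  refine ⟨8 * (b + 1) + 16 * Γ.δ + 4, fun T g h p q hh g1 g2 h1 h2 hC => ?_⟩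
  obtain ⟨m, m1, m2⟩ := Γ.sp.geod p q (Γ.sp.d p q / 2) (Nat.div_le_self _ _)
  have e1 : T ≤ (b + 1) * T := Nat.le_mul_of_pos_left _ b.succ_pos
  have e2 : 8 * ((b + 1) * T) + 16 * Γ.δ + 4 ≤ Γ.sp.d p q := le_trans (by nlinarith) hC
  have key : ∀ j ∈ Finset.range (b + 1),
      m⁻¹ * (g * h ^ j * g⁻¹ * (h ^ j)⁻¹) * m ∈ (Γ.fin (60 * Γ.δ)).toFinset := fun j hj => by
    have e3 : j * T ≤ (b + 1) * T := Nat.mul_le_mul_right _ (Finset.mem_range.1 hj).le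
    rw [Set.Finite.mem_toFinset, Set.mem_ofPred_eq, ← Γ.d_conj]
    exact Γ.comm_small (T := (b + 1) * T) (g1.trans e1) (g2.trans e1)
      ((A_ce0.pow_le Γ h1 j).trans e3) ((A_ce0.pow_le Γ h2 j).trans e3)
      (by unfold Sp.Bt; omega) (by omega) (by omega)
  obtain ⟨i, -, j, -, hij, e⟩ := Finset.exists_ne_map_eq_of_card_lt_of_maps_to
    (by rw [Finset.card_range]; omega) key
  wlog c : i < j generalizing i j
  · exact this j i hij.symm e.symm (by omega)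
  obtain ⟨n, rfl⟩ := Nat.exists_eq_add_of_le c.le
  refine A_ce0.fin Γ hh (n := n) (by omega) ?_
  have e4 := mul_left_cancel (mul_right_cancel e)
  rw [pow_add, mul_assoc g, mul_assoc g, mul_assoc g, mul_assoc g, mul_assoc (h ^ i),
    mul_assoc (h ^ i), mul_assoc (h ^ i), mul_inv_rev, ← mul_assoc _ (h ^ n)⁻¹, mul_right_inj,
    mul_right_inj, mul_left_inj, eq_mul_inv_iff_mul_eq] at e4
  exact (Commute.inv_left_iff.1 e4)

end Pool.Agent.P.MP_dba3d2_lc
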