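import Pool.Agent.P.MP_dba3d2_lc.A.Iface2

/-! Step A_CH of the stability project. -/

namespace Pool.Agent.P.MP_dba3d2_lc

open Filter MP_4b59b0_al

namespace A_ch

variable {V : Type} {X : Sp V} {H : Type} [Group H] [MulAction H V] {δ : ℕ}

theorem ray (iso : X.Iso H) (hδ : X.Hyp δ) {g : H} {m q : V}
    (h : X.Bt (2 * δ) (g⁻¹ • m) m (g • m)) (hl : 13 * δ < X.d m (g • m))
    (hq : X.Bt δ q m (g • m)) (n : ℕ) : X.Bt (2 * δ) q m (g ^ (n + 1) • m) := by
  cases n with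
  | zero => simpa using hq.mono (by omega)
  | succ n =>
    have h2 := iso.bt g (Sp.pw1 iso hδ h (by omega) n)
    rw [smul_inv_smul, smul_smul, ← pow_succ'] at h2
    exact (Geo0.glue hδ hq h2 (by omega)).1.mono (by omega)

theorem sup (iso : X.Iso H) (hδ : X.Hyp δ) {g : H} {m : V}
    (h : X.Bt (2 * δ) (g⁻¹ • m) m (g • m)) (hl : 13 * δ < X.d m (g • m)) (i j : ℕ) :
    X.d m (g ^ i • m) + X.d m (g ^ j • m) ≤ X.d m (g ^ (i + j) • m) + 4 * δ := by
  rcases i with _ | i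
  · simp [X.d_self]
  rcases j with _ | j
  · simp [X.d_self]
  have h1 := Sp.pw iso hδ h (by omega) i j
  unfold Sp.Bt at h1
  rw [inv_pow, iso.inv, iso.inv, smul_smul, ← pow_add] at h1
  omega

theorem main (iso : X.Iso H) (hδ : X.Hyp δ) {g : H}
    (hg : ∀ (n : ℕ) (x : V), 13 * δ + 1 < X.d x (g ^ (n + 1) • x)) (p : V) (i j : ℕ) :
    X.d p (g ^ i • p) + X.d p (g ^ j • p) ≤ X.d p (g ^ (i + j) • p) + X.d p (g • p) := by
  rcases i with _ | i
  · simp [X.d_self]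
  rcases j with _ | j
  · simp [X.d_self]
  obtain ⟨m, h1, h2⟩ := X.exists_mid p (g • p)
  have hl := hg 0 m
  rw [zero_add, pow_one] at hl
  obtain ⟨m0, m1, m2⟩ := Sp.mid iso hδ h1 h2 (by omega)
  have e : ∀ n : ℕ, X.d (g ^ n • m) (g ^ (n + 1) • p) = X.d m (g • p) := fun n => by
    rw [pow_succ, mul_smul, iso]
  have up : ∀ n : ℕ, X.d p (g ^ (n + 1) • p) ≤ X.d p (g • p) + X.d m (g ^ n • m) := fun n => by
    have := X.tri p m (g ^ (n + 1) • p)
    have := X.tri m (g ^ n • m) (g ^ (n + 1) • p)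
    have := e n
    unfold Sp.Bt at h1
    omega
  have a1 := ray iso hδ m0 (by omega) m1 (i + j)
  have a2 := iso.bt (g ^ (i + j + 1)) (ray iso hδ (g := g⁻¹) (by rw [inv_inv]; exact m0.symm)
    (by rw [iso.disp_inv]; omega) m2 (i + j))
  rw [inv_pow, smul_inv_smul, smul_smul, ← pow_succ] at a2
  have a3 := hg (i + j) m
  have a4 := (Geo0.glue hδ a1 a2.symm (by omega)).2
  have a5 := sup iso hδ m0 (by omega) i j
  have a6 := sup iso hδ m0 (by omega) (i + j) 1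
  rw [pow_one] at a6
  have := up i
  have := up j
  have := e (i + j + 1)
  have := X.tri p m (g • p)
  rw [show i + 1 + (j + 1) = i + j + 1 + 1 by omega]
  unfold Sp.Bt at a1 a4
  omega

end A_ch

theorem p_A_CH (hA_LOX : S_A_LOX) :
    S_A_CH := by
  intro R
  obtain ⟨N, hN⟩ := hA_LOX R
  refine ⟨(N + 1) * (13 * (2 * R.δ) + 2), by positivity, fun c hc p i j =>
    A_ch.main R.iso R.hyp' (fun n x => ?_) p i j⟩
  have h := hN c hc x ((N + 1) * (13 * (2 * R.δ) + 2) * (n + 1))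
  rw [pow_mul] at h
  by_contra e
  have h1 := Nat.mul_le_mul_left N (not_lt.1 e)
  have h2 : (N + 1) * (13 * (2 * R.δ) + 2) ≤ (N + 1) * (13 * (2 * R.δ) + 2) * (n + 1) :=
    Nat.le_mul_of_pos_right _ n.succ_pos
  have h3 : N * (13 * (2 * R.δ) + 1) < (N + 1) * (13 * (2 * R.δ) + 2) :=
    Nat.mul_lt_mul_of_lt_of_le (by omega) (by omega) (by omega)
  omega

end Pool.Agent.P.MP_dba3d2_lc
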