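import Pool.Agent.P.MP_dba3d2_lc.A.Iface2

/-! Step A_DOM of the stability project. -/

namespace Pool.Agent.P.MP_dba3d2_lc

open Filter MP_4b59b0_al Bas2A

namespace A_dom

/-- the first axis statement with a given constant -/
def X1 (R : HG0) (C : ℕ) : Prop := ∀ c : R.G, ¬ IsOfFinOrder c → ∃ τ : ℝ, 1 ≤ C * τ ∧
  (∀ (q : R.G) (k : ℤ), |(k : ℝ)| * τ ≤ R.sp.d q (c ^ k • q)) ∧
  (∃ q : R.G, (R.sp.d q (c • q) : ℝ) ≤ C * τ) ∧
  ∀ (p : R.G) (k : ℤ), (R.sp.d p (c ^ k • p) : ℝ) ≤ |(k : ℝ)| * τ + C * R.sp.d p (c • p)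

/-- the second axis statement with a given constant -/
def X2 (R : HG0) (C : ℕ) : Prop := ∀ c : R.G, ¬ IsOfFinOrder c → ∀ p q : R.G,
  ∃ k : ℤ, R.sp.d q (c ^ k • p) ≤ C * (R.sp.d p (c • p) + R.sp.d q (c • q))

theorem tors {R : HG0} {C1 C2 e : ℕ} (h1 : X1 R C1) (h2 : X2 R C2) (he : 0 < e) {z f : R.G}
    (hz : ¬ IsOfFinOrder z) (hc : Commute f z) (hf : f ^ e = 1) (p : R.G) :
    R.sp.d p (f • p) ≤ (4 * C2 + C1) * R.sp.d p (z • p) := by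
  obtain ⟨τ, -, a2, -, a4⟩ := h1 z hz
  obtain ⟨k, hk⟩ := h2 z hz p (f • p)
  rw [R.iso.disp_comm hc.symm] at hk
  have e1 : R.sp.d p ((f⁻¹ * z ^ k) • p) = R.sp.d (f • p) (z ^ k • p) := by
    rw [mul_smul, R.iso.inv']
  have e2 : (f⁻¹ * z ^ k) ^ e = z ^ (k * (e : ℤ)) := by
    rw [(hc.inv_left.zpow_right k).mul_pow, inv_pow, hf, inv_one, one_mul, zpow_mul, zpow_natCast]
  have b1 := R.iso.disp_pow (f⁻¹ * z ^ k) p e
  rw [e2, e1] at b1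
  have b2 := a2 p (k * (e : ℤ))
  have b3 := a4 p k
  have b4 := R.sp.tri p (z ^ k • p) (f • p)
  rw [R.sp.symm (z ^ k • p) (f • p)] at b4
  have he' : (0 : ℝ) < e := by exact_mod_cast he
  have c1 : (R.sp.d p (z ^ (k * (e : ℤ)) • p) : ℝ) ≤ e * R.sp.d (f • p) (z ^ k • p) := by
    exact_mod_cast b1
  have c2 : |(k : ℝ)| * τ ≤ R.sp.d (f • p) (z ^ k • p) := by
    refine le_of_mul_le_mul_left ?_ he'
    push_cast at b2
    rw [abs_mul, abs_of_pos he'] at b2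
    linarith
  have c3 : (R.sp.d (f • p) (z ^ k • p) : ℝ) ≤ C2 * (R.sp.d p (z • p) + R.sp.d p (z • p)) := by
    exact_mod_cast hk
  have c4 : (R.sp.d p (f • p) : ℝ) ≤ R.sp.d p (z ^ k • p) + R.sp.d (f • p) (z ^ k • p) := by
    exact_mod_cast b4
  have : (R.sp.d p (f • p) : ℝ) ≤ (4 * C2 + C1) * R.sp.d p (z • p) := by linarith
  exact_mod_cast this

theorem root {R : HG0} {C1 C2 : ℕ} (h1 : X1 R C1) (h2 : X2 R C2) {c : R.G}
    (hc : ¬ IsOfFinOrder c) {k : ℤ} (hk : k ≠ 0) (p : R.G) :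
    R.sp.d p (c • p) ≤ (C1 + 2 * C2 * (2 + C1 * C1)) * R.sp.d p (c ^ k • p) := by
  obtain ⟨τ, a1, a2, ⟨q, a3⟩, a4⟩ := h1 c hc
  obtain ⟨j, hj⟩ := h2 (c ^ k) (Geo0.zpow_inf hc hk) q p
  have hC : (0 : ℝ) ≤ C1 := Nat.cast_nonneg _
  have hC2 : (0 : ℝ) ≤ C2 := Nat.cast_nonneg _
  have hτ : 0 ≤ τ := by
    by_contra h
    have := mul_nonpos_of_nonneg_of_nonpos hC (not_le.1 h).le
    linarith
  have hk1 : (1 : ℝ) ≤ |(k : ℝ)| := by exact_mod_cast Int.one_le_abs hk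
  have b1 := a2 p k
  have b2 : τ ≤ R.sp.d p (c ^ k • p) := by nlinarith
  have b3 : (R.sp.d q (c • q) : ℝ) ≤ C1 * R.sp.d p (c ^ k • p) :=
    a3.trans (mul_le_mul_of_nonneg_left b2 hC)
  have b4 : (R.sp.d q (c ^ k • q) : ℝ) ≤ (1 + C1 * C1) * R.sp.d p (c ^ k • p) := by
    have := a4 q k
    have := mul_le_mul_of_nonneg_left b3 hC
    linarith
  have b5 := R.iso.disp_move c p ((c ^ k) ^ j • q)
  rw [R.iso.disp_comm (((Commute.refl c).zpow_right k).zpow_right j)] at b5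
  have c1 : (R.sp.d p ((c ^ k) ^ j • q) : ℝ) ≤
      C2 * (R.sp.d q (c ^ k • q) + R.sp.d p (c ^ k • p)) := by exact_mod_cast hj
  have c2 : (R.sp.d p (c • p) : ℝ) ≤ R.sp.d q (c • q) + 2 * R.sp.d p ((c ^ k) ^ j • q) := by
    exact_mod_cast b5
  have c3 := mul_le_mul_of_nonneg_left b4 hC2
  have : (R.sp.d p (c • p) : ℝ) ≤ (C1 + 2 * C2 * (2 + C1 * C1)) * R.sp.d p (c ^ k • p) := by
    linarith
  exact_mod_cast this

theorem std (Γ : HG) {C1 C2 : ℕ} (h1 : X1 Γ.toHG0 C1) (h2 : X2 Γ.toHG0 C2) : ∃ C : ℕ,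
    ∀ g f p : Γ.G, ¬ IsOfFinOrder g → Commute f (g ^ Γ.e) → IsOfFinOrder f ∨ P0 Γ f →
      Γ.sp.d p (f • p) ≤ C * Γ.sp.d p (g • p) := by
  have key : ∀ g f p : Γ.G, ¬ IsOfFinOrder g → Commute f (g ^ Γ.e) → IsOfFinOrder f →
      Γ.sp.d p (f • p) ≤ (4 * C2 + C1) * Γ.e * Γ.sp.d p (g • p) := fun g f p hg hc hf => by
    refine (tors h1 h2 Γ.good.pos (Geo0.pow_inf hg Γ.good.pos.ne') hc (Γ.good.tors f hf) p).trans ?_
    rw [mul_assoc]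
    exact Nat.mul_le_mul_left _ (Γ.iso.disp_pow g p Γ.e)
  refine ⟨(C1 + 2 * C2 * (2 + C1 * C1)) * (1 + (4 * C2 + C1) * Γ.e) + (4 * C2 + C1) * Γ.e,
    fun g f p hg hc hf => ?_⟩
  rcases hf with hf | hf
  · exact (key g f p hg hc hf).trans (Nat.mul_le_mul_right _ (Nat.le_add_left _ _))
  · obtain ⟨k, hk⟩ := hf.2 g ((Geo0.ep0 hg hf.1 hc g).2 (Commute.self_pow _ _)).eq
    have hk0 : k ≠ 0 := by
      rintro rfl
      rw [zpow_zero, mul_one] at hk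
      exact hg (isOfFinOrder_inv_iff.1 hk)
    have b1 := key g (g⁻¹ * f ^ k) p hg
      ((Commute.self_pow g _).inv_left.mul_left (hc.zpow_left k)) hk
    have b2 := Γ.iso.disp_mul g (g⁻¹ * f ^ k) p
    rw [mul_inv_cancel_left] at b2
    have b3 : Γ.sp.d p (f ^ k • p) ≤ (1 + (4 * C2 + C1) * Γ.e) * Γ.sp.d p (g • p) := by
      rw [add_mul, one_mul]
      omega
    refine (root h1 h2 hf.1 hk0 p).trans ((Nat.mul_le_mul_left _ b3).trans ?_)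
    rw [← mul_assoc]
    exact Nat.mul_le_mul_right _ (Nat.le_add_right _ _)

end A_dom

theorem p_A_DOM (hA_AX1 : S_A_AX1) (hA_AX2 : S_A_AX2) :
    S_A_DOM := by
  intro Γ
  obtain ⟨C1, h1⟩ := hA_AX1 Γ.toHG0
  obtain ⟨C2, h2⟩ := hA_AX2 Γ.toHG0
  obtain ⟨C, hC⟩ := A_dom.std Γ h1 h2
  refine ⟨C, fun a g f p hg hf h => ?_⟩
  induction g using Germ.inductionOn with | h g =>
  induction f using Germ.inductionOn with | h f =>
  induction p using Germ.inductionOn with | h p =>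
  rw [fin_coe, ← Ultrafilter.eventually_not] at hg
  rw [ep_coe] at hf
  rw [fin_coe, prim_coe, ← Ultrafilter.eventually_or] at h
  refine Germ.coe_le.2 ?_
  filter_upwards [hg, hf, h] with i a1 a2 a3
  have := hC (g i) (f i) (p i) a1 a2 a3
  show ((Γ.sp.d (p i) (f i • p i) : ℕ) : ℝ) ≤ (C : ℝ) * ((Γ.sp.d (p i) (g i • p i) : ℕ) : ℝ)
  exact_mod_cast this

end Pool.Agent.P.MP_dba3d2_lc
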