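import Pool.Agent.P.MP_dba3d2_lc.A.Iface2

/-! Step A_EL0 of the stability project. -/

namespace Pool.Agent.P.MP_dba3d2_lc

open Filter MP_4b59b0_al

theorem p_A_EL0 (hA_PSI : S_A_PSI) :
    S_A_EL0 := by
  intro Γ c hc
  have e0 := Γ.good.pos.ne'
  have hz := Geo0.pow_inf hc e0
  obtain ⟨-, ψ, hψ⟩ := hA_PSI Γ.toHG0 (c ^ Γ.e) hz
  have m : ∀ {f : Γ.G}, Commute f (c ^ Γ.e) → f ∈ Subgroup.centralizer {c ^ Γ.e} :=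
    fun h => Subgroup.mem_centralizer_singleton_iff.2 h
  refine ⟨?_, fun f g hf hg => ⟨?_, fun h1 h2 => ?_⟩, fun g hg => ?_⟩
  · obtain ⟨t, ht⟩ := (Subgroup.isCyclic_iff_exists_zpowers_eq_top ψ.range).1 inferInstance
    obtain ⟨c0, h0⟩ : t ∈ ψ.range := ht ▸ Subgroup.mem_zpowers t
    have r : ∀ f, ∃ k : ℤ, t ^ k = ψ f := fun f =>
      Subgroup.mem_zpowers_iff.1 (ht ▸ (⟨f, rfl⟩ : ψ f ∈ ψ.range))
    have h1 : ¬ IsOfFinOrder (c0 : Γ.G) := fun h => by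
      obtain ⟨k, hk⟩ := r ⟨_, m (Commute.refl _)⟩
      rw [← h0, (hψ c0).2 h, one_zpow] at hk
      exact hz ((hψ _).1 hk.symm)
    have h2 : Commute (c0 : Γ.G) (c ^ Γ.e) := Subgroup.mem_centralizer_singleton_iff.1 c0.2
    refine ⟨c0, ⟨h1, fun f hf => ?_⟩, h2⟩
    have h3 := m ((Geo0.ep0 hc h1 h2 f).1 hf)
    obtain ⟨k, hk⟩ := r ⟨f, h3⟩
    exact ⟨k, (hψ (⟨f, h3⟩⁻¹ * c0 ^ k)).1 (by
      rw [map_mul, map_inv, map_zpow, h0, hk, inv_mul_cancel])⟩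
  · exact (hψ (⟨f, m hf⟩ * ⟨g, m hg⟩ * ⟨f, m hf⟩⁻¹ * ⟨g, m hg⟩⁻¹)).1 (by
      rw [map_mul, map_mul, map_mul, map_inv, map_inv, mul_right_comm (ψ ⟨f, m hf⟩),
        mul_inv_cancel, one_mul, mul_inv_cancel])
  · exact (hψ (⟨f, m hf⟩ * ⟨g, m hg⟩)).1 (by
      rw [map_mul, (hψ ⟨f, m hf⟩).2 h1, (hψ ⟨g, m hg⟩).2 h2, one_mul])
  · have h0 := m (Commute.self_pow c Γ.e)
    obtain ⟨a, ha⟩ : ∃ a, a = (ψ ⟨c, h0⟩).toAdd := ⟨_, rfl⟩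
    obtain ⟨b, hb⟩ : ∃ b, b = (ψ ⟨_, m hg⟩).toAdd := ⟨_, rfl⟩
    have a0 : a ≠ 0 := fun h => hc ((hψ ⟨c, h0⟩).1 (toAdd_eq_zero.1 (ha ▸ h)))
    have t : IsOfFinOrder (((g * c * g⁻¹) ^ ((Γ.e : ℤ) * a))⁻¹ * (c ^ Γ.e) ^ b) :=
      (hψ ((⟨_, m hg⟩ ^ ((Γ.e : ℤ) * a))⁻¹ * (⟨c, h0⟩ ^ Γ.e) ^ b)).1 (by
        apply toAdd_eq_zero.1
        rw [map_mul, map_inv, map_zpow, map_zpow, map_pow, toAdd_mul, toAdd_inv, toAdd_zpow,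
          toAdd_zpow, toAdd_pow, ← ha, ← hb]
        simp only [smul_eq_mul, nsmul_eq_mul]; ring)
    have s := Γ.good.tors _ t
    rw [(hg.zpow_zpow _ _).inv_left.mul_pow, inv_pow, inv_mul_eq_one, ← zpow_natCast,
      ← zpow_mul, conj_zpow, ← zpow_natCast c, ← zpow_natCast, ← zpow_mul, ← zpow_mul] at s
    have e1 : (Γ.e : ℤ) ≠ 0 := by exact_mod_cast e0
    exact Γ.good.norm c g hc _ _ (mul_ne_zero (mul_ne_zero e1 a0) e1) s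

end Pool.Agent.P.MP_dba3d2_lc
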