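import Pool.Agent.P.MP_dba3d2_lc.A.Defs2

/-! Interface, chapter A: geometry of hyperbolic groups and of their ultrapowers. -/

namespace Pool.Agent.P.MP_dba3d2_lc

open Filter

-- deps: A_KOU A_AX1 A_PSI
def S_HG : Prop := ∀ R : HG0, ∃ e, GoodExp R.G e

-- deps: A_KOU
def S_TORS : Prop := ∀ (Γ : HG) (a : Amb) (K : Subgroup (MM Γ a)),
  (∀ k ∈ K, IsOfFinOrder k) → Finite K ∧ Nat.card K ≤ Γ.e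

-- deps: A_KOU
def S_FINM : Prop := ∀ (Γ : HG) (a : Amb) (K : Subgroup (MM Γ a)), Finite K →
  ∃ p, (∀ k ∈ K, p⁻¹ * k * p ∈ std Γ a) ∧ ∃ k ∈ K, Ls (ln p) (ln k + 1)

-- deps: A_EL0
def S_ELEM : Prop := ∀ (Γ : HG) (a : Amb) (c : MM Γ a), ¬ IsOfFinOrder c →
  (∃ c0, Prim c0 ∧ Ep c0 = Ep c) ∧
  (∀ f ∈ Ep c, ¬ IsOfFinOrder f → Ep f = Ep c) ∧
  (∀ f ∈ Ep c, ∀ g ∈ Ep c, IsOfFinOrder f → IsOfFinOrder g → IsOfFinOrder (f * g)) ∧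
  (∀ g, InE c g ↔ Cj g c c) ∧
  (∀ g, InE c g → g ∉ Ep c → IsOfFinOrder g) ∧
  (∀ k : a.Z, k ≠ 0 → ¬ IsOfFinOrder (ipow c k)) ∧
  (∀ k : a.Z, ipow c k ∈ Ep c) ∧
  (∀ f ∈ Ep c, ∀ g ∈ Ep c, Commute (f ^ Γ.e) g) ∧
  (∀ f ∈ Ep c, ∀ g ∈ Ep c, IsOfFinOrder (f * g * f⁻¹ * g⁻¹)) ∧
  (∀ g, InE c g → g ∉ Ep c → ∀ f ∈ Ep c, g * f ^ Γ.e * g⁻¹ = (f ^ Γ.e)⁻¹)

-- deps: A_LINEU A_DOM
def S_LINE : Prop := ∀ (Γ : HG) (a : Amb) (c p : MM Γ a), ¬ IsOfFinOrder c →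
  Ls (ds p (c * p)) (md c) →
  (∃ L : a.K, Sim L (md c) ∧ ∀ k : a.Z, |zK k| * L ≤ ds p (ipow c k * p) ∧
    Ls (ds p (ipow c k * p) - |zK k| * L) (md c) ∧ |zK k| * L ≤ md (ipow c k)) ∧
  (∀ q, ∃ k : a.Z, Ls (ds q (ipow c k * p)) (ds q (c * q))) ∧
  (∀ f ∈ Ep c, IsOfFinOrder f → Ls (ds p (f * p)) (md c))

-- deps: ELEM A_DOM A_CE
def S_PERC : Prop := ∀ (Γ : HG) (a : Amb) (μ : a.K) (p q : MM Γ a), Big μ → Ls μ (ds p q) →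
  Per μ p q → ∃ c, Prim c ∧ Stab μ p q c ∧ ∀ g, Stab μ p q g → g ∈ Ep c

-- deps: TORS A_SMALL A_LIN2
def S_RTA : Prop := ∀ (Γ : HG) (a : Amb) (μ : a.K) (R : RT) (φ : R.W ≃* ball Γ μ), Big μ →
  (∀ g, R.ℓ g = rl μ (ln (φ g : MM Γ a))) → R.Ax Γ.e

-- deps: TORS FINM A_FR2
def S_FRAME : Prop := ∀ (Γ : HG) (a : Amb) (μ : a.K) (y : MM Γ a), Big μ → Ls μ (ln y) →
  ¬ Per μ 1 y → ∃ z z' : MM Γ a, Ll (ln z) μ ∧ Ll (ln z') μ ∧ ∃ K : Subgroup Γ.G, Legal Γ K ∧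
    (∀ k ∈ K, Commute (z⁻¹ * y * z') (cst Γ a k)) ∧
    ∀ g, Stab μ 1 y g ↔ z⁻¹ * g * z ∈ K.map (cst Γ a)

-- deps: A_BW2 A_BWM
def S_GMIC : Prop := ∀ (Γ : HG) (r : ℕ) (K : Fin r → Subgroup Γ.G), (∀ i, Legal Γ (K i)) →
  ∃ (t : Fin r → ℕ → Γ.G) (τ : ℕ → ℝ), ∀ a : Amb,
    Big (a.mk' U0 fun n => (τ n : a.K)) ∧
    Letters (a := a.pow U0) (a.mk' U0 fun n => (τ n : a.K)) (std Γ (a.pow U0)) K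
      fun i => a.mk' U0 fun n => cst Γ a (t i n)

-- deps: A_BW2 A_BWM A_GB
def S_GMAC : Prop := ∀ (Γ : HG) (a : Amb) (μ : a.K) (r : ℕ) (K : Fin r → Subgroup Γ.G)
  (l : Fin r → a.K), Big μ → (∀ i, Legal Γ (K i)) → (∀ i, Sim (l i) μ) →
  ∃ u : Fin r → MM Γ (a.pow U0),
    Letters ((a.dg U0).mp μ) ((a.dg U0).hom Γ).range K u ∧
    ∀ i, Ll |ln (u i) - (a.dg U0).mp (l i)| ((a.dg U0).mp μ)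

end Pool.Agent.P.MP_dba3d2_lc
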