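import Pool.Agent.P.MP_dba3d2_lc.A.Iface2
import Pool.Agent.P.MP_dba3d2_lc.A.Iface

/-! Step A_FR2 of the stability project. -/

namespace Pool.Agent.P.MP_dba3d2_lc

open Filter MP_4b59b0_al

namespace A_fr2

variable {Γ : HG} {a : Amb}

theorem std_of_fin {s : Set Γ.G} (hs : s.Finite) {f : a.I → Γ.G}
    (h : ∀ᶠ j in (a.V : Filter a.I), f j ∈ s) : (Germ.ofFun f : MM Γ a) ∈ std Γ a := by
  obtain ⟨x, -, hx⟩ := (Ultrafilter.eventually_exists_mem_iff (P := fun x i => x = f i) hs).1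
    (h.mono fun i hi => ⟨f i, hi, rfl⟩)
  exact ⟨x, Germ.coe_eq.2 hx⟩

theorem stab {μ : a.K} (hμ : Big μ) {y g : MM Γ a} (h1 : g ∈ std Γ a)
    (h2 : y⁻¹ * g * y ∈ std Γ a) : Stab μ 1 y g := by
  refine ⟨?_, ?_⟩
  · rw [mul_one, ds_one_left]
    exact hμ.ll_of_not_big (mem_std_iff.1 h1)
  · rw [ds, ← mul_assoc]
    exact hμ.ll_of_not_big (mem_std_iff.1 h2)

theorem fin_cst {x : Γ.G} : IsOfFinOrder (cst Γ a x) ↔ IsOfFinOrder x :=
  cst_injective.isOfFinOrder_iff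

end A_fr2

open A_fr2 in
theorem p_A_FR2 (hTORS : S_TORS) (hELEM : S_ELEM) :
    S_A_FR2 := by
  intro Γ a μ y K hμ hy hK hc hs
  induction y using Germ.inductionOn with | h f => ?_
  have hZ : ∀ᶠ j in (a.V : Filter a.I), f j ∈ Subgroup.centralizer (K : Set Γ.G) := by
    have h1 : ∀ᶠ j in (a.V : Filter a.I), ∀ k ∈ (K : Set Γ.G), k * f j = f j * k :=
      (eventually_all_finite (Set.toFinite _)).2 fun k hk => Germ.coe_eq.1 (hc k hk).symm.eq
    exact h1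
  have hy' : (Germ.ofFun f : MM Γ a) ∉ std Γ a := fun h => mem_std_iff.1 h (hμ.of_ls hy)
  refine ⟨hK, ?_, fun R hR hn r hr => ?_⟩
  · obtain ⟨x, hx, hxi⟩ : ∃ x ∈ Subgroup.centralizer (K : Set Γ.G), ¬ IsOfFinOrder x := by
      by_contra hne
      push Not at hne
      have h1 := (hTORS Γ a ((Subgroup.centralizer (K : Set Γ.G)).map (cst Γ a)) (by
        rintro _ ⟨x, hx, rfl⟩
        exact fin_cst.2 (hne x hx))).1
      have h2 : (cst Γ a '' (Subgroup.centralizer (K : Set Γ.G) : Set Γ.G)).Finite :=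
        Set.toFinite ((Subgroup.centralizer (K : Set Γ.G)).map (cst Γ a) : Set (MM Γ a))
      exact hy' (std_of_fin (h2.of_finite_image cst_injective.injOn) hZ)
    by_contra hne
    have h1 : ∀ γ ∈ Subgroup.centralizer (K : Set Γ.G),
        Commute (x ^ Γ.e) ((γ * x * γ⁻¹) ^ Γ.e) := fun γ hγ => by
      by_contra h
      exact hne ⟨x, hx, γ * x * γ⁻¹, mul_mem (mul_mem hγ hx) (inv_mem hγ), hxi,
        fun h' => hxi (by simpa [mul_assoc] using (MulAut.conj γ⁻¹).toMonoidHom.isOfFinOrder h'), h⟩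
    have h2 : Commute (cst Γ a x ^ Γ.e)
        (((Germ.ofFun f : MM Γ a) * cst Γ a x * (Germ.ofFun f : MM Γ a)⁻¹) ^ Γ.e) :=
      Germ.coe_eq.2 (hZ.mono fun j hj => (h1 _ hj).eq)
    generalize (Germ.ofFun f : MM Γ a) = y at *
    have hc1 : ¬ IsOfFinOrder (cst Γ a x) := fun h => hxi (fin_cst.1 h)
    have hc2 : ¬ IsOfFinOrder (y * cst Γ a x * y⁻¹) := fun h =>
      hc1 (by simpa [mul_assoc] using (MulAut.conj y⁻¹).toMonoidHom.isOfFinOrder h)
    have hc3 := Geo0.pow_inf hc2 Γ.good.pos.ne'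
    have e1 := (hELEM Γ a _ hc1).2.1 _
      (Subgroup.mem_centralizer_singleton_iff.2 h2.symm.eq) hc3
    have e2 := (hELEM Γ a _ hc2).2.1 _ (Subgroup.mem_centralizer_singleton_iff.2 rfl) hc3
    have h3 : InE (cst Γ a x) y := ((hELEM Γ a _ hc1).2.2.2.1 y).2 (e2.symm.trans e1)
    have h4 : cst Γ a x ^ Γ.e ∈ std Γ a := ⟨x ^ Γ.e, map_pow _ _ _⟩
    have h5 : y⁻¹ * cst Γ a x ^ Γ.e * y ∈ std Γ a := by
      rcases h3 with h | h
      · have : y⁻¹ * cst Γ a x ^ Γ.e * y = cst Γ a x ^ Γ.e := by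
          conv_lhs => rw [← h]
          group
        rwa [this]
      · have : y⁻¹ * (cst Γ a x ^ Γ.e)⁻¹ * y = cst Γ a x ^ Γ.e := by
          rw [← h]
          group
        have h6 : y⁻¹ * cst Γ a x ^ Γ.e * y = (y⁻¹ * (cst Γ a x ^ Γ.e)⁻¹ * y)⁻¹ := by group
        rw [h6, this]
        exact inv_mem h4
    obtain ⟨k, hk, e⟩ := hs _ (stab hμ h4 h5)
    refine Geo0.pow_inf hc1 Γ.good.pos.ne' ?_
    rw [← e]
    exact fin_cst.2 (K.subtype.isOfFinOrder (isOfFinOrder_of_finite (⟨k, hk⟩ : K)))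
  · have h1 : (Germ.ofFun f : MM Γ a)⁻¹ * cst Γ a r * Germ.ofFun f ∈ std Γ a :=
      std_of_fin (s := R) (f := fun j => (f j)⁻¹ * r * f j) (Set.toFinite _)
        (hZ.mono fun j hj => by simpa using hn _ (inv_mem hj) r hr)
    obtain ⟨k, hk, e⟩ := hs _ (stab hμ ⟨r, rfl⟩ h1)
    rwa [← cst_injective e]

end Pool.Agent.P.MP_dba3d2_lc
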