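import Pool.Agent.P.MP_dba3d2_lc.A.Iface2

/-! Step A_GB of the stability project. -/

namespace Pool.Agent.P.MP_dba3d2_lc

open Filter MP_4b59b0_al

namespace A_gb

variable {Γ : HG} {a : Amb} {μ E : a.K}

theorem mk_nat (m : ℕ) : (m : (a.pow U0).K) = a.mk' U0 fun _ => (m : a.K) :=
  ((mk'_kh U0 (m : a.K)).trans (map_natCast _ m)).symm

theorem on_mk {p x y : ℕ → MM Γ a} {m : ℕ} (hm : 0 < m) (e : μ = m * E)
    (h : On (a := a.pow U0) ((a.dg U0).mp μ) (a.mk' U0 p) (a.mk' U0 x) (a.mk' U0 y)) :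
    ∀ᶠ n in (U0 : Filter ℕ), ds (x n) (p n) + ds (p n) (y n) ≤ ds (x n) (y n) + E := by
  have := h m
  rw [ds_mk', ds_mk', ds_mk', ← mk'_add, ← mk'_sub, ← mk'_const, mk_nat, ← mk'_mulK,
    mk'_le_iff] at this
  refine this.mono fun n hn => ?_
  rw [e] at hn
  linarith [le_of_mul_le_mul_left hn (Nat.cast_pos.2 hm)]

theorem search (hE : 0 ≤ E) {t : a.K} (h0 : 0 ≤ t) (M : ℕ) (h : t ≤ M * E) :
    ∃ j ∈ Set.Iic M, (j : a.K) * E ≤ t ∧ t ≤ j * E + E := by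
  induction M with
  | zero => exact ⟨0, Nat.le_refl 0, by simpa using h0, by linarith⟩
  | succ M ih =>
    rcases le_total t (M * E) with c | c
    · obtain ⟨j, h1, h2⟩ := ih c
      exact ⟨j, Nat.le_succ_of_le h1, h2⟩
    · exact ⟨M, M.le_succ, c, by push_cast at h; linarith⟩

theorem same {p g : ℕ → MM Γ a} {x : MM Γ a} {M : ℕ} (hE : 0 ≤ E) (hx : ln x ≤ M * E)
    (h : ∀ᶠ n in (U0 : Filter ℕ), ds (g n) (p n) + ds (p n) (g n * x) ≤ ds (g n) (g n * x) + E) :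
    ∃ t : a.K, ∀ᶠ n in (U0 : Filter ℕ), t ≤ ds 1 ((g n)⁻¹ * p n) ∧ ds 1 ((g n)⁻¹ * p n) ≤ t + E ∧
      ds 1 ((g n)⁻¹ * p n) + ds x ((g n)⁻¹ * p n) ≤ ds 1 x + E := by
  obtain ⟨j, -, hj⟩ := (Ultrafilter.eventually_exists_mem_iff (f := U0) (P := fun (j : ℕ) n =>
    (j : a.K) * E ≤ ds 1 ((g n)⁻¹ * p n) ∧ ds 1 ((g n)⁻¹ * p n) ≤ j * E + E ∧
      ds 1 ((g n)⁻¹ * p n) + ds x ((g n)⁻¹ * p n) ≤ ds 1 x + E) (Set.finite_Iic (M + 1))).1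
    (h.mono fun n hn => by
      rw [← ds_mul_left (g n)⁻¹, ← ds_mul_left (g n)⁻¹ (p n), ← ds_mul_left (g n)⁻¹ (g n) (_ * _),
        inv_mul_cancel, inv_mul_cancel_left, ds_comm _ x] at hn
      obtain ⟨j, h1, h2⟩ := search hE (ds_nonneg 1 ((g n)⁻¹ * p n)) (M + 1) (by
        have := ds_nonneg x ((g n)⁻¹ * p n)
        rw [ds_one_left x] at hn
        push_cast
        linarith)
      exact ⟨j, h1, h2.1, h2.2, hn⟩)
  exact ⟨_, hj⟩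

theorem move {p p' g g' x u : MM Γ a} {t : a.K} (hE : 2 * (Γ.δ : a.K) ≤ E)
    (h : t ≤ ds 1 (g⁻¹ * p) ∧ ds 1 (g⁻¹ * p) ≤ t + E ∧ ds 1 (g⁻¹ * p) + ds x (g⁻¹ * p) ≤ ds 1 x + E)
    (h' : t ≤ ds 1 (g'⁻¹ * p') ∧ ds 1 (g'⁻¹ * p') ≤ t + E ∧
      ds 1 (g'⁻¹ * p') + ds x (g'⁻¹ * p') ≤ ds 1 x + E) (hu : ds 1 p' + ds p' u ≤ ds 1 u + E) :
    ds (g * g'⁻¹) p + ds p (g * g'⁻¹ * u) ≤ ds (g * g'⁻¹) (g * g'⁻¹ * u) + 7 * E := by
  have h1 := ds_four 1 x (g⁻¹ * p) (g'⁻¹ * p')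
  have h2 : ds (g⁻¹ * p) (g'⁻¹ * p') ≤ 3 * E := by
    rcases max_choice (ds 1 (g⁻¹ * p) + ds x (g'⁻¹ * p')) (ds 1 (g'⁻¹ * p') + ds x (g⁻¹ * p)) with
      e | e <;> rw [e] at h1 <;> linarith [h.1, h.2.1, h.2.2, h'.1, h'.2.1, h'.2.2]
  rw [← ds_mul_left g, mul_inv_cancel_left, ← mul_assoc] at h2
  have h3 := ds_tri (g * g'⁻¹ * 1) (g * g'⁻¹ * p') p
  have h4 := ds_tri p (g * g'⁻¹ * p') (g * g'⁻¹ * u)
  have h5 := ds_mul_left (g * g'⁻¹) 1 u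
  rw [ds_mul_left] at h3 h4
  rw [mul_one] at h3 h5
  linarith [ds_comm p (g * g'⁻¹ * p')]

theorem nK_lo (l : a.I → ℕ) (n : ℕ) : n * nK (fun j => l j / n) ≤ nK l :=
  Bas1.gle fun j => show (n : ℝ) * (l j / n : ℕ) ≤ l j by exact_mod_cast Nat.mul_div_le (l j) n

theorem nK_hi (l : a.I → ℕ) {n : ℕ} (h : 0 < n) : nK l ≤ n * (nK (fun j => l j / n) + 1) :=
  Bas1.gle fun j => show (l j : ℝ) ≤ n * ((l j / n : ℕ) + 1) by
    exact_mod_cast (Nat.lt_mul_div_succ (l j) h).le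

theorem nK_nn (l : a.I → ℕ) : 0 ≤ nK l := Bas1.gle fun j => Nat.cast_nonneg (α := ℝ) (l j)

end A_gb

open A_gb

theorem p_A_GB (hA_OVM : S_A_OVM) :
    S_A_GB := by
  rintro Γ r K C w hw hK a μ l i hμ ⟨⟨N2, h2⟩, h3⟩ x ⟨N1, h1⟩ g p q ⟨⟨N, o0⟩, o1, o2, o3, o4⟩
  obtain ⟨g, rfl⟩ := mk'_surjective U0 g
  obtain ⟨p, rfl⟩ := mk'_surjective U0 p
  obtain ⟨q, rfl⟩ := mk'_surjective U0 q
  obtain ⟨m, hm⟩ : ∃ m, m = (N + 1) * (C * (2 * N2 + 10) + 1) := ⟨_, rfl⟩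
  have m0 : 0 < m := by rw [hm]; positivity
  have m1 : (0 : a.K) < m := Nat.cast_pos.2 m0
  obtain ⟨E, e⟩ : ∃ E, μ = m * E := ⟨μ / m, (mul_div_cancel₀ _ m1.ne').symm⟩
  have hE : Big E := hμ.of_ls ⟨m, e.le⟩
  have E0 := hE.pos
  rw [← (mk'_hom U0 1).trans (map_one _), show gw (a := a.pow U0) (w i) (fun j => l j.2 / j.1)
    (fun j => j.1) = a.mk' U0 fun n => gw (w i) (fun j => l j / n) fun _ => n from
      (Bas2A.mk_coe U0 fun n j => w i (l j / n) n).symm] at o1 o2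
  rw [← mk'_hom, ← mk'_mul] at o3 o4
  rw [ds_mk', ← mk'_const, mk_nat, ← mk'_mulK, mk'_le_iff] at o0
  have hx : ln x ≤ (N1 * m : ℕ) * E := by rw [Nat.cast_mul, mul_assoc, ← e]; exact h1
  obtain ⟨s, hs⟩ := same E0.le hx (on_mk m0 e o3)
  obtain ⟨t, ht⟩ := same E0.le hx (on_mk m0 e o4)
  have H := (o0.and ((on_mk m0 e o1).and (on_mk m0 e o2))).and (hs.and ht)
  have ge : ∀ k, ∀ᶠ n in (U0 : Filter ℕ), k ≤ n := fun k =>
    (eventually_ge_atTop k).filter_mono Nat.hyperfilter_le_atTop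
  obtain ⟨n, ⟨⟨a0, a1, a2⟩, a3, a4⟩, hn⟩ := (H.and (ge m)).exists
  obtain ⟨n', ⟨⟨-, b1, b2⟩, b3, b4⟩, hn'⟩ := (H.and (ge (n + 1))).exists
  have d2 : 2 * (Γ.δ : a.K) ≤ E := by exact_mod_cast hE (2 * Γ.δ)
  have bd : ∀ k, m ≤ k → nK (fun j => l j / k) ≤ N2 * E := fun k hk => by
    refine le_of_mul_le_mul_left ?_ m1
    rw [mul_left_comm, ← e]
    exact (mul_le_mul_of_nonneg_right (Nat.cast_le.2 hk) (nK_nn _)).trans ((nK_lo l k).trans h2)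
  have key : nK (fun j => l j / n) ≤ nK (fun j => l j / n') + C * ((n' : a.K) + 1) := by
    refine (hA_OVM Γ r K C w hw hK a i i _ _ _ _ (7 * E) (g n * (g n')⁻¹) (p n) (q n)
      (by linarith) (by linarith) (move d2 a3 b3 b1) (move d2 a4 b4 b2) ?_).2.1
    have c1 : nK (fun j => l j / n) + nK (fun j => l j / n') + (n : a.K) + (n' : a.K) + 7 * E + 1 ≤
        (2 * N2 + 10) * E := by
      linarith [bd n hn, bd n' (by omega), hE n, hE n', (Nat.cast_one (R := a.K)) ▸ hE 1]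
    refine (mul_le_mul_of_nonneg_left c1 C.cast_nonneg).trans
      (le_of_mul_le_mul_left ?_ (show (0 : a.K) < N + 1 by positivity))
    rw [e, hm] at a0
    push_cast at a0
    have := ds_nonneg (p n) (q n)
    have : (0 : a.K) ≤ N * E := by positivity
    linarith
  have c1 := mul_le_mul_of_nonneg_left (nK_hi l (m0.trans_le hn)) (n'.cast_nonneg (α := a.K))
  have c2 := mul_le_mul_of_nonneg_left (nK_lo l n') (n.cast_nonneg (α := a.K))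
  have c3 := mul_le_mul_of_nonneg_left key ((n * n').cast_nonneg (α := a.K))
  have c4 := mul_le_mul_of_nonneg_right (Nat.cast_le (α := a.K).2 hn') (nK_nn l)
  have c5 := hμ.of_ls h3 (n * n' * (C * (n' + 1) + 1) + 1)
  push_cast at c3 c4 c5
  linarith

end Pool.Agent.P.MP_dba3d2_lc
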