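import Pool.Agent.P.MP_dba3d2_lc.A.Iface2

/-! Step A_IND of the stability project. -/

namespace Pool.Agent.P.MP_dba3d2_lc

open Filter MP_4b59b0_al

theorem p_A_IND (hA_CE0 : S_A_CE0) :
    S_A_IND := by
  intro Γ x y hy hxy
  obtain ⟨C, hC⟩ := hA_CE0 Γ
  set T := Γ.len x + Γ.len y + 4 * Γ.δ + 2 with hT
  refine ⟨2 * (C * (T + 1)) + 2 * Γ.δ + 2, fun m n => ?_⟩
  obtain ⟨z, h1, h2, h3⟩ := Γ.hyp'.center 1 ((x ^ m)⁻¹ • 1) (y ^ n • 1)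
  have a1 := (Γ.d_one_smul x).le
  have a2 := (Γ.d_one_smul y).le
  have b1 := Sp.qc Γ.iso Γ.hyp' a1
    ((Γ.iso.disp_comm (Commute.self_pow x m).inv_right 1).le.trans a1) h1
  have b2 := Sp.qc Γ.iso Γ.hyp' a2
    ((Γ.iso.disp_comm (Commute.self_pow y n) 1).le.trans a2) h2
  have c : ¬ C * (T + 1) ≤ Γ.sp.d 1 z := fun e =>
    hxy (hC T x y 1 z hy (by omega) (by omega) (by omega) (by omega) e)
  have e1 : Γ.sp.d ((x ^ m)⁻¹ • 1) (y ^ n • 1) = Γ.len (x ^ m * y ^ n) := by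
    rw [Γ.iso.inv, smul_smul, Γ.d_one_smul]
  have e2 : Γ.sp.d ((x ^ m)⁻¹ • 1) 1 = Γ.len (x ^ m) := by rw [Γ.iso.inv, Γ.d_one_smul]
  have e3 := Γ.d_one_smul (y ^ n)
  have t1 := Γ.sp.tri ((x ^ m)⁻¹ • 1) z 1
  have t2 := Γ.sp.tri 1 z (y ^ n • 1)
  have t3 := Γ.sp.symm z 1
  unfold Sp.Bt at h3
  omega

end Pool.Agent.P.MP_dba3d2_lc
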