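import Pool.Agent.P.MP_dba3d2_lc.A.Iface2

/-! Step A_KOU of the stability project. -/

namespace Pool.Agent.P.MP_dba3d2_lc

open Filter MP_4b59b0_al

namespace A_kou

variable {V H : Type} {X : Sp V} [Group H] [MulAction H V] {δ : ℕ}

theorem noax (iso : X.Iso H) (hδ : X.Hyp δ) {g : H} (hg : IsOfFinOrder g) {p : V} {c : ℕ}
    (h : X.Bt c (g⁻¹ • p) p (g • p)) : X.d p (g • p) ≤ c + δ := by
  by_contra e
  obtain ⟨n, h0, hn⟩ := isOfFinOrder_iff_pow_eq_one.1 hg
  have := Sp.pw_lower iso hδ h (by omega) n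
  rw [hn, one_smul, X.d_self, zero_add] at this
  exact e (Nat.le_of_mul_le_mul_left this h0)

theorem two (iso : X.Iso H) (hδ : X.Hyp δ) {s t : H} (hs : IsOfFinOrder s) (ht : IsOfFinOrder t)
    (hts : IsOfFinOrder (t * s)) {p : V} {c : ℕ} (ls : c + 4 * δ < X.d p (s • p))
    (lt : c + 4 * δ < X.d p (t • p)) : ¬ X.Bt c (s • p) p (t • p) := fun h => by
  have a1 : X.Bt (c + δ) (t⁻¹ • p) p (s • p) := by
    rcases hδ.l1 h (t⁻¹ • p) with a | a
    · exact a.symm
    · have := noax iso hδ ht a.symm; omega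
  have a2 : X.Bt (c + δ) (s⁻¹ • p) p (t • p) := by
    rcases hδ.l1 h (s⁻¹ • p) with a | a
    · have := noax iso hδ hs a.symm; omega
    · exact a.symm
  have b1 := iso.bt s⁻¹ a1
  have b2 := iso.bt t a1
  rw [inv_smul_smul, smul_smul, ← mul_inv_rev] at b1
  rw [smul_inv_smul, smul_smul] at b2
  have e1 := iso.inv s p p
  have c1 := (Geo0.glue hδ b1 a2 (by omega)).2
  have c2 := (Geo0.glue hδ c1 b2 (by omega)).1
  have := noax iso hδ hts c2
  have e2 : X.d (t • p) ((t * s) • p) = X.d p (s • p) := by rw [mul_smul, iso]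
  unfold Sp.Bt at b2
  omega

theorem core (iso : X.Iso H) (hδ : X.Hyp δ) {S : Set H} (h1 : ∀ s ∈ S, s⁻¹ ∈ S)
    (h2 : ∀ s ∈ S, IsOfFinOrder s) (h3 : ∀ s ∈ S, ∀ t ∈ S, IsOfFinOrder (s * t))
    (h4 : ∃ n p, ∀ s ∈ S, X.d p (s • p) ≤ n) : ∃ p, ∀ s ∈ S, X.d p (s • p) ≤ 12 * δ + 4 := by
  classical
  obtain ⟨p, hp⟩ := Nat.find_spec h4
  have hm := fun m (h : m < Nat.find h4) => Nat.find_min h4 h
  generalize Nat.find h4 = l at hp hm
  by_cases hl : l ≤ 12 * δ + 4
  · exact ⟨p, fun s hs => (hp s hs).trans hl⟩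
  refine absurd ?_ (hm (l - 1) (by omega))
  obtain ⟨s0, hs0, l0⟩ : ∃ s ∈ S, l ≤ X.d p (s • p) := by
    by_contra e
    refine hm (l - 1) (by omega) ⟨p, fun s hs => ?_⟩
    have : ¬ l ≤ X.d p (s • p) := fun a => e ⟨s, hs, a⟩
    omega
  obtain ⟨q, hq1, hq2⟩ := X.geod' p (s0 • p) (2 * δ + 1) (by omega)
  have key : ∀ s ∈ S, l ≤ X.d p (s • p) + (4 * δ + 2) → X.Bt δ p q (s • p) := fun s hs ls => by
    have a := two iso hδ (h2 _ hs0) (h2 s hs) (h3 s hs _ hs0) (p := p) (c := 4 * δ + 2)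
      (by omega) (by omega)
    have := X.tri (s0 • p) q p
    have := X.symm p q
    rcases hδ.l1 hq2 (s • p) with b | b <;> unfold Sp.Bt at * <;> omega
  refine ⟨q, fun s hs => ?_⟩
  have u := hp s hs
  by_cases ls : l ≤ X.d p (s • p) + (4 * δ + 2)
  · have a := key s hs ls
    have b := iso.bt s (key s⁻¹ (h1 s hs) (by rwa [iso.disp_inv]))
    rw [smul_inv_smul] at b
    have e := iso s p q
    have := X.symm p (s • q)
    have := X.symm p (s • p)
    rcases hδ.l2 a b.symm with c | c <;> unfold Sp.Bt at * <;> omega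
  · have := iso.disp_move s q p
    have := X.symm p q
    omega

end A_kou

theorem p_A_KOU :
    S_A_KOU := by
  intro R
  refine ⟨28 * R.δ + 5, fun S l hl h2 h3 => ?_⟩
  obtain ⟨p, hp⟩ := A_kou.core R.iso R.hyp' (S := {s | s ∈ S ∨ s⁻¹ ∈ S})
    (fun s hs => by simpa [or_comm] using hs)
    (fun s hs => hs.elim (h2 s) fun a => (h2 _ a).of_inv)
    (fun s hs t ht => by
      rcases hs with a | a <;> rcases ht with b | b
      · exact (h3 s a t b).1
      · simpa [mul_assoc] using (MulAut.conj s).toMonoidHom.isOfFinOrder (h3 _ b s a).2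
      · simpa using (h3 _ a t b).2
      · exact (show IsOfFinOrder (s * t)⁻¹ by rw [mul_inv_rev]; exact (h3 _ b _ a).1).of_inv)
    ⟨l, 1, fun s hs => by
      rw [R.d_one_smul]
      exact hs.elim (hl s) fun a => R.len_inv s ▸ hl _ a⟩
  by_cases e : R.len p ≤ l + R.δ + 1
  · refine ⟨p, by omega, fun s hs => ?_⟩
    have := hp s (Or.inl hs)
    rw [R.d_conj] at this
    omega
  obtain ⟨q, hq1, hq2⟩ := R.sp.geod' 1 p (l + R.δ + 1) (by rw [R.d_one]; omega)
  refine ⟨q, by rw [← R.d_one]; omega, fun s hs => ?_⟩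
  have := R.descent (T := l) (hp s (Or.inl hs)) (by rw [R.d_one_smul]; exact hl s hs) hq2
    (by omega)
  rw [R.d_conj] at this
  omega

end Pool.Agent.P.MP_dba3d2_lc
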