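import Pool.Agent.P.MP_dba3d2_lc.A.Iface2
import Pool.Agent.P.MP_dba3d2_lc.A.Iface

/-! Step A_LIN2 of the stability project. -/

namespace Pool.Agent.P.MP_dba3d2_lc

open Filter MP_4b59b0_al

namespace A_lin2

variable {Γ : HG} {a : Amb} {μ : a.K}

theorem ds_pow (c r : MM Γ a) (n : ℕ) : ds r (c ^ n * r) ≤ n * ds r (c * r) := by
  induction n with
  | zero => simp
  | succ n ih =>
    have := ds_tri r (c * r) (c * (c ^ n * r))
    rw [ds_mul_left, ← mul_assoc, ← pow_succ'] at this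
    push_cast
    linarith

theorem ipow_inv (c : MM Γ a) (k : a.Z) : ipow c⁻¹ k = ipow c (-k) :=
  Germ.inductionOn₂ c k fun f g => Bas1.geq fun i => inv_zpow' (f i) (g i)

theorem ipow_zero (c : MM Γ a) : ipow c 0 = 1 :=
  Germ.inductionOn c fun f => Bas1.geq fun i => zpow_zero (f i)

theorem ipow_one (c : MM Γ a) : ipow c 1 = c :=
  Germ.inductionOn c fun f => Bas1.geq fun i => zpow_one (f i)

theorem zK_zero : zK (0 : a.Z) = 0 := Bas1.geq fun _ => Int.cast_zero

theorem zK_one : zK (1 : a.Z) = 1 := Bas1.geq fun _ => Int.cast_one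

theorem zK_sub (k l : a.Z) : zK (k - l) = zK k - zK l := by
  rw [sub_eq_add_neg, zK_add, zK_neg, sub_eq_add_neg]

theorem ls_real (hμ : 0 < μ) (r : ℝ) : Ls |(r : a.K) * μ| μ := by
  obtain ⟨n, hn⟩ := exists_nat_ge |r|
  refine ⟨n, ?_⟩
  rw [abs_mul, abs_of_pos hμ, ← cR_apply, ← map_abs]
  exact mul_le_mul_of_nonneg_right (Germ.const_le hn) hμ.le

theorem exists_real (hμ : 0 < μ) {x : a.K} (hx : Ls |x| μ) : ∃ t : ℝ, Ll |x - (t : a.K) * μ| μ := by
  refine ⟨rl μ x, ?_⟩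
  have h := ls_real hμ (rl μ x)
  rcases abs_choice (x - (rl μ x : a.K) * μ) with e | e <;> rw [e]
  · rw [← rl_nonpos_iff hμ (ls_abs_sub hx h), rl_sub hμ hx h, rl_real hμ, sub_self]
  · rw [neg_sub, ← rl_nonpos_iff hμ (ls_abs_sub h hx), rl_sub hμ h hx, rl_real hμ, sub_self]

theorem exists_near {L : a.K} (hL : 0 < L) (x : ℝ) :
    ∃ k : a.Z, |zK k * L - (x : a.K) * μ| ≤ L ∧ (x = 0 → k = 0) := by
  by_cases h : x = 0
  · refine ⟨0, ?_, fun _ => rfl⟩
    rw [h, ← cR_apply, map_zero, zK_zero, zero_mul, zero_mul, sub_self, abs_zero]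
    exact hL.le
  · obtain ⟨k, h1, h2⟩ := exists_floor ((x : a.K) * μ / L)
    rw [le_div_iff₀ hL] at h1
    rw [div_lt_iff₀ hL] at h2
    exact ⟨k, abs_le.2 ⟨by linarith, by linarith⟩, fun e => absurd e h⟩

end A_lin2

open A_lin2

theorem p_A_LIN2 (hELEM : S_ELEM) (hA_LINEU : S_A_LINEU) (hA_CE : S_A_CE) :
    S_A_LIN2 := by
  rintro Γ a μ p q hμ hpq ⟨c, hc, hcp, hcq⟩
  have h0 := hμ.pos
  obtain ⟨z, hzc⟩ : ∃ z, z = c ^ Γ.e := ⟨_, rfl⟩
  have hz : ¬ IsOfFinOrder z := hzc ▸ Geo0.pow_inf hc Γ.good.pos.ne'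
  have hzp : Ll (ds p (z * p)) μ := hzc ▸ (hcp.nat_mul _).mono_left (ds_pow c p _)
  have hzq : Ll (ds q (z * q)) μ := hzc ▸ (hcq.nat_mul _).mono_left (ds_pow c q _)
  obtain ⟨C, hC⟩ := hA_LINEU Γ
  obtain ⟨L, h1, -, h2, h3, h4⟩ := hC a z hz
  have hL : 0 < L := not_le.1 fun h =>
    (one_pos.trans_le h1).not_ge (mul_nonpos_of_nonneg_of_nonpos C.cast_nonneg h)
  have hLμ : Ll L μ := hzp.mono_left (by simpa only [zK_one, abs_one, one_mul, ipow_one] using h2 p 1)
  have hE := hzp.nat_mul C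
  have bas : ∀ j j' : a.Z, |zK j * L - zK j' * L| ≤ ds (ipow z j * p) (ipow z j' * p) ∧
      ds (ipow z j * p) (ipow z j' * p) ≤ |zK j * L - zK j' * L| + C * ds p (z * p) := fun j j' => by
    have e : ipow z j' * p = ipow z j * (ipow z (j' - j) * p) := by
      rw [← mul_assoc, ← ipow_add, add_sub_cancel]
    have e' : |zK j * L - zK j' * L| = |zK (j' - j)| * L := by
      rw [← sub_mul, abs_mul, abs_of_pos hL, zK_sub, abs_sub_comm]
    rw [e, e', ds_mul_left]
    exact ⟨h2 p _, h3 p _⟩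
  choose k hk hk0 using exists_near (μ := μ) hL
  have near : ∀ (j : a.Z) (x : ℝ), Ll |zK j * L - (x : a.K) * μ| μ →
      Ll (ds (ipow z j * p) (ipow z (k x) * p)) μ := fun j x h => by
    refine ((h.add hLμ).add hE).mono_left ((bas j (k x)).2.trans (add_le_add_left ?_ _))
    refine (abs_sub_le _ ((x : a.K) * μ) _).trans (add_le_add_right ?_ _)
    rw [abs_sub_comm]
    exact hk x
  have iso : ∀ s t : ℝ, Ll |ds (ipow z (k s) * p) (ipow z (k t) * p) - ((|s - t| : ℝ) : a.K) * μ| μ :=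
    fun s t => by
    have e : ((|s - t| : ℝ) : a.K) * μ = |(s : a.K) * μ - (t : a.K) * μ| := by
      rw [← sub_mul, abs_mul, abs_of_pos h0, ← cR_apply, map_abs, map_sub, cR_apply, cR_apply]
    have e1 := abs_le.1 (abs_abs_sub_abs_le_abs_sub (zK (k s) * L - zK (k t) * L)
      ((s : a.K) * μ - (t : a.K) * μ))
    have e2 := abs_sub (zK (k s) * L - (s : a.K) * μ) (zK (k t) * L - (t : a.K) * μ)
    rw [sub_sub_sub_comm] at e2
    have e3 := bas (k s) (k t)
    have e4 : 0 ≤ (C : a.K) * ds p (z * p) := mul_nonneg C.cast_nonneg (ds_nonneg _ _)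
    refine ((hLμ.add hLμ).add hE).mono_left ?_
    rw [e]
    exact abs_le.2 ⟨by linarith [hk s, hk t, e1.1, e3.1], by linarith [hk s, hk t, e1.2, e3.2]⟩
  have mov : ∀ j : a.Z, ds (ipow z j * p) (c * (ipow z j * p)) = ds p (c * p) := fun j => by
    rw [← mul_assoc, (commute_ipow (hzc ▸ Commute.self_pow c Γ.e) j).eq, mul_assoc, ds_mul_left]
  refine ⟨fun x => ipow z (k x) * p, by simp only [hk0 0 rfl, ipow_zero, one_mul], ?_, iso,
    fun s t => ⟨c, hc, by simpa only [mov] using hcp, by simpa only [mov] using hcp⟩,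
    fun g s t s' t' hst h h' => ?_⟩
  · obtain ⟨j, hj⟩ := h4 p q
    have a1 := ((hzp.add hzq).nat_mul C).mono_left hj
    have a2 := (bas 0 j).1
    rw [zK_zero, zero_mul, zero_sub, abs_neg, ipow_zero, one_mul] at a2
    obtain ⟨t, ht⟩ := exists_real h0 ((hpq.add a1.ls).mono_left (a2.trans (ds_tri _ q _)))
    exact ⟨t, (a1.add (near j t ht)).mono_left (ds_tri _ _ _)⟩
  · obtain ⟨C', hC'⟩ := hA_CE Γ
    have a1 : ∀ j : a.Z, ds (g * (ipow z j * p)) (g * c * g⁻¹ * (g * (ipow z j * p))) =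
        ds p (c * p) := fun j => by
      rw [mul_assoc (g * c), inv_mul_cancel_left, mul_assoc g c, ds_mul_left, mov]
    have a2 : ∀ (u : MM Γ a) (j : a.Z),
        ds u (c * u) ≤ ds p (c * p) + ds u (ipow z j * p) + ds u (ipow z j * p) := fun u j => by
      have b1 := ds_tri u (ipow z j * p) (c * u)
      have b2 := ds_tri (ipow z j * p) (c * (ipow z j * p)) (c * u)
      rw [mov, ds_mul_left, ds_comm _ u] at b2
      linarith
    have a3 : Ls μ (ds (g * (ipow z (k s) * p)) (g * (ipow z (k t) * p))) := by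
      rw [ds_mul_left, ← not_ll_iff' h0]
      intro b
      refine ((b.add (iso s t)).mono_left ?_).not_ls h0 ((rl_pos_iff h0 (ls_real h0 |s - t|)).1 ?_)
      · linarith [neg_abs_le (ds (ipow z (k s) * p) (ipow z (k t) * p) - ((|s - t| : ℝ) : a.K) * μ)]
      · rw [rl_real h0]
        exact abs_pos.2 (sub_ne_zero.2 hst.ne)
    have n1 := ds_nonneg (g * (ipow z (k s) * p)) (ipow z (k s') * p)
    have n2 := ds_nonneg (g * (ipow z (k t) * p)) (ipow z (k t') * p)
    have a4 := (((((((hcp.add h).add h).add h').add h').add (big_iff_ll.1 hμ)).nat_mul C').ls_right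
      a3 (ds_nonneg _ _)) 1
    rw [Nat.cast_one, one_mul] at a4
    have a5 := (hC' a _ (g * c * g⁻¹) _ _ (by rw [a1]; linarith) (by rw [a1]; linarith)).1 c hc
      (by linarith [a2 (g * (ipow z (k s) * p)) (k s')])
      (by linarith [a2 (g * (ipow z (k t) * p)) (k t')]) a4
    obtain ⟨-, e2, -, e4, -⟩ := hELEM Γ a c hc
    have a6 := (e4 g).2 (e2 _ a5 fun b => hc (by
      simpa [mul_assoc] using (MulAut.conj g).symm.toMonoidHom.isOfFinOrder b))
    rw [InE, ← hzc] at a6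
    obtain ⟨ε, hε, a7⟩ : ∃ ε : ℝ, (ε = 1 ∨ ε = -1) ∧
        ∀ j, ∃ j', g * ipow z j * g⁻¹ = ipow z j' ∧ zK j' = (ε : a.K) * zK j := by
      rcases a6 with b | b
      · exact ⟨1, Or.inl rfl, fun j => ⟨j, by rw [← ipow_conj, b], by
          rw [← cR_apply, map_one, one_mul]⟩⟩
      · exact ⟨-1, Or.inr rfl, fun j => ⟨-j, by rw [← ipow_conj, b, ipow_inv], by
          rw [← cR_apply, map_neg, map_one, neg_one_mul, zK_neg]⟩⟩
    refine ⟨ε, s' - ε * s, hε, fun x => ?_⟩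
    obtain ⟨j, b1, b2⟩ := a7 (k x - k s)
    have b3 : g * (ipow z (k x) * p) = ipow z j * (g * (ipow z (k s) * p)) := by
      rw [← b1, mul_assoc _ g⁻¹, inv_mul_cancel_left, mul_assoc, ← mul_assoc (ipow z _), ← ipow_add,
        sub_add_cancel]
    have b4 := near (j + k s') (ε * x + (s' - ε * s)) (((hLμ.add hLμ).add hLμ).mono_left (by
      have c1 := abs_le.1 (hk x)
      have c2 := abs_le.1 (hk s)
      have c3 := abs_le.1 (hk s')
      rw [zK_add, b2, zK_sub, ← cR_apply (ε * x + _), map_add, map_sub, map_mul, map_mul,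
        ← cR_apply ε]
      simp only [cR_apply x, cR_apply s, cR_apply s']
      rcases hε with rfl | rfl
      · rw [map_one]
        exact abs_le.2 ⟨by linarith [c1.1, c2.2, c3.1], by linarith [c1.2, c2.1, c3.2]⟩
      · rw [map_neg, map_one]
        exact abs_le.2 ⟨by linarith [c1.2, c2.1, c3.1], by linarith [c1.1, c2.2, c3.2]⟩))
    refine (h.add b4).mono_left ((ds_tri _ (ipow z (j + k s') * p) _).trans_eq ?_)
    rw [b3, ipow_add, mul_assoc, ds_mul_left]

end Pool.Agent.P.MP_dba3d2_lc
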