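import Pool.Agent.P.MP_dba3d2_lc.A.Iface2

/-! Step A_LINEU of the stability project. -/

namespace Pool.Agent.P.MP_dba3d2_lc

open Filter MP_4b59b0_al

theorem p_A_LINEU (hA_AX1 : S_A_AX1) (hA_AX2 : S_A_AX2) :
    S_A_LINEU := by
  intro Γ
  obtain ⟨C1, h1⟩ := hA_AX1 Γ.toHG0
  obtain ⟨C2, h2⟩ := hA_AX2 Γ.toHG0
  refine ⟨C1 + C2, fun a c hc => ?_⟩
  induction c using Germ.inductionOn with | h f => ?_
  have hf : ∀ᶠ j in (a.V : Filter a.I), ¬ IsOfFinOrder (f j) :=
    Ultrafilter.eventually_not.2 (mt (Bas2A.fin_coe f).2 hc)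
  obtain ⟨τ, hτ⟩ := (hf.mono fun j hj => h1 (f j) hj).choice
  have hle : ∀ t : ℝ, 1 ≤ C1 * t → C1 * t ≤ ((C1 + C2 : ℕ) : ℝ) * t := fun t ht => by
    have h0 : 0 ≤ t := by
      by_contra h
      nlinarith [mul_nonneg (Nat.cast_nonneg (α := ℝ) C1) (neg_nonneg.2 (not_le.1 h).le)]
    push_cast
    nlinarith [mul_nonneg (Nat.cast_nonneg (α := ℝ) C2) h0]
  refine ⟨Germ.ofFun τ, Germ.coe_le.2 (hτ.mono fun j hj => hj.1.trans (hle _ hj.1)), ?_,
    fun q k => ?_, fun p k => ?_, fun p q => ?_⟩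
  · obtain ⟨q, hq⟩ := (hτ.mono fun j hj => hj.2.2.1).choice
    refine (md_le _ (Germ.ofFun q)).trans (Germ.coe_le.2 ((hq.and hτ).mono fun j hj => ?_))
    have := hj.1.trans (hle _ hj.2.1)
    rwa [HG0.d_conj] at this
  · induction q using Germ.inductionOn with | h q => ?_
    induction k using Germ.inductionOn with | h k => ?_
    rw [Germ.abs_def]
    exact Germ.coe_le.2 (hτ.mono fun j hj => hj.2.1 (q j) (k j))
  · induction p using Germ.inductionOn with | h p => ?_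
    induction k using Germ.inductionOn with | h k => ?_
    rw [Germ.abs_def]
    refine Germ.coe_le.2 (hτ.mono fun j hj => (hj.2.2.2 (p j) (k j)).trans ?_)
    exact add_le_add_right (mul_le_mul_of_nonneg_right (Nat.cast_le.2 (Nat.le_add_right C1 C2))
      (Nat.cast_nonneg _)) _
  · induction p using Germ.inductionOn with | h p => ?_
    induction q using Germ.inductionOn with | h q => ?_
    obtain ⟨k, hk⟩ := (hf.mono fun j hj => h2 (f j) hj (p j) (q j)).choice
    refine ⟨Germ.ofFun k, Germ.coe_le.2 (hk.mono fun j hj => ?_)⟩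
    have := hj.trans (Nat.mul_le_mul_right _ (Nat.le_add_left C2 C1))
    show (Γ.sp.d (q j) (f j ^ k j • p j) : ℝ) ≤ ((C1 + C2 : ℕ) : ℝ) *
      ((Γ.sp.d (p j) (f j • p j) : ℝ) + Γ.sp.d (q j) (f j • q j))
    exact_mod_cast this

end Pool.Agent.P.MP_dba3d2_lc
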