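import Pool.Agent.P.MP_dba3d2_lc.A.Iface2

/-! Step A_LOX of the stability project. -/

namespace Pool.Agent.P.MP_dba3d2_lc

open Filter MP_4b59b0_al

namespace A_lox

theorem cnt (R : HG0) {c : R.G} (hc : ¬ IsOfFinOrder c) (p : R.G) (n r : ℕ)
    (h : ∀ i < n, R.sp.d p (c ^ i • p) ≤ r) :
    n ≤ (2 * r + 4 * R.δ + 2) * (R.fin (6 * R.δ)).toFinset.card := by
  classical
  obtain ⟨k, hk⟩ := R.unbdd hc p (2 * (r + 2 * R.δ + 1))
  obtain ⟨γ, g0, g1, hγ⟩ := R.sp.exists_geo p (c ^ k • p)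
  have d0 : ∀ t ≤ R.sp.d p (c ^ k • p), R.sp.d p (γ t) = t := fun t ht => by
    have := hγ 0 t (Nat.zero_le _) ht
    rwa [g0] at this
  have b0 : ∀ t ≤ R.sp.d p (c ^ k • p), R.sp.Bt 0 p (γ t) (c ^ k • p) := fun t ht => by
    have := hγ.bt (Nat.zero_le t) ht le_rfl
    rwa [g0, g1] at this
  have e1 := d0 (r + 2 * R.δ + 1) (by omega)
  have e2 := b0 (r + 2 * R.δ + 1) (by omega)
  generalize γ (r + 2 * R.δ + 1) = m at e1 e2
  have e3 : r + 0 + 2 * R.δ < R.sp.d (c ^ k • p) m := by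
    have := R.sp.tri p m (c ^ k • p)
    have := R.sp.symm m (c ^ k • p)
    omega
  rw [← Finset.card_range (2 * r + 4 * R.δ + 2), ← Finset.card_product]
  refine (Finset.card_range n).symm.trans_le (Finset.card_le_card_of_injOn
    (fun i => (R.sp.d p (c ^ i • m), (c ^ i • m)⁻¹ * γ (R.sp.d p (c ^ i • m))))
    (fun i hi => ?_) fun i _ j _ e => ?_)
  · have h1 := h i (Finset.mem_range.1 hi)
    have h2 : R.sp.d (c ^ k • p) (c ^ i • c ^ k • p) ≤ r :=
      (R.iso.disp_comm (Commute.pow_pow_self c i k) p).trans_le h1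
    have h3 := (Sp.stl R.iso R.hyp' h1 h2 e2 (by omega) e3).1
    have h4 := Sp.qc R.iso R.hyp' h1 h2 e2
    have h5 := R.sp.tri p m (c ^ i • m)
    have h6 := d0 (R.sp.d p (c ^ i • m)) (by omega)
    have h7 := R.hyp'.l2 h3 (b0 (R.sp.d p (c ^ i • m)) (by omega))
    refine Finset.mem_coe.2 (Finset.mem_product.2 ⟨Finset.mem_range.2 (by dsimp only; omega), ?_⟩)
    rw [Set.Finite.mem_toFinset]
    show R.sp.d (c ^ i • m) (γ (R.sp.d p (c ^ i • m))) ≤ _
    omega
  · obtain ⟨a1, a2⟩ := Prod.mk.inj e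
    rw [a1] at a2
    exact injective_pow_iff_not_isOfFinOrder.2 hc
      (mul_right_cancel (inv_injective (mul_right_cancel a2)))

end A_lox

theorem p_A_LOX :
    S_A_LOX := by
  intro R
  refine ⟨2 * (R.fin (6 * R.δ)).toFinset.card, fun c hc p j => ?_⟩
  by_contra hj
  have key : ∀ a : ℕ, (a + 1) * j ≤ (2 * (a * R.sp.d p (c ^ j • p) + j * R.sp.d p (c • p)) +
      4 * R.δ + 2) * (R.fin (6 * R.δ)).toFinset.card := fun a =>
    A_lox.cnt R hc p _ _ fun i hi => by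
      have h0 : 0 < j := by omega
      have h1 := R.iso.disp_mul ((c ^ j) ^ (i / j)) (c ^ (i % j)) p
      rw [← pow_mul, ← pow_add, Nat.div_add_mod] at h1
      have h2 := R.iso.disp_pow (c ^ j) p (i / j)
      rw [← pow_mul] at h2
      have h3 := R.iso.disp_pow c p (i % j)
      have h4 := Nat.mul_le_mul_right (R.sp.d p (c ^ j • p))
        (Nat.lt_succ_iff.1 ((Nat.div_lt_iff_lt_mul h0).2 hi))
      have h5 := Nat.mul_le_mul_right (R.sp.d p (c • p)) (Nat.mod_lt i h0).le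
      omega
  generalize (R.fin (6 * R.δ)).toFinset.card = b at hj key
  generalize R.sp.d p (c ^ j • p) = ρ at hj key
  generalize j * R.sp.d p (c • p) = B at key
  have h1 := key ((2 * B + 4 * R.δ + 2) * b)
  have h2 := Nat.mul_le_mul_left ((2 * B + 4 * R.δ + 2) * b + 1) (Nat.succ_le_of_lt (not_le.1 hj))
  nlinarith [Nat.zero_le (b * ρ)]

end Pool.Agent.P.MP_dba3d2_lc
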