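import Pool.Agent.P.MP_dba3d2_lc.A.Iface2

/-! Step A_MATCH of the stability project. -/

namespace Pool.Agent.P.MP_dba3d2_lc

open Filter MP_4b59b0_al

namespace A_match

/-- the overlap property with constant `W` -/
def Ovl (Γ : HG) (c T W : ℕ) : Prop := ∀ A B x y x' y' g h : Γ.G, ¬ IsOfFinOrder h →
  Γ.sp.Bt c A y B → Γ.sp.Bt c A y' B →
  Γ.sp.d x (h • x) ≤ T → Γ.sp.d y (h • y) ≤ T → Γ.sp.d x' (g • x') ≤ T → Γ.sp.d y' (g • y') ≤ T →
  Γ.sp.d A x + W ≤ Γ.sp.d A y → Γ.sp.d A x + W ≤ Γ.sp.d A y' →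
  Γ.sp.d A x' + W ≤ Γ.sp.d A y → Γ.sp.d A x' + W ≤ Γ.sp.d A y' → Commute g (h ^ Γ.e)

variable {Γ : HG} {c c' T W L U D n n' : ℕ} {P h Q h' : ℕ → Γ.G} {p q : Γ.G}

theorem straddle (hW : Ovl Γ c' T W) (HP : PCh Γ c T L U n P h) (HQ : PCh Γ c T L U n' Q h')
    {j k : ℕ} (hj : j + 2 ≤ n) (hk : k + 1 ≤ n') (b1 : Γ.sp.Bt c' p (P (j + 1)) q)
    (b2 : Γ.sp.Bt c' p (P (j + 1 + 1)) q) (b3 : Γ.sp.Bt c' p (Q (k + 1)) q)
    (e1 : Γ.sp.d p (P j) + W ≤ Γ.sp.d p (P (j + 1)))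
    (e2 : Γ.sp.d p (P (j + 1)) + W ≤ Γ.sp.d p (P (j + 1 + 1)))
    (e3 : Γ.sp.d p (Q k) + W ≤ Γ.sp.d p (P (j + 1)))
    (e4 : Γ.sp.d p (P (j + 1)) + W ≤ Γ.sp.d p (Q (k + 1))) : False := by
  have i1 := HQ.inf k (by omega)
  have m1 := HQ.mv k (by omega)
  have m2 := HP.mv j (by omega)
  have m3 := HP.mv (j + 1) (by omega)
  have c1 := hW p q (Q k) (Q (k + 1)) (P j) (P (j + 1)) (h j) (h' k) i1 b3 b1 m1.1 m1.2 m2.1 m2.2
    (by omega) (by omega) (by omega) (by omega)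
  have c2 := hW p q (Q k) (Q (k + 1)) (P (j + 1)) (P (j + 1 + 1)) (h (j + 1)) (h' k) i1 b3 b2
    m1.1 m1.2 m3.1 m3.2 (by omega) (by omega) (by omega) (by omega)
  exact HP.ind j (by omega) ((Geo0.ep0 i1 (HP.inf j (by omega)) c1 _).2 c2)

theorem core (hA_WIN : S_A_WIN) {s C : ℕ} (hW : Ovl Γ (c + 2 * (2 * Γ.δ)) T W)
    (hC : 2 * W + 4 * c + 10 * (2 * Γ.δ) + s + 20 ≤ C)
    (HP : PCh Γ c T L U n P h) (HQ : PCh Γ c T L U n' Q h') (hL : C ≤ L)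
    (p1 : Γ.sp.Bt D (P 0) p (P n)) (p2 : Γ.sp.Bt D (P 0) q (P n))
    (q1 : Γ.sp.Bt D (Q 0) p (Q n')) (q2 : Γ.sp.Bt D (Q 0) q (Q n'))
    (p3 : Γ.sp.Bt (2 * D + 2 * Γ.δ) (P 0) p q) (q3 : Γ.sp.Bt (2 * D + 2 * Γ.δ) (Q 0) p q)
    (hd : C * (U + D + 1) ≤ Γ.sp.d p q) :
    ∃ t t', t + s ≤ n ∧ t' + s ≤ n' ∧ ∀ v ≤ s, Γ.sp.d (P (t + v)) (Q (t' + v)) ≤ C := by
  have H := Γ.hyp'
  have hb : (s + 3) * U + 2 * U + 4 * D + 2 * c + 5 * (2 * Γ.δ) < Γ.sp.d p q := by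
    have a1 : (s + 5) * U ≤ C * U := Nat.mul_le_mul_right _ (by omega)
    have a2 : 4 * D ≤ C * D := Nat.mul_le_mul_right _ (by omega)
    have a3 : C * (U + D + 1) = C * U + C * D + C := by ring
    have a4 : (s + 5) * U = (s + 3) * U + 2 * U := by ring
    omega
  obtain ⟨t, t1, t2, t3, t4, t5⟩ := hA_WIN _ Γ.sp (2 * Γ.δ) c D L U n
    (U + D + c + 2 * (2 * Γ.δ)) (s + 3) P p q H HP.bt HP.lo HP.hi (by omega) p1 p2 p3 le_rfl
    (by omega)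
  have hM : Γ.sp.d p (P (t + 1)) ≤ U + D + c + 2 * (2 * Γ.δ) + U := by
    have := Γ.sp.tri p (P t) (P (t + 1))
    have := HP.hi t (by omega)
    omega
  obtain ⟨u, u1, u2, u3, u4, u5⟩ := hA_WIN _ Γ.sp (2 * Γ.δ) c D L U n'
    (Γ.sp.d p (P (t + 1))) (s + 3) Q p q H HQ.bt HQ.lo HQ.hi (by omega) q1 q2 q3 (by omega)
    (by omega)
  have tb : ∀ j, t ≤ j → j ≤ t + (s + 3) → Γ.sp.Bt (c + 2 * (2 * Γ.δ)) p (P j) q := by
    intro j a b
    have := t4 (j - t) (by omega)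
    rwa [show t + (j - t) = j by omega] at this
  have ub : ∀ j, u ≤ j → j ≤ u + (s + 3) → Γ.sp.Bt (c + 2 * (2 * Γ.δ)) p (Q j) q := by
    intro j a b
    have := u4 (j - u) (by omega)
    rwa [show u + (j - u) = j by omega] at this
  have ts : ∀ j, t ≤ j → j < t + (s + 3) → Γ.sp.d p (P j) + 2 * W ≤ Γ.sp.d p (P (j + 1)) := by
    intro j a b
    have := t5 (j - t) (by omega)
    rw [show t + (j - t) = j by omega] at this
    omega
  have us : ∀ j, u ≤ j → j < u + (s + 3) → Γ.sp.d p (Q j) + 2 * W ≤ Γ.sp.d p (Q (j + 1)) := by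
    intro j a b
    have := u5 (j - u) (by omega)
    rw [show u + (j - u) = j by omega] at this
    omega
  obtain ⟨k, k1, k2, k3⟩ : ∃ k, u ≤ k ∧ k ≤ u + 1 ∧
      (Γ.sp.d p (P (t + 1)) < Γ.sp.d p (Q k) + W ∧ Γ.sp.d p (Q k) < Γ.sp.d p (P (t + 1)) + W) := by
    by_contra hc
    have a1 := ts t le_rfl (by omega)
    have a2 := ts (t + 1) (by omega) (by omega)
    have a3 : Γ.sp.d p (Q u) + W ≤ Γ.sp.d p (P (t + 1)) := by
      by_contra e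
      exact hc ⟨u, le_rfl, by omega, by omega, by omega⟩
    have a4 : Γ.sp.d p (P (t + 1)) + W ≤ Γ.sp.d p (Q (u + 1)) := by
      by_contra e
      exact hc ⟨u + 1, by omega, le_rfl, by omega, by omega⟩
    exact straddle hW HP HQ (j := t) (k := u) (by omega) (by omega)
      (tb _ (by omega) (by omega)) (tb _ (by omega) (by omega)) (ub _ (by omega) (by omega))
      (by omega) (by omega) a3 a4
  have key : ∀ v ≤ s, Γ.sp.d p (P (t + 1 + v)) < Γ.sp.d p (Q (k + v)) + W ∧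
      Γ.sp.d p (Q (k + v)) < Γ.sp.d p (P (t + 1 + v)) + W := by
    intro v
    induction v with
    | zero => exact fun _ => k3
    | succ v ih =>
      intro hv
      obtain ⟨i1, i2⟩ := ih (by omega)
      have a1 := ts (t + 1 + v) (by omega) (by omega)
      have a2 := ts (t + 1 + v + 1) (by omega) (by omega)
      have a3 := us (k + v) (by omega) (by omega)
      have a4 := us (k + v + 1) (by omega) (by omega)
      rw [← Nat.add_assoc, ← Nat.add_assoc]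
      constructor
      · by_contra e
        exact straddle hW HQ HP (j := k + v) (k := t + 1 + v) (by omega) (by omega)
          (ub _ (by omega) (by omega)) (ub _ (by omega) (by omega)) (tb _ (by omega) (by omega))
          (by omega) (by omega) (by omega) (by omega)
      · by_contra e
        exact straddle hW HP HQ (j := t + 1 + v) (k := k + v) (by omega) (by omega)
          (tb _ (by omega) (by omega)) (tb _ (by omega) (by omega)) (ub _ (by omega) (by omega))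
          (by omega) (by omega) (by omega) (by omega)
  refine ⟨t + 1, k, by omega, by omega, fun v hv => ?_⟩
  obtain ⟨i1, i2⟩ := key v hv
  rcases H.l2 (tb (t + 1 + v) (by omega) (by omega)) (ub (k + v) (by omega) (by omega)) with
    e | e <;> omega

theorem half (hA_WIN : S_A_WIN) {s C : ℕ} (hW : Ovl Γ (c + 2 * (2 * Γ.δ)) T W)
    (hC : 2 * W + 4 * c + 10 * (2 * Γ.δ) + s + 20 ≤ C)
    (HP : PCh Γ c T L U n P h) (HQ : PCh Γ c T L U n' Q h') (hL : C ≤ L)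
    (p1 : Γ.sp.Bt D (P 0) p (P n)) (p2 : Γ.sp.Bt D (P 0) q (P n))
    (q1 : Γ.sp.Bt D (Q 0) p (Q n')) (q2 : Γ.sp.Bt D (Q 0) q (Q n'))
    (p3 : Γ.sp.Bt (2 * D + 2 * Γ.δ) (P 0) p q) (hd : C * (U + D + 1) ≤ Γ.sp.d p q) :
    ∃ t t', t + s ≤ n ∧ ((t' + s ≤ n' ∧ ∀ v ≤ s, Γ.sp.d (P (t + v)) (Q (t' + v)) ≤ C) ∨
      (s ≤ t' ∧ t' ≤ n' ∧ ∀ v ≤ s, Γ.sp.d (P (t + v)) (Q (t' - v)) ≤ C)) := by
  rcases Γ.hyp'.l2 q1 q2 with e | e
  · obtain ⟨t, t', a, b, d⟩ := core hA_WIN hW hC HP HQ hL p1 p2 q1 q2 p3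
      (by unfold Sp.Bt; omega) hd
    exact ⟨t, t', a, Or.inl ⟨b, d⟩⟩
  · have q3 : Γ.sp.Bt (2 * D + 2 * Γ.δ) (Q n') p q := by
      have := Γ.sp.tri (Q 0) q (Q n')
      have := Γ.sp.symm p (Q n')
      have := Γ.sp.symm q (Q n')
      unfold Sp.Bt at *
      omega
    obtain ⟨t, u, a, b, d⟩ := core hA_WIN hW hC HP HQ.rev hL p1 p2
      (by simpa using q1.symm) (by simpa using q2.symm) p3 (by simpa using q3) hd
    refine ⟨t, n' - u, a, Or.inr ⟨by omega, by omega, fun v hv => ?_⟩⟩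
    have := d v hv
    rwa [show n' - (u + v) = n' - u - v by omega] at this

end A_match

theorem p_A_MATCH (hA_OVL : S_A_OVL) (hA_WIN : S_A_WIN) :
    S_A_MATCH := by
  intro Γ c T s
  obtain ⟨W, hW⟩ := hA_OVL Γ (c + 2 * (2 * Γ.δ)) T
  refine ⟨2 * W + 4 * c + 10 * (2 * Γ.δ) + s + 20, ?_⟩
  intro L U D n n' P h Q h' p q HP HQ hL p1 p2 q1 q2 hd
  rcases Γ.hyp'.l2 p1 p2 with e | e
  · exact A_match.half hA_WIN hW le_rfl HP HQ hL p1 p2 q1 q2 (by unfold Sp.Bt; omega) hd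
  · have := Γ.sp.symm p q
    exact A_match.half hA_WIN hW le_rfl HP HQ hL p2 p1 q2 q1 (by unfold Sp.Bt; omega)
      (by omega)

end Pool.Agent.P.MP_dba3d2_lc
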