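import Pool.Agent.P.MP_dba3d2_lc.A.Iface2

/-! Step A_OVL of the stability project. -/

namespace Pool.Agent.P.MP_dba3d2_lc

open Filter MP_4b59b0_al

theorem p_A_OVL (hA_CE0 : S_A_CE0) :
    S_A_OVL := by
  intro Γ c T
  obtain ⟨C, hC⟩ := hA_CE0 Γ
  refine ⟨C * (T + 6 * Γ.δ + 1) + c + 6 * Γ.δ + 2,
    fun A B x y x' y' g h hh b1 b2 m1 m2 m3 m4 l1 l2 l3 l4 => ?_⟩
  generalize hW : C * (T + 6 * Γ.δ + 1) = W at *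
  have u1 : Γ.sp.d A y ≤ Γ.sp.d A B + c := by unfold Sp.Bt at b1; omega
  obtain ⟨z, e1, f1⟩ := Γ.sp.geod' A B (max (Γ.sp.d A x) (Γ.sp.d A x') + 2 * Γ.δ + 1) (by omega)
  obtain ⟨w, e2, f2⟩ := Γ.sp.geod' A B
    (min (Γ.sp.d A y) (Γ.sp.d A y') - (c + 4 * Γ.δ + 1)) (by omega)
  have t := Γ.sp.tri A z w
  have q1 := Sp.qc Γ.iso Γ.hyp' m1 m2 (Geo0.coord Γ.hyp' f1 b1 (by omega) (by omega))
  have q2 := Sp.qc Γ.iso Γ.hyp' m1 m2 (Geo0.coord Γ.hyp' f2 b1 (by omega) (by omega))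
  have q3 := Sp.qc Γ.iso Γ.hyp' m3 m4 (Geo0.coord Γ.hyp' f1 b2 (by omega) (by omega))
  have q4 := Sp.qc Γ.iso Γ.hyp' m3 m4 (Geo0.coord Γ.hyp' f2 b2 (by omega) (by omega))
  exact hC (T + 6 * Γ.δ) g h z w hh (by omega) (by omega) (by omega) (by omega) (by omega)

end Pool.Agent.P.MP_dba3d2_lc
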