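import Pool.Agent.P.MP_dba3d2_lc.A.Iface2

/-! Step A_OVM of the stability project. -/

namespace Pool.Agent.P.MP_dba3d2_lc

open Filter MP_4b59b0_al

namespace A_ovm

theorem bt {V : Type} (X : Sp V) {x m y : V} {D : ℝ}
    (h : (X.d x m : ℝ) + X.d m y ≤ X.d x y + D) : 0 ≤ D ∧ X.Bt ⌊D⌋₊ x m y := by
  have t : (X.d x y : ℝ) ≤ X.d x m + X.d m y := by exact_mod_cast X.tri x m y
  refine ⟨by linarith, ?_⟩
  have h1 : X.d x m + X.d m y - X.d x y ≤ ⌊D⌋₊ := Nat.le_floor (by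
    rw [Nat.cast_sub (X.tri x m y)]
    push_cast
    linarith)
  unfold Sp.Bt
  omega

end A_ovm

theorem p_A_OVM :
    S_A_OVM := by
  intro Γ r K C w hw hK a i j b b' n n' D g p q h1 h2 h3 h4 h5
  induction D using Germ.inductionOn with | h D => ?_
  induction g using Germ.inductionOn with | h g => ?_
  induction p using Germ.inductionOn with | h p => ?_
  induction q using Germ.inductionOn with | h q => ?_
  have key : ∀ᶠ t in (a.V : Filter a.I), i = j ∧ b t ≤ b' t + C * (n' t + 1) ∧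
      b' t ≤ b t + C * (n t + 1) ∧ (b t = b' t → n t = n' t → g t ∈ K i) := by
    filter_upwards [Germ.coe_le.1 h1, Germ.coe_le.1 h2, Germ.coe_le.1 h3, Germ.coe_le.1 h4,
      Germ.coe_le.1 h5] with t e1 e2 e3 e4 e5
    obtain ⟨d0, k1⟩ := A_ovm.bt Γ.sp (D := D t) e1
    refine hw.ov i j (b t) (b' t) (n t) (n' t) ⌊D t⌋₊ (g t) (p t) (q t) k1
      (A_ovm.bt Γ.sp e2).2 (A_ovm.bt Γ.sp e3).2 (A_ovm.bt Γ.sp e4).2 ?_
    have e6 : (C : ℝ) * ((b t : ℝ) + b' t + n t + n' t + D t + 1) ≤ Γ.sp.d (p t) (q t) := e5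
    refine (Nat.cast_le (α := ℝ)).1 (le_trans ?_ e6)
    push_cast
    gcongr
    exact Nat.floor_le d0
  refine ⟨key.exists.elim fun _ h => h.1, Germ.coe_le.2 (key.mono fun t h => ?_),
    Germ.coe_le.2 (key.mono fun t h => ?_), fun e e' => ?_⟩
  · show (b t : ℝ) ≤ b' t + C * (n' t + 1)
    exact_mod_cast h.2.1
  · show (b' t : ℝ) ≤ b t + C * (n t + 1)
    exact_mod_cast h.2.2.1
  · obtain ⟨x, hx, hx'⟩ := (Ultrafilter.eventually_exists_mem_iff (P := fun x t => x = g t)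
      (Set.toFinite (K i : Set Γ.G))).1 (key.mono fun t h =>
        ⟨g t, h.2.2.2 (congrFun e t) (congrFun e' t), rfl⟩)
    exact ⟨x, hx, Germ.coe_eq.2 hx'⟩

end Pool.Agent.P.MP_dba3d2_lc
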