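import Pool.Agent.P.MP_dba3d2_lc.A.Iface2

/-! Step A_PRE of the stability project. -/

namespace Pool.Agent.P.MP_dba3d2_lc

open Filter MP_4b59b0_al

namespace A_pre

section
variable {G : Type} [Group G]

/-- the product of the first blocks -/
def pth (y : ℕ → G) (a : ℕ → ℕ) : ℕ → G
  | 0 => 1
  | t + 1 => pth y a t * y t ^ a t

theorem cj {g p u : G} : Commute g (p * u * p⁻¹) ↔ Commute (p⁻¹ * g * p) u :=
  ⟨fun h => by simpa [mul_assoc] using h.map (MulAut.conj p).symm,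
    fun h => by simpa [mul_assoc] using h.map (MulAut.conj p)⟩

theorem pth_comm {y : ℕ → G} {k : G} (h : ∀ t, Commute (y t) k) (a : ℕ → ℕ) :
    ∀ t, Commute (pth y a t) k
  | 0 => Commute.one_left k
  | t + 1 => (pth_comm h a t).mul_left ((h t).pow_left _)

theorem shift (y : ℕ → G) (a : ℕ → ℕ) (t : ℕ) :
    pth y a t * y t * (pth y a t)⁻¹ = pth y a (t + 1) * y t * (pth y a (t + 1))⁻¹ := by
  rw [pth]
  group

theorem last {y : ℕ → G} {a : ℕ → ℕ} {e s t0 : ℕ} {g : G}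
    (h4 : ∀ t k, Commute k (y t ^ e) → Commute k (y t))
    (h : ∀ v < s, Commute g ((pth y a (t0 + v) * y (t0 + v) * (pth y a (t0 + v))⁻¹) ^ e)) :
    ∀ v < s, Commute ((pth y a t0)⁻¹ * g * pth y a t0) (y (t0 + v)) := by
  have h1 : ∀ v < s, Commute ((pth y a (t0 + v))⁻¹ * g * pth y a (t0 + v)) (y (t0 + v)) :=
    fun v hv => h4 _ _ (cj.1 (by rw [← conj_pow]; exact h v hv))
  have h2 : ∀ v ≤ s, (pth y a (t0 + v))⁻¹ * g * pth y a (t0 + v) =
      (pth y a t0)⁻¹ * g * pth y a t0 := by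
    intro v
    induction v with
    | zero => exact fun _ => rfl
    | succ v ih =>
      intro hv
      have h3 := ((h1 v hv).pow_right (a (t0 + v))).eq
      rw [← ih (by omega), ← add_assoc, pth, mul_inv_rev, mul_assoc, mul_assoc, ← mul_assoc g,
        ← mul_assoc, ← mul_assoc, mul_assoc _ _ (g * _), mul_assoc, ← mul_assoc _ g, h3,
        inv_mul_cancel_left]
  exact fun v hv => h2 v hv.le ▸ h1 v hv

end

theorem expo (Γ : HG) (u : Γ.G) (l : ℕ) :
    ∃ a : ℕ, ¬ IsOfFinOrder u → l ≤ Γ.len (u ^ a) ∧ Γ.len (u ^ a) ≤ l + Γ.len u := by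
  by_cases hu : IsOfFinOrder u
  · exact ⟨0, fun h => absurd hu h⟩
  have h : ∃ a : ℕ, l ≤ Γ.len (u ^ a) := by
    obtain ⟨k, hk⟩ := Γ.unbdd hu 1 l
    rw [HG0.d_one_smul] at hk
    exact ⟨k, hk.le⟩
  refine ⟨Nat.find h, fun _ => ⟨Nat.find_spec h, ?_⟩⟩
  rcases e : Nat.find h with _ | b
  · rw [pow_zero, (Γ.len_eq_zero 1).2 rfl]
    omega
  · have h1 := Nat.find_min h (m := b) (by omega)
    have h2 := Γ.len_mul (u ^ b) u
    rw [pow_succ]
    omega

theorem d_step (Γ : HG) (y : ℕ → Γ.G) (a : ℕ → ℕ) (t : ℕ) :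
    Γ.sp.d (pth y a t) (pth y a (t + 1)) = Γ.len (y t ^ a t) := by
  rw [HG0.d_def, pth, inv_mul_cancel_left]

theorem d_two (Γ : HG) (y : ℕ → Γ.G) (a : ℕ → ℕ) (t : ℕ) :
    Γ.sp.d (pth y a t) (pth y a (t + 2)) = Γ.len (y t ^ a t * y (t + 1) ^ a (t + 1)) := by
  rw [HG0.d_def, pth, pth, mul_assoc, inv_mul_cancel_left]

theorem d_mv (Γ : HG) (p u : Γ.G) : Γ.sp.d p ((p * u * p⁻¹) • p) = Γ.len u := by
  rw [HG0.d_def, smul_eq_mul, inv_mul_cancel_right, inv_mul_cancel_left]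

end A_pre

open A_pre

theorem p_A_PRE (hA_ALPH : S_A_ALPH) (hA_IND : S_A_IND) :
    S_A_PRE := by
  intro Γ r K hK
  choose y s h1 h2 h3 h4 h5 h6 using fun i => hA_ALPH Γ (K i) (hK i)
  choose a ha using expo Γ
  have hC : ∀ q : Γ.G × Γ.G, ∃ C : ℕ, ¬ IsOfFinOrder q.2 → ¬ Commute q.1 (q.2 ^ Γ.e) →
      ∀ m n : ℕ, Γ.len (q.1 ^ m) + Γ.len (q.2 ^ n) ≤ Γ.len (q.1 ^ m * q.2 ^ n) + C := fun q => by
    by_cases e : ¬ IsOfFinOrder q.2 ∧ ¬ Commute q.1 (q.2 ^ Γ.e)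
    · obtain ⟨C, hC⟩ := hA_IND Γ q.1 q.2 e.1 e.2
      exact ⟨C, fun _ _ => hC⟩
    · exact ⟨0, fun b c => absurd ⟨b, c⟩ e⟩
  choose C hC using hC
  have hU : (⋃ i, Set.range (y i)).Finite := Set.finite_iUnion h1
  have hm : ∀ i t, y i t ∈ ⋃ i, Set.range (y i) := fun i t => Set.mem_iUnion.2 ⟨i, t, rfl⟩
  obtain ⟨T, hT⟩ := (hU.image Γ.len).bddAbove
  obtain ⟨c, hc⟩ := ((hU.prod hU).image C).bddAbove
  have hT' : ∀ i t, Γ.len (y i t) ≤ T := fun i t => hT ⟨_, hm i t, rfl⟩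
  have hd : ∀ i (l : ℕ → ℕ) t, l t ≤ Γ.len (y i t ^ a (y i t) (l t)) ∧
      Γ.len (y i t ^ a (y i t) (l t)) ≤ l t + T := fun i l t => by
    have := ha (y i t) (l t) (h2 i t)
    have := hT' i t
    omega
  refine ⟨c + 2 * (2 * Γ.δ) + 1, T, ∑ i, s i, fun i l => pth (y i) fun t => a (y i t) (l t),
    fun i l t => pth (y i) (fun t => a (y i t) (l t)) t * y i t *
      (pth (y i) (fun t => a (y i t) (l t)) t)⁻¹, fun _ _ => rfl,
    fun i l t k hk => pth_comm (fun t => h3 i t k hk) _ t, fun i l t => ?_,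
    fun i l L U n hL hl => ⟨fun u v w b1 b2 b3 => ?_, fun t ht => ?_, fun t ht => ?_,
      fun t _ e => ?_, fun t _ => ⟨?_, ?_⟩, fun t _ e => ?_⟩, fun i l t0 g hg => ?_⟩
  · rw [d_step]
    exact hd i l t
  · refine (Geo0.chain (c := c) Γ.hyp' (fun t _ => ?_) (fun t ht => ?_) b1 b2 b3).mono (by omega)
    · have e1 := hC (y i t, y i (t + 1)) (h2 i _) (fun e => h5 i t (h4 i _ _ e))
        (a (y i t) (l t)) (a (y i (t + 1)) (l (t + 1)))
      have e2 : C (y i t, y i (t + 1)) ≤ c := hc ⟨_, ⟨hm i t, hm i (t + 1)⟩, rfl⟩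
      unfold Sp.Bt
      rw [d_step, d_step, d_two]
      exact e1.trans (Nat.add_le_add_left e2 _)
    · have := hd i l t
      have := hl t ht
      rw [d_step]
      omega
  · rw [d_step]
    exact (hl t ht).1.trans (hd i l t).1
  · rw [d_step]
    exact (hd i l t).2.trans (Nat.add_le_add_right (hl t ht).2 _)
  · exact h2 i t (by
      simpa [mul_assoc] using
        (MulAut.conj (pth (y i) (fun t => a (y i t) (l t)) t)).symm.toMonoidHom.isOfFinOrder e)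
  · rw [d_mv]
    exact hT' i t
  · beta_reduce
    rw [shift, d_mv]
    exact hT' i t
  · beta_reduce at e
    rw [shift (y i) _ t, conj_pow, cj] at e
    refine h5 i t (h4 i t _ ?_).symm
    simpa [mul_assoc] using e
  · have hk := h6 i t0 _ fun v hv => last (h4 i) hg v
      (hv.trans_le (Finset.single_le_sum (fun _ _ => Nat.zero_le _) (Finset.mem_univ i)))
    have e := (pth_comm (fun t => h3 i t _ hk) (fun t => a (y i t) (l t)) t0).eq
    rw [← mul_assoc, mul_inv_cancel_left, mul_left_inj] at e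
    exact e ▸ hk

end Pool.Agent.P.MP_dba3d2_lc
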