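import Pool.Agent.P.MP_dba3d2_lc.A.Iface2

/-! Step A_PSI of the stability project. -/

namespace Pool.Agent.P.MP_dba3d2_lc

open Filter MP_4b59b0_al

namespace A_psi

theorem tors_int (x : Multiplicative ℤ) (h : IsOfFinOrder x) : x = 1 := by
  obtain ⟨n, h0, hn⟩ := isOfFinOrder_iff_pow_eq_one.1 h
  have h1 : (n : ℤ) * x.toAdd = 0 := by
    have := congrArg Multiplicative.toAdd hn
    rwa [toAdd_pow, toAdd_one, nsmul_eq_mul] at this
  have h2 : x.toAdd = 0 := by
    rcases mul_eq_zero.1 h1 with h | h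
    · omega
    · exact h
  exact Multiplicative.toAdd.injective h2

theorem abs_psi {Z : Type} [Group Z] (z : Z) (hz : ¬ IsOfFinOrder z) (hc : ∀ f, Commute f z)
    [hf : Finite (Z ⧸ Subgroup.zpowers z)] : {f : Z | IsOfFinOrder f}.Finite ∧
      ∃ ψ : Z →* Multiplicative ℤ, ∀ f, ψ f = 1 ↔ IsOfFinOrder f := by
  have hi : Function.Injective (zpowersHom Z z) := fun a b h =>
    Multiplicative.toAdd.injective (injective_zpow_iff_not_isOfFinOrder.2 hz h)
  have : (Subgroup.zpowers z).FiniteIndex := Subgroup.finiteIndex_of_finite_quotient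
  let e : Subgroup.zpowers z ≃* Multiplicative ℤ := (MonoidHom.ofInjective hi).symm
  have key : ∀ (g : Z) (k : ℕ) (g₀ : Z), g₀⁻¹ * g ^ k * g₀ ∈ Subgroup.zpowers z →
      g₀⁻¹ * g ^ k * g₀ = g ^ k := by
    intro g k g₀ ⟨m, hm⟩
    have h1 : Commute g₀ (g₀⁻¹ * g ^ k * g₀) := by
      rw [← hm]; exact (hc g₀).zpow_right m
    have h2 := h1.eq
    rw [← mul_assoc, ← mul_assoc, mul_inv_cancel, one_mul] at h2
    exact (mul_right_cancel h2).symm
  have hψ : ∀ f, MonoidHom.transfer e.toMonoidHom f = 1 ↔ IsOfFinOrder f := by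
    intro f
    constructor
    · intro h
      rw [MonoidHom.transfer_eq_pow _ f (key f)] at h
      have h1 := e.injective (h.trans (map_one e).symm)
      exact isOfFinOrder_iff_pow_eq_one.2 ⟨_, Nat.pos_of_ne_zero Subgroup.FiniteIndex.index_ne_zero,
        congrArg Subtype.val h1⟩
    · intro h
      exact tors_int _ (MonoidHom.isOfFinOrder _ h)
  refine ⟨?_, _, hψ⟩
  refine Set.Finite.of_finite_image (f := fun f => (f : Z ⧸ Subgroup.zpowers z)) (Set.toFinite _) ?_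
  intro a ha b hb hab
  obtain ⟨m, hm⟩ := QuotientGroup.eq.1 hab
  have h1 : IsOfFinOrder (z ^ m) := by
    rw [← hψ]
    have : z ^ m = a⁻¹ * b := hm
    rw [this, map_mul, map_inv, (hψ a).2 ha, (hψ b).2 hb, inv_one, one_mul]
  have h2 : m = 0 := by
    by_contra h0
    obtain ⟨n, hn, e1⟩ := isOfFinOrder_iff_pow_eq_one.1 h1
    rw [← zpow_natCast, ← zpow_mul] at e1
    exact hz (isOfFinOrder_iff_zpow_eq_one.2 ⟨_, mul_ne_zero h0 (by omega), e1⟩)
  have h3 : a⁻¹ * b = 1 := by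
    have : z ^ m = a⁻¹ * b := hm
    rw [← this, h2, zpow_zero]
  exact inv_mul_eq_one.1 h3

end A_psi

theorem p_A_PSI (hA_AX2 : S_A_AX2) :
    S_A_PSI := by
  intro R z hz
  obtain ⟨C, hC⟩ := hA_AX2 R
  let z' : Subgroup.centralizer {z} :=
    ⟨z, Subgroup.mem_centralizer_singleton_iff.2 rfl⟩
  have hz' : ¬ IsOfFinOrder z' := fun h => hz (Submonoid.isOfFinOrder_coe.2 h)
  have hcz : ∀ f : Subgroup.centralizer {z}, Commute (f : R.G) z := fun f =>
    Subgroup.mem_centralizer_singleton_iff.1 f.2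
  have hc : ∀ f : Subgroup.centralizer {z}, Commute f z' := fun f => Subtype.ext (hcz f).eq
  have hB : {f : Subgroup.centralizer {z} | R.len f ≤ C * (R.len z + R.len z)}.Finite :=
    Set.Finite.preimage Subtype.val_injective.injOn (R.fin _)
  have hf : Finite (Subgroup.centralizer {z} ⧸ Subgroup.zpowers z') := by
    refine Set.finite_univ_iff.1 ((hB.image (QuotientGroup.mk (s := Subgroup.zpowers z'))).subset ?_)
    intro q _
    obtain ⟨f, rfl⟩ := QuotientGroup.mk_surjective q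
    obtain ⟨k, hk⟩ := hC z hz 1 (f : R.G)⁻¹
    rw [R.d_one_smul, R.d_conj, R.d_def, inv_inv, smul_eq_mul, mul_one, (hcz f).eq,
      mul_inv_cancel_right] at hk
    refine ⟨f * z' ^ k, hk, ?_⟩
    exact QuotientGroup.mk_mul_of_mem f ⟨k, rfl⟩
  obtain ⟨h1, ψ, h2⟩ := A_psi.abs_psi z' hz' hc
  refine ⟨(h1.image Subtype.val).subset ?_, ψ, fun f => (h2 f).trans
    Submonoid.isOfFinOrder_coe.symm⟩
  rintro f ⟨h3, h4⟩
  exact ⟨⟨f, Subgroup.mem_centralizer_singleton_iff.2 h3.eq⟩, Submonoid.isOfFinOrder_coe.1 h4, rfl⟩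

end Pool.Agent.P.MP_dba3d2_lc
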