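import Pool.Agent.P.MP_dba3d2_lc.A.Iface2
import Pool.Agent.P.MP_dba3d2_lc.A.Iface

/-! Step A_SMALL of the stability project. -/

namespace Pool.Agent.P.MP_dba3d2_lc

open Filter MP_4b59b0_al

theorem A_small.arith {K : Type} [Field K] [LinearOrder K] [IsStrictOrderedRing K] {μ D : K}
    (N C : ℕ) (hμ : Big μ) (hD : 0 ≤ D) (h : μ ≤ N * D) :
    ∃ (n : ℕ) (T : K), 0 < n ∧ C * (T + 1) ≤ D / 2 - 1 ∧
      ∀ (k : ℕ) (x : K), n ≤ k → 0 ≤ x → k * x ≤ μ → x ≤ T := by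
  have hN : (0 : K) ≤ N := Nat.cast_nonneg _
  have hC : (0 : K) ≤ C := Nat.cast_nonneg _
  have h0 : (0 : K) < ((8 * (N + 1) * (C + 1) : ℕ) : K) := by positivity
  obtain ⟨T, hT⟩ : ∃ T : K, ((8 * (N + 1) * (C + 1) : ℕ) : K) * T = μ :=
    ⟨μ / _, mul_div_cancel₀ _ h0.ne'⟩
  refine ⟨8 * (N + 1) * (C + 1), T, by positivity, ?_, fun k x hk hx h1 => ?_⟩
  · have h1 : 1 ≤ T := le_of_mul_le_mul_left (by rw [mul_one, hT]; exact hμ _) h0
    push_cast at hT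
    have h2 : 8 * ((C + 1) * T) ≤ D := by
      refine le_of_mul_le_mul_left ?_ (show (0 : K) < N + 1 by positivity)
      nlinarith
    nlinarith
  · have h2 : ((8 * (N + 1) * (C + 1) : ℕ) : K) ≤ k := Nat.cast_le.2 hk
    refine le_of_mul_le_mul_left ?_ h0
    rw [hT]
    exact (mul_le_mul_of_nonneg_right h2 hx).trans h1

theorem p_A_SMALL (hELEM : S_ELEM) (hA_DOM : S_A_DOM) (hA_CE : S_A_CE) :
    S_A_SMALL := by
  intro Γ a μ p q hμ hls hper
  obtain ⟨N, hN⟩ := hls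
  obtain ⟨C, hC⟩ := hA_CE Γ
  obtain ⟨C', hC'⟩ := hA_DOM Γ
  have hD := ds_nonneg p q
  obtain ⟨n1, T, hn1, hT, hle⟩ := A_small.arith N C hμ hD hN
  obtain ⟨m, hm, hm1, hm2⟩ := exists_point p q (ds p q / 2) (by linarith) (by linarith)
  by_cases hex : ∃ n, n1 ≤ n ∧ ∀ g : MM Γ a, n * ds p (g * p) ≤ μ → n * ds q (g * q) ≤ μ →
      IsOfFinOrder g
  · obtain ⟨n, hn, hfin⟩ := hex
    refine ⟨n, hn1.trans_le hn, m, hm, fun g h1 h2 => ?_⟩
    have h3 := (hC a T g p q (hle n _ hn (ds_nonneg _ _) h1) (hle n _ hn (ds_nonneg _ _) h2)).2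
      (hfin g h1 h2) m hm (by linarith) (by linarith)
    refine Ll.mono_left h3 fun k => ?_
    have := hμ (k * C)
    rwa [Nat.cast_mul] at this
  · exfalso
    have hg : ∀ n, n1 ≤ n → ∃ g : MM Γ a, n * ds p (g * p) ≤ μ ∧ n * ds q (g * q) ≤ μ ∧
        ¬ IsOfFinOrder g := by
      intro n hn
      by_contra h
      exact hex ⟨n, hn, fun g h1 h2 => by_contra fun h3 => h ⟨g, h1, h2, h3⟩⟩
    obtain ⟨g1, a1, b1, c1⟩ := hg n1 le_rfl
    obtain ⟨c0, hc0, hep⟩ := (hELEM Γ a g1 c1).1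
    have key : ∀ k : ℕ, k * ds p (c0 * p) ≤ μ ∧ k * ds q (c0 * q) ≤ μ := by
      intro k
      obtain ⟨g, a2, b2, c2⟩ := hg (n1 + k * C') (Nat.le_add_right _ _)
      have h1 : g1 ∈ Ep g :=
        (hC a T g1 p q (hle n1 _ le_rfl (ds_nonneg _ _) a1)
          (hle n1 _ le_rfl (ds_nonneg _ _) b1)).1 g c2
          (hle _ _ (Nat.le_add_right _ _) (ds_nonneg _ _) a2)
          (hle _ _ (Nat.le_add_right _ _) (ds_nonneg _ _) b2) (by linarith)
      have h2 : c0 ∈ Ep g := by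
        rw [← (hELEM Γ a g c2).2.1 g1 h1 c1, ← hep]
        exact Subgroup.mem_centralizer_singleton_iff.2 (Commute.self_pow c0 _).eq
      have h3 : ∀ r : MM Γ a, ((n1 + k * C' : ℕ) : a.K) * ds r (g * r) ≤ μ →
          k * ds r (c0 * r) ≤ μ := by
        intro r hr
        have h4 := hC' a g c0 r c2 h2 (Or.inr hc0)
        have h5 := mul_le_mul_of_nonneg_left h4 (Nat.cast_nonneg (α := a.K) k)
        have h6 := mul_nonneg (Nat.cast_nonneg (α := a.K) n1) (ds_nonneg r (g * r))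
        rw [Nat.cast_add, Nat.cast_mul, add_mul, mul_assoc] at hr
        linarith
      exact ⟨h3 p a2, h3 q b2⟩
    exact hper ⟨c0, hc0.1, fun k => (key k).1, fun k => (key k).2⟩

end Pool.Agent.P.MP_dba3d2_lc
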