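import Pool.Agent.P.MP_dba3d2_lc.A.Iface2

/-! Step A_WIN of the stability project. -/

namespace Pool.Agent.P.MP_dba3d2_lc

open Filter MP_4b59b0_al

theorem p_A_WIN :
    S_A_WIN := by
  intro V X δ c D L U n M m P p q H hB hL hU hc hp hq hpq hM hd
  have hq' := hq
  have t1 := X.tri (P 0) p (P n)
  unfold Sp.Bt at hq' hpq
  obtain ⟨i, hi, a1, a2⟩ := Sp.ivt (fun j => X.d (P 0) (P j) ≤ X.d (P 0) p + c + δ) n
    (by rw [X.d_self]; exact Nat.zero_le _) (by omega)
  have hy : ∀ j, i + 1 ≤ j → j ≤ n → X.d (P 0) p + c + δ < X.d (P 0) (P j) := by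
    intro j hj
    induction j, hj using Nat.le_induction with
    | base => exact fun _ => not_le.1 a2
    | succ j _ ih =>
      intro hn
      have := ih (by omega)
      have h1 := hB 0 j (j + 1) (Nat.zero_le _) (Nat.le_succ _) hn
      have := hL j hn
      unfold Sp.Bt at h1
      omega
  have hx : X.d p (P (i + 1)) ≤ M := by
    have := H.l2 hp (hB 0 (i + 1) n (Nat.zero_le _) hi le_rfl)
    have := X.tri (P 0) (P i) (P (i + 1))
    have := hU i hi
    omega
  obtain ⟨j, hj, b1, b2⟩ := Sp.ivt (fun j => X.d p (P (i + 1 + j)) ≤ M) (n - (i + 1)) hx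
    (by rw [show i + 1 + (n - (i + 1)) = n by omega]; omega)
  have hv : ∀ v, i + 1 + j + v ≤ n → X.d p (P (i + 1 + j + v)) ≤ M + v * U := by
    intro v
    induction v with
    | zero => exact fun _ => by simpa using b1
    | succ v ih =>
      intro hn
      have := ih (by omega)
      have := X.tri p (P (i + 1 + j + v)) (P (i + 1 + j + v + 1))
      have := hU (i + 1 + j + v) hn
      rw [Nat.succ_mul, ← add_assoc (i + 1 + j)]
      omega
  have hm : i + 1 + j + m ≤ n := by
    by_contra e
    have h1 := hv (n - (i + 1 + j)) (by omega)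
    have h2 : (n - (i + 1 + j)) * U ≤ m * U := Nat.mul_le_mul_right _ (by omega)
    rw [show i + 1 + j + (n - (i + 1 + j)) = n by omega] at h1
    omega
  refine ⟨i + 1 + j, hm, b1, not_le.1 b2, fun v h => ?_, fun v h => ?_⟩
  · have h1 := hv v (by omega)
    have h2 : v * U ≤ m * U := Nat.mul_le_mul_right _ h
    have := X.tri (P 0) p (P (i + 1 + j + v))
    exact Geo0.coord H (hB 0 _ n (Nat.zero_le _) (by omega) le_rfl) hq
      (hy _ (by omega) (by omega)) (by omega)
  · have := hy (i + 1 + j + v) (by omega) (by omega)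
    have := hL (i + 1 + j + v) (by omega)
    have := X.symm p (P (i + 1 + j + v))
    have := X.symm p (P (i + 1 + j + v + 1))
    have := X.symm (P (i + 1 + j + v)) (P (i + 1 + j + v + 1))
    have h1 := H.l1 (hB 0 (i + 1 + j + v) (i + 1 + j + v + 1) (Nat.zero_le _) (Nat.le_succ _)
      (by omega)) p
    unfold Sp.Bt at h1
    omega

end Pool.Agent.P.MP_dba3d2_lc
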