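import Pool.Agent.P.MP_dba3d2_lc.A.Defs3

/-! Interface, chapter A, second layer: the lemmas below the top statements. -/

namespace Pool.Agent.P.MP_dba3d2_lc

open Filter MP_4b59b0_al

-- deps:
def S_A_KOU : Prop := ∀ R : HG0, ∃ C : ℕ, ∀ (S : Set R.G) (l : ℕ), (∀ s ∈ S, R.len s ≤ l) →
  (∀ s ∈ S, IsOfFinOrder s) →
  (∀ s ∈ S, ∀ t ∈ S, IsOfFinOrder (s * t) ∧ IsOfFinOrder (s⁻¹ * t)) →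
  ∃ p, R.len p ≤ l + C ∧ ∀ s ∈ S, R.len (p⁻¹ * s * p) ≤ C

-- deps:
def S_A_LOX : Prop := ∀ R : HG0, ∃ N : ℕ, ∀ c : R.G, ¬ IsOfFinOrder c →
  ∀ (p : R.G) (j : ℕ), j ≤ N * R.sp.d p (c ^ j • p)

-- deps: A_LOX
def S_A_CH : Prop := ∀ R : HG0, ∃ M : ℕ, 0 < M ∧ ∀ c : R.G, ¬ IsOfFinOrder c →
  ∀ (p : R.G) (i j : ℕ), R.sp.d p ((c ^ M) ^ i • p) + R.sp.d p ((c ^ M) ^ j • p) ≤
    R.sp.d p ((c ^ M) ^ (i + j) • p) + R.sp.d p (c ^ M • p)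

-- deps: A_LOX A_CH
def S_A_AX1 : Prop := ∀ R : HG0, ∃ C : ℕ, ∀ c : R.G, ¬ IsOfFinOrder c → ∃ τ : ℝ, 1 ≤ C * τ ∧
  (∀ (q : R.G) (k : ℤ), |(k : ℝ)| * τ ≤ R.sp.d q (c ^ k • q)) ∧
  (∃ q : R.G, (R.sp.d q (c • q) : ℝ) ≤ C * τ) ∧
  ∀ (p : R.G) (k : ℤ), (R.sp.d p (c ^ k • p) : ℝ) ≤ |(k : ℝ)| * τ + C * R.sp.d p (c • p)

-- deps: A_LOX A_CH
def S_A_AX2 : Prop := ∀ R : HG0, ∃ C : ℕ, ∀ c : R.G, ¬ IsOfFinOrder c → ∀ p q : R.G,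
  ∃ k : ℤ, R.sp.d q (c ^ k • p) ≤ C * (R.sp.d p (c • p) + R.sp.d q (c • q))

-- deps: A_AX2
def S_A_PSI : Prop := ∀ (R : HG0) (z : R.G), ¬ IsOfFinOrder z →
  {f : R.G | Commute f z ∧ IsOfFinOrder f}.Finite ∧
  ∃ ψ : Subgroup.centralizer {z} →* Multiplicative ℤ, ∀ f, ψ f = 1 ↔ IsOfFinOrder (f : R.G)

-- deps:
def S_A_CE0 : Prop := ∀ Γ : HG, ∃ C : ℕ, ∀ (T : ℕ) (g h p q : Γ.G), ¬ IsOfFinOrder h →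
  Γ.sp.d p (g • p) ≤ T → Γ.sp.d q (g • q) ≤ T → Γ.sp.d p (h • p) ≤ T → Γ.sp.d q (h • q) ≤ T →
  C * (T + 1) ≤ Γ.sp.d p q → Commute g (h ^ Γ.e)

-- deps: A_CE0
def S_A_OVL : Prop := ∀ (Γ : HG) (c T : ℕ), ∃ W : ℕ, ∀ A B x y x' y' g h : Γ.G, ¬ IsOfFinOrder h →
  Γ.sp.Bt c A y B → Γ.sp.Bt c A y' B →
  Γ.sp.d x (h • x) ≤ T → Γ.sp.d y (h • y) ≤ T → Γ.sp.d x' (g • x') ≤ T → Γ.sp.d y' (g • y') ≤ T →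
  Γ.sp.d A x + W ≤ Γ.sp.d A y → Γ.sp.d A x + W ≤ Γ.sp.d A y' →
  Γ.sp.d A x' + W ≤ Γ.sp.d A y → Γ.sp.d A x' + W ≤ Γ.sp.d A y' → Commute g (h ^ Γ.e)

-- deps: A_CE0
def S_A_IND : Prop := ∀ (Γ : HG) (x y : Γ.G), ¬ IsOfFinOrder y → ¬ Commute x (y ^ Γ.e) →
  ∃ C : ℕ, ∀ m n : ℕ, Γ.len (x ^ m) + Γ.len (y ^ n) ≤ Γ.len (x ^ m * y ^ n) + C

-- deps: A_PSI
def S_A_ALPH : Prop := ∀ (Γ : HG) (K : Subgroup Γ.G), Legal Γ K → ∃ (y : ℕ → Γ.G) (s : ℕ),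
  (Set.range y).Finite ∧ (∀ t, ¬ IsOfFinOrder (y t)) ∧ (∀ t, ∀ k ∈ K, Commute (y t) k) ∧
  (∀ t k, Commute k (y t ^ Γ.e) → Commute k (y t)) ∧ (∀ t, ¬ Commute (y t) (y (t + 1))) ∧
  ∀ t0 k, (∀ v < s, Commute k (y (t0 + v))) → k ∈ K

-- deps:
def S_A_WIN : Prop := ∀ (V : Type) (X : Sp V) (δ c D L U n M m : ℕ) (P : ℕ → V) (p q : V),
  X.Hyp δ → (∀ i j k, i ≤ j → j ≤ k → k ≤ n → X.Bt c (P i) (P j) (P k)) →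
  (∀ t < n, L ≤ X.d (P t) (P (t + 1))) → (∀ t < n, X.d (P t) (P (t + 1)) ≤ U) → c ≤ L →
  X.Bt D (P 0) p (P n) → X.Bt D (P 0) q (P n) → X.Bt (2 * D + δ) (P 0) p q →
  U + D + c + 2 * δ ≤ M → M + m * U + 3 * D + c + 3 * δ < X.d p q →
  ∃ t, t + m ≤ n ∧ X.d p (P t) ≤ M ∧ M < X.d p (P (t + 1)) ∧
    (∀ v ≤ m, X.Bt (c + 2 * δ) p (P (t + v)) q) ∧
    ∀ v < m, X.d p (P (t + v)) + L ≤ X.d p (P (t + v + 1)) + c + δ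

-- deps: A_OVL A_WIN
def S_A_MATCH : Prop := ∀ (Γ : HG) (c T s : ℕ), ∃ C : ℕ,
  ∀ (L U D n n' : ℕ) (P h Q h' : ℕ → Γ.G) (p q : Γ.G),
  PCh Γ c T L U n P h → PCh Γ c T L U n' Q h' → C ≤ L →
  Γ.sp.Bt D (P 0) p (P n) → Γ.sp.Bt D (P 0) q (P n) →
  Γ.sp.Bt D (Q 0) p (Q n') → Γ.sp.Bt D (Q 0) q (Q n') → C * (U + D + 1) ≤ Γ.sp.d p q →
  ∃ t t', t + s ≤ n ∧ ((t' + s ≤ n' ∧ ∀ v ≤ s, Γ.sp.d (P (t + v)) (Q (t' + v)) ≤ C) ∨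
    (s ≤ t' ∧ t' ≤ n' ∧ ∀ v ≤ s, Γ.sp.d (P (t + v)) (Q (t' - v)) ≤ C))

-- deps: A_ALPH A_IND
def S_A_PRE : Prop := ∀ (Γ : HG) (r : ℕ) (K : Fin r → Subgroup Γ.G), (∀ i, Legal Γ (K i)) →
  ∃ (c T s : ℕ) (P h : Fin r → (ℕ → ℕ) → ℕ → Γ.G),
    (∀ i l, P i l 0 = 1) ∧ (∀ i l t, ∀ k ∈ K i, Commute (P i l t) k) ∧
    (∀ i l t, l t ≤ Γ.sp.d (P i l t) (P i l (t + 1)) ∧
      Γ.sp.d (P i l t) (P i l (t + 1)) ≤ l t + T) ∧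
    (∀ i l L U n, c ≤ L → (∀ t < n, L ≤ l t ∧ l t ≤ U) →
      PCh Γ c T L (U + T) n (P i l) (h i l)) ∧
    ∀ i l t0 g, (∀ v < s, Commute g (h i l (t0 + v) ^ Γ.e)) → g ∈ K i

-- deps: A_PRE A_MATCH A_CE0
def S_A_BW : Prop := ∀ (Γ : HG) (r : ℕ) (K : Fin r → Subgroup Γ.G), (∀ i, Legal Γ (K i)) →
  ∃ (C : ℕ) (P : Fin r → (ℕ → ℕ) → ℕ → Γ.G),
    (∀ i l n, ∀ k ∈ K i, Commute (P i l n) k) ∧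
    (∀ i l n, (∀ t < n, C ≤ l t) → ∑ t ∈ Finset.range n, l t ≤ Γ.len (P i l n) + C * n ∧
      Γ.len (P i l n) ≤ ∑ t ∈ Finset.range n, l t + C * n) ∧
    ∀ i j l l' n n' U D g p q, (∀ t < n, C ≤ l t ∧ l t ≤ U) → (∀ t < n', C ≤ l' t ∧ l' t ≤ U) →
      Γ.sp.Bt D 1 p (P i l n) → Γ.sp.Bt D 1 q (P i l n) →
      Γ.sp.Bt D g p (g * P j l' n') → Γ.sp.Bt D g q (g * P j l' n') →
      C * (U + D + 1) ≤ Γ.sp.d p q →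
      (∃ t < n, ∃ t' < n', l t ≤ l' t' + C ∧ l' t' ≤ l t + C) ∧
      (i = j → l = l' → (∀ t t', l t ≤ l t' + C → l t' ≤ l t + C → t = t') → g ∈ K i)

-- deps: A_BW
def S_A_BW2 : Prop := ∀ (Γ : HG) (r : ℕ) (K : Fin r → Subgroup Γ.G), (∀ i, Legal Γ (K i)) →
  ∃ C w, BWp Γ K C w

-- deps:
def S_A_OVM : Prop := ∀ (Γ : HG) (r : ℕ) (K : Fin r → Subgroup Γ.G) (C : ℕ)
  (w : Fin r → ℕ → ℕ → Γ.G), BWp Γ K C w → (∀ i, Finite (K i)) →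
  ∀ (a : Amb) (i j : Fin r) (b b' n n' : a.I → ℕ) (D : a.K) (g p q : MM Γ a),
    ds 1 p + ds p (gw (w i) b n) ≤ ds 1 (gw (w i) b n) + D →
    ds 1 q + ds q (gw (w i) b n) ≤ ds 1 (gw (w i) b n) + D →
    ds g p + ds p (g * gw (w j) b' n') ≤ ds g (g * gw (w j) b' n') + D →
    ds g q + ds q (g * gw (w j) b' n') ≤ ds g (g * gw (w j) b' n') + D →
    C * (nK b + nK b' + nK n + nK n' + D + 1) ≤ ds p q →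
    i = j ∧ nK b ≤ nK b' + C * (nK n' + 1) ∧ nK b' ≤ nK b + C * (nK n + 1) ∧
      (b = b' → n = n' → g ∈ (K i).map (cst Γ a))

-- deps: A_OVM
def S_A_BWM : Prop := ∀ (Γ : HG) (r : ℕ) (K : Fin r → Subgroup Γ.G) (C : ℕ)
  (w : Fin r → ℕ → ℕ → Γ.G), BWp Γ K C w → (∀ i, Finite (K i)) →
  ∀ (a : Amb) (μ : a.K) (b : Fin r → a.I → ℕ) (n : a.I → ℕ), Big μ →
    (∀ i, Ll (nK (b i)) μ) → Ll (nK n) μ → (∀ i, Sim (ln (gw (w i) (b i) n : MM Γ a)) μ) →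
    Letters μ (std Γ a) K fun i => gw (w i) (b i) n

-- deps: A_OVM
def S_A_GB : Prop := ∀ (Γ : HG) (r : ℕ) (K : Fin r → Subgroup Γ.G) (C : ℕ)
  (w : Fin r → ℕ → ℕ → Γ.G), BWp Γ K C w → (∀ i, Finite (K i)) →
  ∀ (a : Amb) (μ : a.K) (l : a.I → ℕ) (i : Fin r), Big μ → Sim (nK l) μ →
    ∀ x : MM Γ a, Ls (ln x) μ → ∀ g p q : MM Γ (a.pow U0),
      ¬ Ov ((a.dg U0).mp μ) p q 1
        (gw (a := a.pow U0) (w i) (fun j => l j.2 / j.1) fun j => j.1) g (g * (a.dg U0).hom Γ x)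

-- deps: A_PSI
def S_A_EL0 : Prop := ∀ (Γ : HG) (c : Γ.G), ¬ IsOfFinOrder c →
  (∃ c0, Bas2A.P0 Γ c0 ∧ Commute c0 (c ^ Γ.e)) ∧
  (∀ f g, Commute f (c ^ Γ.e) → Commute g (c ^ Γ.e) →
    IsOfFinOrder (f * g * f⁻¹ * g⁻¹) ∧ (IsOfFinOrder f → IsOfFinOrder g → IsOfFinOrder (f * g))) ∧
  ∀ g, Commute (g * c * g⁻¹) (c ^ Γ.e) →
    g * c ^ Γ.e * g⁻¹ = c ^ Γ.e ∨ g * c ^ Γ.e * g⁻¹ = (c ^ Γ.e)⁻¹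

-- deps: A_AX1 A_AX2
def S_A_LINEU : Prop := ∀ Γ : HG, ∃ C : ℕ, ∀ (a : Amb) (c : MM Γ a), ¬ IsOfFinOrder c →
  ∃ L : a.K, 1 ≤ C * L ∧ md c ≤ C * L ∧
    (∀ (q : MM Γ a) (k : a.Z), |zK k| * L ≤ ds q (ipow c k * q)) ∧
    (∀ (p : MM Γ a) (k : a.Z),
      ds p (ipow c k * p) ≤ |zK k| * L + (C : a.K) * ds p (c * p)) ∧
    ∀ p q : MM Γ a, ∃ k : a.Z,
      ds q (ipow c k * p) ≤ (C : a.K) * (ds p (c * p) + ds q (c * q))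

-- deps: A_AX1 A_AX2
def S_A_DOM : Prop := ∀ Γ : HG, ∃ C : ℕ, ∀ (a : Amb) (g f p : MM Γ a), ¬ IsOfFinOrder g →
  f ∈ Ep g → IsOfFinOrder f ∨ Prim f → ds p (f * p) ≤ C * ds p (g * p)

-- deps: A_CE0
def S_A_CE : Prop := ∀ Γ : HG, ∃ C : ℕ, ∀ (a : Amb) (T : a.K) (g p q : MM Γ a),
  ds p (g * p) ≤ T → ds q (g * q) ≤ T →
  (∀ h, ¬ IsOfFinOrder h → ds p (h * p) ≤ T → ds q (h * q) ≤ T → C * (T + 1) ≤ ds p q →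
    g ∈ Ep h) ∧
  (IsOfFinOrder g → ∀ m, ds p m + ds m q = ds p q → C * (T + 1) ≤ ds p m →
    C * (T + 1) ≤ ds m q → ds m (g * m) ≤ C)

-- deps: ELEM A_DOM A_CE
def S_A_SMALL : Prop := ∀ (Γ : HG) (a : Amb) (μ : a.K) (p q : MM Γ a), Big μ → Ls μ (ds p q) →
  ¬ Per μ p q → ∃ n : ℕ, 0 < n ∧ ∃ m, ds p m + ds m q = ds p q ∧
    ∀ g, n * ds p (g * p) ≤ μ → n * ds q (g * q) ≤ μ → Ll (ds m (g * m)) μ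

-- deps: ELEM A_LINEU A_CE
def S_A_LIN2 : Prop := ∀ (Γ : HG) (a : Amb) (μ : a.K) (p q : MM Γ a), Big μ → Ls (ds p q) μ →
  Per μ p q → ∃ L : ℝ → MM Γ a, L 0 = p ∧ (∃ t, Ll (ds q (L t)) μ) ∧
    (∀ s t : ℝ, Ll |ds (L s) (L t) - ((|s - t| : ℝ) : a.K) * μ| μ) ∧ (∀ s t, Per μ (L s) (L t)) ∧
    ∀ (g : MM Γ a) (s t s' t' : ℝ), s < t → Ll (ds (g * L s) (L s')) μ → Ll (ds (g * L t) (L t')) μ →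
      ∃ ε b : ℝ, (ε = 1 ∨ ε = -1) ∧ ∀ x, Ll (ds (g * L x) (L (ε * x + b))) μ

-- deps: TORS ELEM
def S_A_FR2 : Prop := ∀ (Γ : HG) (a : Amb) (μ : a.K) (y : MM Γ a) (K : Subgroup Γ.G), Big μ →
  Ls μ (ln y) → Finite K → (∀ k ∈ K, Commute y (cst Γ a k)) →
  (∀ g, Stab μ 1 y g → g ∈ K.map (cst Γ a)) → Legal Γ K

end Pool.Agent.P.MP_dba3d2_lc
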