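import Pool.Agent.P.MP_dba3d2_lc.A.Iface
import Pool.Agent.P.MP_dba3d2_lc.A.Iface2

/-! Step FINM of the stability project. -/

namespace Pool.Agent.P.MP_dba3d2_lc

open Filter

theorem p_FINM (hA_KOU : S_A_KOU) :
    S_FINM := by
  intro Γ a K hK
  obtain ⟨C, hC⟩ := hA_KOU Γ.toHG0
  obtain ⟨k0, hk0⟩ := Finite.exists_max fun k : K => ln (k : MM Γ a)
  obtain ⟨f, hf⟩ := Bas2A.rep fun k : K => (k : MM Γ a)
  have e : ∀ k : K, (k : MM Γ a) = Germ.ofFun (f k) := congrFun hf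
  have fo : ∀ k : K, IsOfFinOrder (k : MM Γ a) := fun k =>
    K.subtype.isOfFinOrder (isOfFinOrder_of_finite k)
  have h1 : ∀ k : K, ∀ᶠ j in (a.V : Filter a.I), Γ.len (f k j) ≤ Γ.len (f k0 j) := fun k => by
    have := hk0 k
    rw [e, e] at this
    exact (Germ.coe_le.1 this).mono fun j h => Nat.cast_le (α := ℝ).1 h
  have h2 : ∀ k : K, ∀ᶠ j in (a.V : Filter a.I), IsOfFinOrder (f k j) := fun k =>
    (Bas2A.fin_coe (f k)).1 (e k ▸ fo k)
  have h3 : ∀ k l : K, ∀ᶠ j in (a.V : Filter a.I),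
      IsOfFinOrder (f k j * f l j) ∧ IsOfFinOrder ((f k j)⁻¹ * f l j) := fun k l => by
    have a1 := fo (k * l)
    have a2 := fo (k⁻¹ * l)
    rw [Subgroup.coe_mul, e, e] at a1
    rw [Subgroup.coe_mul, Subgroup.coe_inv, e, e] at a2
    exact ((Bas2A.fin_coe fun j => f k j * f l j).1 a1).and
      ((Bas2A.fin_coe fun j => (f k j)⁻¹ * f l j).1 a2)
  obtain ⟨p, hp⟩ := (((eventually_all.2 h1).and ((eventually_all.2 h2).and
    (eventually_all.2 fun k => eventually_all.2 (h3 k)))).mono fun j h =>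
      hC (Set.range fun k => f k j) (Γ.len (f k0 j)) (Set.forall_mem_range.2 h.1)
        (Set.forall_mem_range.2 h.2.1)
        (Set.forall_mem_range.2 fun k => Set.forall_mem_range.2 (h.2.2 k))).choice
  refine ⟨Germ.ofFun p, fun k hk => mem_std_iff.2 (not_big_iff.2 ⟨C + 1, ?_⟩),
    k0, k0.2, C + 1, ?_⟩
  · have : ln ((Germ.ofFun p : MM Γ a)⁻¹ * k * Germ.ofFun p) ≤ (C : a.K) := by
      rw [show k = Germ.ofFun (f ⟨k, hk⟩) from e ⟨k, hk⟩]
      exact Germ.coe_le.2 (hp.mono fun j h => Nat.cast_le (α := ℝ).2 (h.2 _ ⟨⟨k, hk⟩, rfl⟩))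
    exact this.trans_lt (Nat.cast_lt.2 C.lt_succ_self)
  · have : ln (Germ.ofFun p : MM Γ a) ≤ ln (k0 : MM Γ a) + (C : a.K) := by
      rw [e]
      exact Germ.coe_le.2 (hp.mono fun j h =>
        show (Γ.len (p j) : ℝ) ≤ Γ.len (f k0 j) + C by exact_mod_cast h.1)
    have h0 := mul_nonneg (C.cast_nonneg (α := a.K)) (ln_nonneg (k0 : MM Γ a))
    push_cast
    linarith

end Pool.Agent.P.MP_dba3d2_lc
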