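import Pool.Agent.P.MP_dba3d2_lc.A.Iface
import Pool.Agent.P.MP_dba3d2_lc.A.Iface2

/-! Step GMAC of the stability project. -/

namespace Pool.Agent.P.MP_dba3d2_lc

open Filter

namespace GmacA

theorem sim_of_ll {K : Type} [Field K] [LinearOrder K] [IsStrictOrderedRing K] {x y μ : K}
    (h : Ll |x - y| μ) (hs : Sim y μ) (h0 : 0 ≤ y) : Sim x μ := by
  refine ⟨Ls.mono_left (y := y + |x - y|) (by linarith [le_abs_self (x - y)]) (hs.1.add h.ls),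
    hs.2.trans' ⟨2, ?_⟩⟩
  have a := h.ls_right hs.2 h0 2
  have b := neg_abs_le (x - y)
  push_cast at a ⊢
  linarith

theorem ll_pow {a : Amb} (x : (a.pow U0).I → ℝ) (m : a.I → ℝ)
    (h : ∀ N : ℕ, ∀ᶠ n in atTop, ∀ᶠ j in (a.V : Filter a.I), N * x (n, j) ≤ m j) :
    Ll (Germ.ofFun x : (a.pow U0).K) ((a.dg U0).mp (Germ.ofFun m : a.K)) := fun N => by
  refine Germ.coe_le.2 ?_
  change ∀ᶠ n in (U0 : Filter ℕ), ∀ᶠ j in (a.V : Filter a.I), (N : ℝ) * x (n, j) ≤ m j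
  exact (h N).filter_mono (Nat.cofinite_eq_atTop ▸ hyperfilter_le_cofinite)

theorem num {C n l L : ℕ} {f : ℝ} (hn : 0 < n) (h1 : (l : ℝ) ≤ f) (h2 : f < l + 1)
    (lo : n * (l / n) ≤ L + C * n) (hi : L ≤ n * (l / n) + C * n * (n + 1)) :
    |(L : ℝ) - f| ≤ ((n + 1 + C * n * (n + 1) : ℕ) : ℝ) := by
  have a1 : n * (l / n) ≤ l := Nat.mul_div_le l n
  have a2 : l < n * (l / n) + n := by
    have := Nat.div_add_mod l n
    have := Nat.mod_lt l hn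
    omega
  have a3 : C * n ≤ C * n * (n + 1) := Nat.le_mul_of_pos_right _ (Nat.succ_pos n)
  generalize n * (l / n) = t at *
  generalize C * n * (n + 1) = s at *
  generalize C * n = s' at *
  have b1 : L ≤ l + s := by omega
  have b2 : l ≤ L + s + n := by omega
  have c1 : (L : ℝ) ≤ l + s := by exact_mod_cast b1
  have c2 : (l : ℝ) ≤ L + s + n := by exact_mod_cast b2
  have c3 : (0 : ℝ) ≤ n := Nat.cast_nonneg n
  push_cast
  rw [abs_le]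
  constructor <;> linarith

end GmacA

open GmacA in
theorem p_GMAC (hA_BW2 : S_A_BW2) (hA_BWM : S_A_BWM) (hA_GB : S_A_GB) :
    S_GMAC := by
  intro Γ a μ r K l hμ hK hl
  obtain ⟨C, w, hw⟩ := hA_BW2 Γ r K hK
  obtain ⟨f, rfl⟩ := Bas2A.rep l
  induction μ using Germ.inductionOn with | h m =>
  have hm : ∀ n : ℕ, ∀ᶠ j in (a.V : Filter a.I), (n : ℝ) ≤ m j := fun n => Germ.coe_le.1 (hμ n)
  have hb : ∀ i, Big (Germ.ofFun (f i) : a.K) := fun i => hμ.of_ls (hl i).2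
  have h0 : ∀ i, ∀ᶠ j in (a.V : Filter a.I), (0 : ℝ) ≤ f i j := fun i =>
    Germ.coe_le.1 (hb i).pos.le
  have e1 : ∀ i, nK (fun j => ⌊f i j⌋₊) ≤ (Germ.ofFun (f i) : a.K) := fun i =>
    Germ.coe_le.2 ((h0 i).mono fun j hj => Nat.floor_le hj)
  have e2 : ∀ i, (Germ.ofFun (f i) : a.K) ≤ nK (fun j => ⌊f i j⌋₊) + 1 := fun i =>
    Bas1.gle fun j => (Nat.lt_floor_add_one (f i j)).le
  have hs : ∀ i, Sim (nK fun j => ⌊f i j⌋₊) (Germ.ofFun m : a.K) := fun i => by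
    refine ⟨Ls.mono_left (e1 i) (hl i).1, (hl i).2.trans' ⟨2, ?_⟩⟩
    have a1 := hb i 2
    have a2 := e2 i
    push_cast at a1 ⊢
    linarith
  have hμ' : Big ((a.dg U0).mp (Germ.ofFun m : a.K)) := (a.dg U0).big_iff.2 hμ
  have key : ∀ i, Ll |ln (gw (a := a.pow U0) (w i) (fun j => ⌊f i j.2⌋₊ / j.1) fun j => j.1) -
      (a.dg U0).mp (Germ.ofFun (f i) : a.K)| ((a.dg U0).mp (Germ.ofFun m : a.K)) := fun i => by
    rw [Germ.abs_def]
    refine ll_pow (fun p => |(Γ.len (w i (⌊f i p.2⌋₊ / p.1) p.1) : ℝ) - f i p.2|) m fun N => ?_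
    filter_upwards [eventually_gt_atTop 0] with n hn
    filter_upwards [h0 i, hm (N * (n + 1 + C * n * (n + 1)))] with j a1 a2
    rw [Nat.cast_mul] at a2
    exact (mul_le_mul_of_nonneg_left (num hn (Nat.floor_le a1) (Nat.lt_floor_add_one _)
      (hw.lo i _ n) (hw.hi i _ n)) (Nat.cast_nonneg N)).trans a2
  have L := hA_BWM Γ r K C w hw (fun i => (hK i).1) (a.pow U0) _
    (fun i j => ⌊f i j.2⌋₊ / j.1) (fun j => j.1) hμ' (fun i => ?_) ?_ fun i =>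
      sim_of_ll (key i) ((a.dg U0).sim_iff.2 (hl i)) ((a.dg U0).big_iff.2 (hb i)).pos.le
  · refine ⟨_, ⟨L.fin, L.sim, L.comm, L.nper, L.self, ?_⟩, key⟩
    rintro i _ ⟨x, rfl⟩ hx g p q
    rw [Ext.ln_hom] at hx
    exact hA_GB Γ r K C w hw (fun i => (hK i).1) a _ (fun j => ⌊f i j⌋₊) i hμ (hs i) x
      ((a.dg U0).ls_iff.1 hx) g p q
  · obtain ⟨N2, h2⟩ := (hs i).1
    have h2' : ∀ᶠ j in (a.V : Filter a.I), ((⌊f i j⌋₊ : ℕ) : ℝ) ≤ N2 * m j := Germ.coe_le.1 h2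
    refine ll_pow (fun p => ((⌊f i p.2⌋₊ / p.1 : ℕ) : ℝ)) m fun N => ?_
    filter_upwards [eventually_gt_atTop (N * N2)] with n hn
    filter_upwards [h2', hm 0] with j a1 a2
    have b1 : (n : ℝ) * ((⌊f i j⌋₊ / n : ℕ) : ℝ) ≤ (⌊f i j⌋₊ : ℕ) := by
      exact_mod_cast Nat.mul_div_le _ n
    have b2 : (N : ℝ) * N2 < n := by exact_mod_cast hn
    have b3 : (0 : ℝ) ≤ N := Nat.cast_nonneg N
    have b4 : (0 : ℝ) < n := lt_of_le_of_lt (mul_nonneg b3 (Nat.cast_nonneg N2)) b2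
    rw [Nat.cast_zero] at a2
    refine le_of_mul_le_mul_left ?_ b4
    change (n : ℝ) * (N * ((⌊f i j⌋₊ / n : ℕ) : ℝ)) ≤ _
    nlinarith [mul_le_mul_of_nonneg_left (b1.trans a1) b3, mul_le_mul_of_nonneg_right b2.le a2]
  · refine ll_pow (fun p => ((p.1 : ℕ) : ℝ)) m fun N => Eventually.of_forall fun n => ?_
    filter_upwards [hm (N * n)] with j a1
    rwa [Nat.cast_mul] at a1

end Pool.Agent.P.MP_dba3d2_lc
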