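import Pool.Agent.P.MP_dba3d2_lc.A.Iface
import Pool.Agent.P.MP_dba3d2_lc.A.Iface2

/-! Step HG of the stability project. -/

namespace Pool.Agent.P.MP_dba3d2_lc

open Filter

namespace Hg

open scoped Nat

theorem card_bound (h : S_A_KOU) (R : HG0) :
    ∃ N : ℕ, ∀ K : Subgroup R.G, Finite K → Nat.card K ≤ N := by
  obtain ⟨C, hC⟩ := h R
  have := (R.fin C).to_subtype
  refine ⟨Nat.card {g | R.len g ≤ C}, fun K hK => ?_⟩
  have fo : ∀ k ∈ K, IsOfFinOrder k := fun k hk =>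
    K.subtype.isOfFinOrder (isOfFinOrder_of_finite (⟨k, hk⟩ : K))
  obtain ⟨l, hl⟩ := ((Set.toFinite (K : Set R.G)).image R.len).bddAbove
  obtain ⟨p, -, hp⟩ := hC K l (fun s hs => hl ⟨s, hs, rfl⟩) fo fun s hs t ht =>
    ⟨fo _ (mul_mem hs ht), fo _ (mul_mem (inv_mem hs) ht)⟩
  refine Nat.card_le_card_of_injective
    (fun k : K => (⟨p⁻¹ * k * p, hp k k.2⟩ : {g | R.len g ≤ C})) fun a b e => ?_
  exact Subtype.ext (mul_left_cancel (mul_right_cancel (congrArg Subtype.val e)))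

theorem key {Z A : Type} [Group Z] [Group A] (ψ : Z →* A) [Finite ψ.ker] {N : ℕ}
    (hN : Nat.card ψ.ker ≤ N) {f f' : Z} (h : ψ f = ψ f') : f ^ (N ! * N !) = f' ^ (N ! * N !) := by
  let σ : Z →* Equiv.Perm ψ.ker := (MulAut.toPerm ψ.ker).comp MulAut.conjNormal
  have h1 : σ (f ^ N !) = 1 := by
    obtain ⟨c, hc⟩ := Nat.factorial_dvd_factorial hN
    rw [map_pow, hc, pow_mul, ← Nat.card_perm, pow_card_eq_one', one_pow]
  have ht : (f ^ N !)⁻¹ * f' ^ N ! ∈ ψ.ker := by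
    rw [MonoidHom.mem_ker, map_mul, map_inv, map_pow, map_pow, h, inv_mul_cancel]
  have h2 : f ^ N ! * ((f ^ N !)⁻¹ * f' ^ N !) * (f ^ N !)⁻¹ = (f ^ N !)⁻¹ * f' ^ N ! :=
    congrArg Subtype.val (Equiv.congr_fun h1 ⟨_, ht⟩)
  have h3 : Commute (f ^ N !) ((f ^ N !)⁻¹ * f' ^ N !) := mul_inv_eq_iff_eq_mul.1 h2
  have h4 : ((f ^ N !)⁻¹ * f' ^ N !) ^ N ! = 1 := by
    obtain ⟨c, hc⟩ := Nat.dvd_factorial Nat.card_pos hN
    have : ∀ t : ψ.ker, t ^ N ! = 1 := fun t => by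
      rw [hc, pow_mul, pow_card_eq_one', one_pow]
    exact congrArg Subtype.val (this ⟨_, ht⟩)
  have h5 := h3.mul_pow (N !)
  rw [h4, mul_one, mul_inv_cancel_left] at h5
  rw [pow_mul, pow_mul, h5]

theorem key2 (hP : S_A_PSI) (R : HG0) {N : ℕ}
    (hN : ∀ K : Subgroup R.G, Finite K → Nat.card K ≤ N) {z : R.G} (hz : ¬ IsOfFinOrder z) :
    ∃ ψ : Subgroup.centralizer {z} →* Multiplicative ℤ, ∀ f f', ψ f = ψ f' →
      (f : R.G) ^ (N ! * N !) = (f' : R.G) ^ (N ! * N !) := by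
  obtain ⟨hf, ψ, hψ⟩ := hP R z hz
  have h1 : Finite (ψ.ker.map (Subgroup.centralizer {z}).subtype) := by
    refine Set.Finite.to_subtype (hf.subset ?_)
    rintro _ ⟨f, hf, rfl⟩
    exact ⟨Subgroup.mem_centralizer_singleton_iff.1 f.2, (hψ f).1 hf⟩
  have e := (ψ.ker.equivMapOfInjective _ (Subgroup.centralizer {z}).subtype_injective).toEquiv
  have := Finite.of_equiv _ e.symm
  refine ⟨ψ, fun f f' h => ?_⟩
  exact congrArg Subtype.val (key ψ ((Nat.card_congr e).trans_le (hN _ h1)) h)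

theorem abs_le (h : S_A_AX1) (R : HG0) {c g : R.G} (hc : ¬ IsOfFinOrder c) {m n : ℤ}
    (e : g * c ^ m * g⁻¹ = c ^ n) : |n| ≤ |m| := by
  obtain ⟨C, hC⟩ := h R
  obtain ⟨τ, h0, h1, -, h2⟩ := hC c hc
  have τ0 : 0 < τ := by
    by_contra h
    nlinarith [mul_nonneg (Nat.cast_nonneg (α := ℝ) C) (neg_nonneg.2 (not_lt.1 h))]
  by_contra hn
  have h3 : (|m| : ℝ) + 1 ≤ |(n : ℝ)| := by exact_mod_cast not_le.1 hn
  obtain ⟨k, hk⟩ := exists_nat_gt ((C : ℝ) * R.sp.d g⁻¹ (c • g⁻¹) / τ)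
  rw [div_lt_iff₀ τ0] at hk
  have a1 := h1 1 (n * k)
  have a2 := h2 g⁻¹ (m * k)
  rw [R.d_one_smul, zpow_mul, ← e, conj_zpow, ← zpow_mul] at a1
  rw [R.d_conj, inv_inv] at a2
  push_cast at a1 a2
  rw [abs_mul, Nat.abs_cast] at a1 a2
  nlinarith [mul_le_mul_of_nonneg_right h3 (mul_nonneg (Nat.cast_nonneg (α := ℝ) k) τ0.le)]

end Hg

open Hg Nat in
theorem p_HG (hA_KOU : S_A_KOU) (hA_AX1 : S_A_AX1) (hA_PSI : S_A_PSI) :
    S_HG := by
  intro R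
  obtain ⟨N, hN⟩ := card_bound hA_KOU R
  have root : ∀ (c d : R.G) (m : ℤ), m ≠ 0 → ¬ IsOfFinOrder d → c ^ m = d ^ m →
      c ^ (N ! * N !) = d ^ (N ! * N !) := by
    intro c d m hm hd e
    obtain ⟨ψ, hψ⟩ := key2 hA_PSI R hN (Geo0.zpow_inf hd hm)
    have h1 : c ∈ Subgroup.centralizer {d ^ m} :=
      Subgroup.mem_centralizer_singleton_iff.2 (e ▸ Commute.self_zpow c m)
    have h2 : d ∈ Subgroup.centralizer {d ^ m} :=
      Subgroup.mem_centralizer_singleton_iff.2 (Commute.self_zpow d m)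
    refine hψ ⟨c, h1⟩ ⟨d, h2⟩ (zpow_left_injective hm ?_)
    simp only [← map_zpow]
    exact congrArg ψ (Subtype.ext e)
  refine ⟨N ! * N !, by positivity, fun g hg => ?_, fun K hK => ?_, fun c g hc m n hm e => ?_,
    fun c f g hc hf hg => ?_⟩
  · have h1 := hN (Subgroup.zpowers g) (finite_zpowers.2 hg)
    rw [Nat.card_zpowers] at h1
    exact orderOf_dvd_iff_pow_eq_one.1
      ((Nat.dvd_factorial hg.orderOf_pos h1).trans (dvd_mul_right _ _))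
  · exact (hN K hK).trans ((Nat.self_le_factorial N).trans
      (Nat.le_mul_of_pos_right _ (Nat.factorial_pos N)))
  · have h1 := abs_le hA_AX1 R hc e
    have h2 := abs_le hA_AX1 R hc (g := g⁻¹) (m := n) (n := m) (by rw [← e]; group)
    rw [← conj_zpow] at e
    rw [← conj_pow, ← inv_pow]
    rcases abs_eq_abs.1 (le_antisymm h1 h2) with rfl | rfl
    · exact Or.inl (root _ _ _ hm hc e)
    · exact Or.inr (root _ _ _ hm (by rwa [isOfFinOrder_inv_iff]) (by rw [e, zpow_neg, inv_zpow]))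
  · obtain ⟨ψ, hψ⟩ := key2 hA_PSI R hN
      (Geo0.pow_inf hc (show N ! * N ! ≠ 0 by positivity))
    have h1 := Subgroup.mem_centralizer_singleton_iff.2 hf
    have h2 := Subgroup.mem_centralizer_singleton_iff.2 hg
    have h3 := hψ (⟨g, h2⟩ * ⟨f, h1⟩ * ⟨g, h2⟩⁻¹) ⟨f, h1⟩ (by
      rw [map_mul, map_mul, map_inv, mul_inv_cancel_comm])
    have h4 : g * f ^ (N ! * N !) * g⁻¹ = f ^ (N ! * N !) := conj_pow.symm.trans h3
    exact (mul_inv_eq_iff_eq_mul.1 h4).symm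

end Pool.Agent.P.MP_dba3d2_lc
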