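import Pool.Agent.P.MP_dba3d2_lc.A.Iface
import Pool.Agent.P.MP_dba3d2_lc.A.Iface2

/-! Step LINE of the stability project. -/

namespace Pool.Agent.P.MP_dba3d2_lc

open Filter

theorem p_LINE (hA_LINEU : S_A_LINEU) (hA_DOM : S_A_DOM) :
    S_LINE := by
  intro Γ a c p hc hp
  obtain ⟨C, hC⟩ := hA_LINEU Γ
  obtain ⟨C', hC'⟩ := hA_DOM Γ
  obtain ⟨L, -, h2, h3, h4, h5⟩ := hC a c hc
  have e : ∀ q x : MM Γ a, ds q (x * q) = ln (q⁻¹ * x * q) := fun q x => by rw [ds, mul_assoc]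
  have k : ∀ k : a.Z, |zK k| * L ≤ md (ipow c k) := fun k => by
    obtain ⟨q, hq⟩ := exists_md (ipow c k)
    rw [← hq, ← e]
    exact h3 q k
  refine ⟨⟨L, ⟨Ls.of_le ?_, ⟨C, h2⟩⟩, fun j => ⟨h3 p j, ?_, k j⟩⟩, fun q => ?_, fun f hf hf' => ?_⟩
  · have := k ((1 : ℤ) : a.Z)
    rwa [ipow_intCast, zK_intCast, zpow_one, Int.cast_one, abs_one, one_mul] at this
  · exact Ls.mono_left (sub_le_iff_le_add'.2 (h4 p j)) (hp.nat_mul C)
  · obtain ⟨j, hj⟩ := h5 p q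
    exact ⟨j, Ls.mono_left hj (((hp.mono_right (by rw [e]; exact md_le c q)).add
      (Ls.refl' _)).nat_mul C)⟩
  · exact Ls.mono_left (hC' a c f p hc hf (Or.inl hf')) (hp.nat_mul C')

end Pool.Agent.P.MP_dba3d2_lc
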