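import Pool.Agent.P.MP_dba3d2_lc.A.Iface
import Pool.Agent.P.MP_dba3d2_lc.A.Iface2

/-! Step PERC of the stability project. -/

namespace Pool.Agent.P.MP_dba3d2_lc

open Filter

theorem p_PERC (hELEM : S_ELEM) (hA_DOM : S_A_DOM) (hA_CE : S_A_CE) :
    S_PERC := by
  rintro Γ a μ p q hμ hpq ⟨g₀, h0, s0⟩
  obtain ⟨c, hc, e⟩ := (hELEM Γ a g₀ h0).1
  obtain ⟨C, hC⟩ := hA_DOM Γ
  obtain ⟨D, hD⟩ := hA_CE Γ
  have hm : c ∈ Ep g₀ := e ▸ Subgroup.mem_centralizer_singleton_iff.2 (Commute.self_pow c Γ.e).eq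
  refine ⟨c, hc, ⟨Ll.mono_left (hC a g₀ c p h0 hm (Or.inr hc)) (s0.1.nat_mul C),
    Ll.mono_left (hC a g₀ c q h0 hm (Or.inr hc)) (s0.2.nat_mul C)⟩, fun g s => ?_⟩
  have n1 := ds_nonneg p (g * p)
  have n2 := ds_nonneg q (g * q)
  have n3 := ds_nonneg p (g₀ * p)
  have n4 := ds_nonneg q (g₀ * q)
  have k := (((((s.1.add s.2).add s0.1).add s0.2).add (big_iff_ll.1 hμ)).nat_mul D).ls_right hpq
    (ds_nonneg p q) 1
  rw [Nat.cast_one, one_mul] at k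
  rw [e]
  exact (hD a _ g p q (by linarith) (by linarith)).1 g₀ h0 (by linarith) (by linarith) k

end Pool.Agent.P.MP_dba3d2_lc
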