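import Pool.Agent.P.MP_dba3d2_lc.A.Iface
import Pool.Agent.P.MP_dba3d2_lc.A.Iface2

/-! Step RTA of the stability project. -/

namespace Pool.Agent.P.MP_dba3d2_lc

open Filter

namespace Rta

section tree
variable (R : RT)

theorem d_comm (x y : R.W) : R.d x y = R.d y x := by
  rw [LG.d, ← R.l_inv, mul_inv_rev, inv_inv, LG.d]

theorem d_tri (x y z : R.W) : R.d x z ≤ R.d x y + R.d y z := by
  have := R.l_mul (x⁻¹ * y) (y⁻¹ * z)
  rwa [mul_assoc, mul_inv_cancel_left] at this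

theorem d_mul (g x y : R.W) : R.d (g * x) (g * y) = R.d x y := by
  rw [LG.d, mul_inv_rev, mul_assoc, inv_mul_cancel_left, LG.d]

theorem d_nonneg (x y : R.W) : 0 ≤ R.d x y := by
  have h := d_tri R x y x
  rw [d_comm R y x, LG.d, inv_mul_cancel, R.l_one] at h
  linarith

theorem four (x y z w : R.W) :
    R.d x y + R.d w z ≤ R.d x z + R.d w y ∨ R.d x y + R.d w z ≤ R.d y z + R.d w x :=
  le_max_iff.1 (by
    have h := R.hyp (w⁻¹ * x) (w⁻¹ * y) (w⁻¹ * z)
    have e : ∀ u v : R.W, (w⁻¹ * u)⁻¹ * (w⁻¹ * v) = u⁻¹ * v := fun u v => by group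
    rwa [e, e, e] at h)

theorem fix0 {p r m g : R.W} (h : R.d p r + R.d m r ≤ R.d m p) (hm : R.d m (g * m) = 0)
    (hp : R.d p (g * p) ≤ R.d p r) : R.d r (g * r) = 0 := by
  have k : ∀ x, R.d m (g * x) = R.d m x := fun x => by
    have a := d_tri R m (g * m) (g * x)
    have b := d_tri R (g * m) m (g * x)
    rw [d_mul] at a b
    rw [d_comm R (g * m) m] at b
    linarith
  have a := four R r (g * p) p m
  have b := four R r (g * r) (g * p) m
  rw [k, d_comm R r p, d_comm R (g * p) p] at a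
  rw [k, k, d_mul, d_comm R r p] at b
  have c := d_nonneg R p r
  have c' := d_nonneg R r (g * r)
  rcases a with a | a <;> rcases b with b | b <;> linarith

theorem fix {p q r m g : R.W} (hr : R.On r p q) (hm : R.d m (g * m) = 0)
    (hp : R.d p (g * p) ≤ R.d p r) (hq : R.d q (g * q) ≤ R.d q r) : R.d r (g * r) = 0 := by
  unfold LG.On at hr
  have a := four R r m p q
  rw [d_comm R q p, d_comm R r m, d_comm R r p, d_comm R q m] at a
  rw [d_comm R r q] at hr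
  rcases a with a | a
  · exact fix0 R (by linarith) hm hq
  · exact fix0 R (by linarith) hm hp

end tree

theorem transport {R R' : RT} {e : ℕ} (φ : R.W ≃* R'.W) (h : ∀ g, R.ℓ g = R'.ℓ (φ g))
    (H : R'.Ax e) : R.Ax e := by
  have hd : ∀ x y, R.d x y = R'.d (φ x) (φ y) := fun x y => by
    rw [LG.d, h, map_mul, map_inv, LG.d]
  have hs : ∀ p q g, R.Stab p q g ↔ R'.Stab (φ p) (φ q) (φ g) := fun p q g => by
    rw [LG.Stab, hd, hd, map_mul, map_mul, LG.Stab]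
  have hp : ∀ p q, R.Per p q ↔ R'.Per (φ p) (φ q) := fun p q =>
    φ.toEquiv.exists_congr fun g => and_congr
      (not_congr (φ.injective.isOfFinOrder_iff (f := (φ : R.W →* R'.W))).symm) (hs p q g)
  refine ⟨fun p q a b => ?_, fun p q a b => ?_, fun p q a b => ?_⟩
  · have e1 : {g | R.Stab p q g} = φ ⁻¹' {g | R'.Stab (φ p) (φ q) g} := Set.ext (hs p q)
    obtain ⟨c, c'⟩ := H.fin _ _ (hd p q ▸ a) (mt (hp p q).2 b)
    rw [e1]
    exact ⟨c.preimage φ.injective.injOn,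
      (Set.ncard_le_ncard_of_injOn φ (fun _ x => x) φ.injective.injOn c).trans c'⟩
  · obtain ⟨ε, h0, c⟩ := H.small _ _ (hd p q ▸ a) (mt (hp p q).2 b)
    refine ⟨ε, h0, fun g r => ?_⟩
    simp only [LG.On, hd, map_mul]
    exact c _ _
  · obtain ⟨L, hL, s, t, c, c'⟩ := H.line _ _ (hd p q ▸ a) ((hp p q).1 b)
    refine ⟨fun x => φ.symm (L x), ⟨fun s t => ?_, fun s t k => ?_, fun g s t s' t' k => ?_⟩, s, t,
      ?_, ?_⟩
    · rw [hd, φ.apply_symm_apply, φ.apply_symm_apply, hL.iso]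
    · rw [hp, φ.apply_symm_apply, φ.apply_symm_apply]
      exact hL.per s t k
    · simp only [hd, map_mul, MulEquiv.apply_symm_apply]
      exact hL.rig _ s t s' t' k
    · rwa [hd, φ.apply_symm_apply]
    · rwa [hd, φ.apply_symm_apply]

variable {Γ : HG} {a : Amb} {μ : a.K}

theorem ls_real (hμ : 0 ≤ μ) (r : ℝ) : Ls ((r : a.K) * μ) μ := by
  obtain ⟨n, hn⟩ := exists_nat_ge r
  exact ⟨n, mul_le_mul_of_nonneg_right (Germ.const_le hn) hμ⟩

theorem rl_eq (hμ : 0 < μ) {x y : a.K} (hx : Ls |x| μ) (hy : Ls |y| μ) (h : Ll |x - y| μ) :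
    rl μ x = rl μ y :=
  le_antisymm (rl_le_add hμ hx hy (abs_nonneg _) h (by linarith [le_abs_self (x - y)]))
    (rl_le_add hμ hy hx (abs_nonneg _) h (by linarith [neg_abs_le (x - y)]))

theorem mem_of (hμ : Big μ) (p : ball Γ μ) {m : MM Γ a} (h : Ls (ds (p : MM Γ a) m) μ) :
    m ∈ ball Γ μ := by
  have := mul_mem p.2 ((mem_ball hμ.pos.le).2 h)
  rwa [mul_inv_cancel_left] at this

end Rta

open Rta

theorem p_RTA (hTORS : S_TORS) (hA_SMALL : S_A_SMALL) (hA_LIN2 : S_A_LIN2) :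
    S_RTA := by
  intro Γ a μ R φ hμ hl
  have h0 := hμ.pos
  refine transport (R' := rtAt Γ μ hμ) φ hl ⟨fun (p q : ball Γ μ) h1 h2 => ?_,
    fun (p q : ball Γ μ) h1 h2 => ?_, fun (p q : ball Γ μ) h1 h2 => ?_⟩
  · replace h2 := mt (rt_per hμ p q).2 h2
    obtain ⟨c, c'⟩ := hTORS Γ a (StabG μ (p : MM Γ a) q) fun k hk => by
      by_contra hc
      exact h2 ⟨k, hc, (mem_stabG h0.le).1 hk⟩
    have k : ∀ g ∈ {g : ball Γ μ | (rtAt Γ μ hμ).Stab p q g}, (g : MM Γ a) ∈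
        (StabG μ (p : MM Γ a) q : Set (MM Γ a)) := fun g hg =>
      (mem_stabG h0.le).2 ((rt_stab hμ p q g).1 hg)
    have f : (StabG μ (p : MM Γ a) q : Set (MM Γ a)).Finite := c
    exact ⟨Set.Finite.of_injOn k Subtype.val_injective.injOn f,
      (Set.ncard_le_ncard_of_injOn _ k Subtype.val_injective.injOn f).trans c'⟩
  · replace h2 := mt (rt_per hμ p q).2 h2
    obtain ⟨n, hn, m, hm, c⟩ := hA_SMALL Γ a μ _ _ hμ ((rt_d_pos hμ p q).1 h1) h2
    have n0 : (0 : ℝ) < n := Nat.cast_pos.2 hn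
    have hb : m ∈ ball Γ μ := mem_of hμ p (Ls.mono_left
      ((le_add_of_nonneg_right (ds_nonneg _ _)).trans (hm.le.trans (le_abs_self _))) (ls_ds hμ p q))
    have k : ∀ x y : ball Γ μ, (rtAt Γ μ hμ).d x y ≤ 1 / (2 * n) →
        n * ds (x : MM Γ a) y ≤ μ := fun x y h => by
      have b := le_of_rl_lt h0 (ls_ds hμ x y) (r := 1 / n)
        (h.trans_lt (one_div_lt_one_div_of_lt n0 (by linarith)))
      have n1 : (0 : a.K) < n := Nat.cast_pos.2 hn
      rw [← cR_apply, map_div₀, map_one, map_natCast, one_div, ← div_eq_inv_mul,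
        le_div_iff₀ n1, mul_comm] at b
      exact b
    refine ⟨1 / (2 * n), by positivity, fun (g r : ball Γ μ) hr b1 b2 b3 b4 => ?_⟩
    have k1 := k p (g * p) b1
    have k2 := k q (g * q) b2
    rw [Subgroup.coe_mul] at k1 k2
    have c2 := (rt_d_zero hμ ⟨m, hb⟩ (g * ⟨m, hb⟩)).2 (by rw [Subgroup.coe_mul]; exact c g k1 k2)
    exact fix (rtAt Γ μ hμ) (p := p) (q := q) (r := r) (m := (⟨m, hb⟩ : ball Γ μ)) (g := g) hr c2
      b3 b4
  · replace h2 := (rt_per hμ p q).1 h2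
    obtain ⟨L, l0, ⟨t, lt⟩, l1, l2, l3⟩ := hA_LIN2 Γ a μ _ _ hμ
      (Ls.mono_left (le_abs_self _) (ls_ds hμ p q)) h2
    have hb : ∀ x, L x ∈ ball Γ μ := fun x => mem_of hμ p (by
      rw [← l0]
      refine Ls.mono_left ?_ ((l1 0 x).ls.add (ls_real h0.le |0 - x|))
      linarith [le_abs_self (ds (L 0) (L x) - ((|0 - x| : ℝ) : a.K) * μ)])
    obtain ⟨L', e⟩ : ∃ L' : ℝ → ball Γ μ, ∀ x, (L' x : MM Γ a) = L x :=
      ⟨fun x => ⟨L x, hb x⟩, fun _ => rfl⟩
    simp only [← e] at l0 lt l1 l2 l3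
    refine ⟨L', ⟨fun s t => ?_, fun s t _ => (rt_per hμ (L' s) (L' t)).2 (l2 s t),
      fun (g : ball Γ μ) s t s' t' k b1 b2 => ?_⟩, 0, t, (rt_d_zero hμ p (L' 0)).2 ?_,
      (rt_d_zero hμ q (L' t)).2 lt⟩
    · refine (rt_d hμ (L' s) (L' t)).trans ?_
      rw [rl_eq h0 (ls_ds hμ (L' s) (L' t)) (ls_abs (mul_nonneg
        (Germ.const_le (abs_nonneg (s - t))) h0.le) (ls_real h0.le _)) (l1 s t), rl_real h0]
    · have k1 := (rt_d_zero hμ (g * L' s) (L' s')).1 b1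
      have k2 := (rt_d_zero hμ (g * L' t) (L' t')).1 b2
      rw [Subgroup.coe_mul] at k1 k2
      obtain ⟨ε, b, e, c⟩ := l3 g s t s' t' k k1 k2
      exact ⟨ε, b, e, fun x => (rt_d_zero hμ (g * L' x) (L' (ε * x + b))).2
        (by rw [Subgroup.coe_mul]; exact c x)⟩
    · exact Ll.of_nonpos (by rw [l0, ds_self]) h0.le

end Pool.Agent.P.MP_dba3d2_lc
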