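import Pool.Agent.P.MP_dba3d2_lc.A.Iface
import Pool.Agent.P.MP_dba3d2_lc.A.Iface2

/-! Step TORS of the stability project. -/

namespace Pool.Agent.P.MP_dba3d2_lc

open Filter

namespace Tors

variable {Γ : HG} {a : Amb}

theorem inj {ι : Type} [Finite ι] (f : ι → a.I → Γ.G)
    (h : Function.Injective fun i => (Germ.ofFun (f i) : MM Γ a)) :
    ∀ᶠ j in (a.V : Filter a.I), Function.Injective fun i => f i j := by
  refine (eventually_all.2 fun i => eventually_all.2 fun i' => ?_)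
  by_cases e : i = i'
  · exact Eventually.of_forall fun _ _ => e
  · exact (Ultrafilter.eventually_not.2 (mt Germ.coe_eq.2 fun h' => e (h h'))).mono
      fun j hj h' => absurd h' hj

theorem fin (hA : S_A_KOU) (K : Subgroup (MM Γ a)) (hK : ∀ k ∈ K, IsOfFinOrder k) : Finite K := by
  obtain ⟨C, hC⟩ := hA Γ.toHG0
  by_contra h
  have : Infinite K := not_finite_iff_infinite.1 h
  let n := {g : Γ.G | Γ.len g ≤ C}.ncard + 1
  let v : Fin n ↪ K := Fin.valEmbedding.trans (Infinite.natEmbedding K)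
  obtain ⟨f, hf⟩ := Bas2A.rep fun i => (v i : MM Γ a)
  have hf' : ∀ i, (Germ.ofFun (f i) : MM Γ a) ∈ K := fun i => congrFun hf i ▸ (v i).2
  have h1 := inj f (hf ▸ Subtype.val_injective.comp v.injective)
  have h2 : ∀ᶠ j in (a.V : Filter a.I), ∀ i, IsOfFinOrder (f i j) :=
    eventually_all.2 fun i => (Bas2A.fin_coe _).1 (hK _ (hf' i))
  have h3 : ∀ᶠ j in (a.V : Filter a.I), ∀ i i', IsOfFinOrder (f i j * f i' j) :=
    eventually_all.2 fun i => eventually_all.2 fun i' =>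
      (Bas2A.fin_coe (f i * f i')).1 (hK _ (mul_mem (hf' i) (hf' i')))
  have h4 : ∀ᶠ j in (a.V : Filter a.I), ∀ i i', IsOfFinOrder ((f i j)⁻¹ * f i' j) :=
    eventually_all.2 fun i => eventually_all.2 fun i' =>
      (Bas2A.fin_coe ((f i)⁻¹ * f i')).1 (hK _ (mul_mem (inv_mem (hf' i)) (hf' i')))
  obtain ⟨j, ⟨⟨e1, e2⟩, e3⟩, e4⟩ := (((h1.and h2).and h3).and h4).exists
  obtain ⟨p, -, hp⟩ := hC (Set.range fun i => f i j) (∑ i, Γ.len (f i j))
    (by
      rintro _ ⟨i, rfl⟩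
      exact Finset.single_le_sum (f := fun i => Γ.len (f i j)) (fun _ _ => Nat.zero_le _)
        (Finset.mem_univ i))
    (by rintro _ ⟨i, rfl⟩; exact e2 i)
    (by rintro _ ⟨i, rfl⟩ _ ⟨i', rfl⟩; exact ⟨e3 i i', e4 i i'⟩)
  have h5 := Set.ncard_le_ncard_of_injOn (s := Set.univ) (t := {g : Γ.G | Γ.len g ≤ C})
    (fun i : Fin n => p⁻¹ * f i j * p) (fun i _ => hp _ ⟨i, rfl⟩)
    (fun i _ i' _ e => e1 (mul_left_cancel (mul_right_cancel e))) (Γ.fin C)
  rw [Set.ncard_univ, Nat.card_fin] at h5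
  omega

end Tors

theorem p_TORS (hA_KOU : S_A_KOU) :
    S_TORS := by
  intro Γ a K hK
  have hfin := Tors.fin hA_KOU K hK
  refine ⟨hfin, ?_⟩
  obtain ⟨f, hf⟩ := Bas2A.rep fun k : K => (k : MM Γ a)
  have h1 := Tors.inj f (hf ▸ Subtype.val_injective)
  have h2 : ∀ᶠ j in (a.V : Filter a.I), ∀ k k', f (k * k') j = f k j * f k' j :=
    eventually_all.2 fun k => eventually_all.2 fun k' => (Germ.coe_eq (g := f k * f k')).1 (by
      rw [Germ.coe_mul, ← congrFun hf, ← congrFun hf, ← congrFun hf]; rfl)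
  obtain ⟨j, e1, e2⟩ := (h1.and h2).exists
  let φ : K →* Γ.G := MonoidHom.mk' (fun k => f k j) e2
  have e := MonoidHom.ofInjective (f := φ) e1
  rw [Nat.card_congr e.toEquiv]
  exact Γ.good.card _ (Finite.of_equiv _ e.toEquiv)

end Pool.Agent.P.MP_dba3d2_lc
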