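import Pool.Agent.P.MP_dba3d2_lc.A.A_kou
import Pool.Agent.P.MP_dba3d2_lc.A.A_lox
import Pool.Agent.P.MP_dba3d2_lc.A.A_ch
import Pool.Agent.P.MP_dba3d2_lc.A.A_ax1
import Pool.Agent.P.MP_dba3d2_lc.A.A_ax2
import Pool.Agent.P.MP_dba3d2_lc.A.A_psi
import Pool.Agent.P.MP_dba3d2_lc.A.Hg
import Pool.Agent.P.MP_dba3d2_lc.A.Tors
import Pool.Agent.P.MP_dba3d2_lc.A.Finm
import Pool.Agent.P.MP_dba3d2_lc.A.A_el0
import Pool.Agent.P.MP_dba3d2_lc.A.Elem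
import Pool.Agent.P.MP_dba3d2_lc.A.A_lineu
import Pool.Agent.P.MP_dba3d2_lc.A.A_dom
import Pool.Agent.P.MP_dba3d2_lc.A.Line
import Pool.Agent.P.MP_dba3d2_lc.A.A_ce0
import Pool.Agent.P.MP_dba3d2_lc.A.A_ce
import Pool.Agent.P.MP_dba3d2_lc.A.Perc
import Pool.Agent.P.MP_dba3d2_lc.A.A_small
import Pool.Agent.P.MP_dba3d2_lc.A.A_lin2
import Pool.Agent.P.MP_dba3d2_lc.A.Rta
import Pool.Agent.P.MP_dba3d2_lc.A.A_fr2
import Pool.Agent.P.MP_dba3d2_lc.A.Frame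
import Pool.Agent.P.MP_dba3d2_lc.A.A_alph
import Pool.Agent.P.MP_dba3d2_lc.A.A_ind
import Pool.Agent.P.MP_dba3d2_lc.A.A_pre
import Pool.Agent.P.MP_dba3d2_lc.A.A_ovl
import Pool.Agent.P.MP_dba3d2_lc.A.A_win
import Pool.Agent.P.MP_dba3d2_lc.A.A_match
import Pool.Agent.P.MP_dba3d2_lc.A.A_bw
import Pool.Agent.P.MP_dba3d2_lc.A.A_bw2
import Pool.Agent.P.MP_dba3d2_lc.A.A_ovm
import Pool.Agent.P.MP_dba3d2_lc.A.A_bwm
import Pool.Agent.P.MP_dba3d2_lc.A.Gmic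
import Pool.Agent.P.MP_dba3d2_lc.A.A_gb
import Pool.Agent.P.MP_dba3d2_lc.A.Gmac

namespace Pool.Agent.P.MP_dba3d2_lc

theorem allA_A_KOU : S_A_KOU := p_A_KOU
theorem allA_A_LOX : S_A_LOX := p_A_LOX
theorem allA_A_CH : S_A_CH := p_A_CH allA_A_LOX
theorem allA_A_AX1 : S_A_AX1 := p_A_AX1 allA_A_LOX allA_A_CH
theorem allA_A_AX2 : S_A_AX2 := p_A_AX2 allA_A_LOX allA_A_CH
theorem allA_A_PSI : S_A_PSI := p_A_PSI allA_A_AX2
theorem allA_HG : S_HG := p_HG allA_A_KOU allA_A_AX1 allA_A_PSI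
theorem allA_TORS : S_TORS := p_TORS allA_A_KOU
theorem allA_FINM : S_FINM := p_FINM allA_A_KOU
theorem allA_A_EL0 : S_A_EL0 := p_A_EL0 allA_A_PSI
theorem allA_ELEM : S_ELEM := p_ELEM allA_A_EL0
theorem allA_A_LINEU : S_A_LINEU := p_A_LINEU allA_A_AX1 allA_A_AX2
theorem allA_A_DOM : S_A_DOM := p_A_DOM allA_A_AX1 allA_A_AX2
theorem allA_LINE : S_LINE := p_LINE allA_A_LINEU allA_A_DOM
theorem allA_A_CE0 : S_A_CE0 := p_A_CE0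
theorem allA_A_CE : S_A_CE := p_A_CE allA_A_CE0
theorem allA_PERC : S_PERC := p_PERC allA_ELEM allA_A_DOM allA_A_CE
theorem allA_A_SMALL : S_A_SMALL := p_A_SMALL allA_ELEM allA_A_DOM allA_A_CE
theorem allA_A_LIN2 : S_A_LIN2 := p_A_LIN2 allA_ELEM allA_A_LINEU allA_A_CE
theorem allA_RTA : S_RTA := p_RTA allA_TORS allA_A_SMALL allA_A_LIN2
theorem allA_A_FR2 : S_A_FR2 := p_A_FR2 allA_TORS allA_ELEM
theorem allA_FRAME : S_FRAME := p_FRAME allA_TORS allA_FINM allA_A_FR2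
theorem allA_A_ALPH : S_A_ALPH := p_A_ALPH allA_A_PSI
theorem allA_A_IND : S_A_IND := p_A_IND allA_A_CE0
theorem allA_A_PRE : S_A_PRE := p_A_PRE allA_A_ALPH allA_A_IND
theorem allA_A_OVL : S_A_OVL := p_A_OVL allA_A_CE0
theorem allA_A_WIN : S_A_WIN := p_A_WIN
theorem allA_A_MATCH : S_A_MATCH := p_A_MATCH allA_A_OVL allA_A_WIN
theorem allA_A_BW : S_A_BW := p_A_BW allA_A_PRE allA_A_MATCH allA_A_CE0
theorem allA_A_BW2 : S_A_BW2 := p_A_BW2 allA_A_BW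
theorem allA_A_OVM : S_A_OVM := p_A_OVM
theorem allA_A_BWM : S_A_BWM := p_A_BWM allA_A_OVM
theorem allA_GMIC : S_GMIC := p_GMIC allA_A_BW2 allA_A_BWM
theorem allA_A_GB : S_A_GB := p_A_GB allA_A_OVM
theorem allA_GMAC : S_GMAC := p_GMAC allA_A_BW2 allA_A_BWM allA_A_GB

end Pool.Agent.P.MP_dba3d2_lc
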