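import Pool.Agent.P.MP_dba3d2_lc.A.Tree

/-! Basic lemmas on extensions, ultrapowers, internal sets and saturation. -/

namespace Pool.Agent.P.MP_dba3d2_lc

open Filter

variable {Γ : HG} {a b : Amb}

namespace Bas2A

theorem ev (E : Ext a b) (p : a.I → Prop) :
    (∀ᶠ j in (b.V : Filter b.I), p (E.π j)) ↔ ∀ᶠ i in (a.V : Filter a.I), p i := by
  rw [← a.V.unique E.hπ, eventually_map]

theorem out_coe {I X : Type} {l : Filter I} (f : I → X) :
    (Quotient.out (Germ.ofFun f : Germ l X) : I → X) =ᶠ[l] f := Germ.coe_eq.1 (Quotient.out_eq _)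

theorem rep {I X ι : Type} {l : Filter I} (v : ι → Germ l X) :
    ∃ f : ι → I → X, v = fun i => Germ.ofFun (f i) :=
  ⟨fun i => Quotient.out (v i), funext fun i => (Quotient.out_eq (v i)).symm⟩

theorem mk_coe {J X : Type} (U : Ultrafilter J) (f : J → a.I → X) :
    a.mk' U (fun j => Germ.ofFun (f j)) = Germ.ofFun fun p : (a.pow U).I => f p.1 p.2 :=
  Germ.coe_eq.2 (Eventually.of_forall (f := (U : Filter J)) fun j => out_coe (f j))

/-- the constants -/
def cr (a : Amb) : ℝ →+*o a.K where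
  toFun r := (r : a.K)
  map_one' := rfl
  map_mul' _ _ := rfl
  map_zero' := rfl
  map_add' _ _ := rfl
  monotone' _ _ h := Germ.const_le h

theorem fin_coe (f : a.I → Γ.G) :
    IsOfFinOrder (Germ.ofFun f : MM Γ a) ↔ ∀ᶠ i in (a.V : Filter a.I), IsOfFinOrder (f i) := by
  refine ⟨fun h => ?_, fun h => isOfFinOrder_iff_pow_eq_one.2
    ⟨Γ.e, Γ.good.pos, Germ.coe_eq.2 (h.mono fun i => Γ.good.tors (f i))⟩⟩
  obtain ⟨n, h1, h2⟩ := isOfFinOrder_iff_pow_eq_one.1 h
  exact (Germ.coe_eq.1 h2).mono fun i hi => isOfFinOrder_iff_pow_eq_one.2 ⟨n, h1, hi⟩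

theorem ep_coe (c f : a.I → Γ.G) : (Germ.ofFun f : MM Γ a) ∈ Ep (Germ.ofFun c : MM Γ a) ↔
    ∀ᶠ i in (a.V : Filter a.I), f i * c i ^ Γ.e = c i ^ Γ.e * f i :=
  Subgroup.mem_centralizer_singleton_iff.trans Germ.coe_eq

/-- primitive elements of the standard group -/
def P0 (Γ : HG) (c : Γ.G) : Prop :=
  ¬ IsOfFinOrder c ∧ ∀ f, f * c ^ Γ.e = c ^ Γ.e * f → ∃ k : ℤ, IsOfFinOrder (f⁻¹ * c ^ k)

theorem prim_coe (c : a.I → Γ.G) :
    Prim (Germ.ofFun c : MM Γ a) ↔ ∀ᶠ i in (a.V : Filter a.I), P0 Γ (c i) := by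
  rw [Prim, fin_coe, ← Ultrafilter.eventually_not]
  refine (and_congr_right fun _ => ⟨fun h => ?_, fun h f hf => ?_⟩).trans eventually_and.symm
  · by_contra e
    rw [← Ultrafilter.eventually_not] at e
    simp only [not_forall, exists_prop, not_exists] at e
    obtain ⟨f, hf⟩ := e.choice
    obtain ⟨k, hk⟩ := h _ ((ep_coe c f).2 (hf.mono fun i hi => hi.1))
    induction k using Germ.inductionOn with | h k =>
    obtain ⟨i, h1, h2⟩ := (hf.and ((fin_coe fun i => (f i)⁻¹ * c i ^ k i).1 hk)).exists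
    exact h1.2 _ h2
  · induction f using Germ.inductionOn with | h f =>
    obtain ⟨k, hk⟩ := (h.mp (((ep_coe c f).1 hf).mono fun i h1 h2 => h2 _ h1)).choice
    exact ⟨Germ.ofFun k, (fin_coe fun i => (f i)⁻¹ * c i ^ k i).2 hk⟩

theorem st_coe' {ι : Type} [Finite ι] (Q : (ι → Γ.G) → Prop) (f : ι → a.I → Γ.G) :
    St Q (fun i => (Germ.ofFun (f i) : MM Γ a)) ↔
      ∀ᶠ j in (a.V : Filter a.I), Q fun i => f i j :=
  eventually_congr ((eventually_all.2 fun i => out_coe (f i)).mono fun _ h =>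
    iff_of_eq (congrArg Q (funext h)))

theorem map_lift {ι G H : Type} [Group G] [Group H] (φ : G →* H) (v : ι → G) (w : FreeGroup ι) :
    φ (FreeGroup.lift v w) = FreeGroup.lift (fun i => φ (v i)) w :=
  FreeGroup.lift_unique (φ.comp (FreeGroup.lift v)) fun i => by simp

theorem lift_coe {ι : Type} (f : ι → a.I → Γ.G) (w : FreeGroup ι) :
    FreeGroup.lift (fun i => (Germ.ofFun (f i) : MM Γ a)) w =
      Germ.ofFun fun j => FreeGroup.lift (fun i => f i j) w :=
  (map_lift (Germ.coeMulHom (a.V : Filter a.I)) f w).symm.trans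
    (congrArg Germ.ofFun (funext fun j => map_lift (Pi.evalMonoidHom (fun _ => Γ.G) j) f w))

theorem sum_coe {α : Type} (s : Finset α) (f : α → a.I → ℝ) :
    ∑ x ∈ s, (Germ.ofFun (f x) : a.K) = Germ.ofFun fun j => ∑ x ∈ s, f x j :=
  (map_sum (Germ.coeRingHom (a.V : Filter a.I)) f s).symm.trans
    (congrArg Germ.ofFun (funext fun j => Finset.sum_apply j s f))

theorem diag (P : ℕ → a.I → Prop) (h : ∀ n, ∀ᶠ j in (a.V : Filter a.I), P n j) :
    ∃ N : a.I → ℕ, ∀ n, ∀ᶠ j in (a.V : Filter a.I), n ≤ N j ∧ P (N j) j := by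
  classical
  refine ⟨fun j => Nat.findGreatest (P · j) (a.r j), fun n => ?_⟩
  filter_upwards [h n, a.hr.eventually_ge_atTop n] with j h1 h2
  exact ⟨Nat.le_findGreatest h2 h1, Nat.findGreatest_spec (P := (P · j)) h2 h1⟩

end Bas2A

open Bas2A

section ext
variable (E : Ext a b)
theorem Ext.mp_map {X Y : Type} (f : X → Y) (x : Germ (a.V : Filter a.I) X) :
    E.mp (x.map f) = (E.mp x).map f := by
  induction x using Germ.inductionOn; rfl
theorem Ext.mp_map₂ {X Y Z : Type} (f : X → Y → Z) (x : Germ (a.V : Filter a.I) X)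
    (y : Germ (a.V : Filter a.I) Y) : E.mp (Germ.map₂ f x y) = Germ.map₂ f (E.mp x) (E.mp y) := by
  induction x using Germ.inductionOn; induction y using Germ.inductionOn; rfl
theorem Ext.mp_liftRel {X Y : Type} (R : X → Y → Prop) (x : Germ (a.V : Filter a.I) X)
    (y : Germ (a.V : Filter a.I) Y) : Germ.LiftRel R (E.mp x) (E.mp y) ↔ Germ.LiftRel R x y := by
  induction x using Germ.inductionOn with | h f =>
  induction y using Germ.inductionOn with | h g =>
  exact ev E fun i => R (f i) (g i)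
theorem Ext.mp_injective {X : Type} : Function.Injective (E.mp (X := X)) := fun x y h => by
  induction x using Germ.inductionOn with | h f =>
  induction y using Germ.inductionOn with | h g =>
  exact Germ.coe_eq.2 ((ev E fun i => f i = g i).1 (Germ.coe_eq.1 h))
theorem Ext.mp_const {X : Type} (x : X) : E.mp (x : Germ (a.V : Filter a.I) X) = x := rfl
/-- the embedding of lengths -/
def Ext.kh : a.K →+* b.K where
  toFun := E.mp
  map_one' := rfl
  map_mul' := E.mp_map₂ (· * ·)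
  map_zero' := rfl
  map_add' := E.mp_map₂ (· + ·)
/-- the embedding of exponents -/
def Ext.zh : a.Z →+* b.Z where
  toFun := E.mp
  map_one' := rfl
  map_mul' := E.mp_map₂ (· * ·)
  map_zero' := rfl
  map_add' := E.mp_map₂ (· + ·)
theorem Ext.kh_le {x y : a.K} : E.kh x ≤ E.kh y ↔ x ≤ y := E.mp_liftRel (· ≤ ·) x y
theorem Ext.kh_lt {x y : a.K} : E.kh x < E.kh y ↔ x < y := by
  rw [← not_le, ← not_le, E.kh_le]
theorem Ext.kh_abs (x : a.K) : E.kh |x| = |E.kh x| := by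
  rw [Germ.abs_def, Germ.abs_def]
  exact E.mp_map _ x
theorem Ext.kh_real (r : ℝ) : E.kh (r : a.K) = (r : b.K) := rfl
theorem Ext.ls_iff {x y : a.K} : Ls (E.kh x) (E.kh y) ↔ Ls x y := exists_congr fun n => by
  rw [← map_natCast E.kh n, ← map_mul, E.kh_le]
theorem Ext.ll_iff {x y : a.K} : Ll (E.kh x) (E.kh y) ↔ Ll x y := forall_congr' fun n => by
  rw [← map_natCast E.kh n, ← map_mul, E.kh_le]
theorem Ext.big_iff {x : a.K} : Big (E.kh x) ↔ Big x := forall_congr' fun n => by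
  rw [← map_natCast E.kh n, E.kh_le]
theorem Ext.sim_iff {x y : a.K} : Sim (E.kh x) (E.kh y) ↔ Sim x y := and_congr E.ls_iff E.ls_iff
theorem Ext.rl_kh (μ x : a.K) : rl (E.kh μ) (E.kh x) = rl μ x := by
  rw [rl, rl, ← map_div₀, ArchimedeanClass.stdPart_eq_sInf (cr b),
    ArchimedeanClass.stdPart_eq_sInf (cr a)]
  exact congrArg sInf (Set.ext fun r => E.kh_lt (y := cr a r))
theorem Ext.hom_injective : Function.Injective (E.hom Γ) := E.mp_injective
theorem Ext.ln_hom (g : MM Γ a) : ln (E.hom Γ g) = E.kh (ln g) := (E.mp_map _ g).symm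
theorem Ext.ds_hom (g h : MM Γ a) : ds (E.hom Γ g) (E.hom Γ h) = E.kh (ds g h) := by
  rw [ds, ds, ← map_inv, ← map_mul, E.ln_hom]
theorem Ext.md_hom (g : MM Γ a) : md (E.hom Γ g) = E.kh (md g) := (E.mp_map _ g).symm
theorem Ext.hom_cst (x : Γ.G) : E.hom Γ (cst Γ a x) = cst Γ b x := rfl
theorem Ext.hom_ipow (c : MM Γ a) (k : a.Z) : E.hom Γ (ipow c k) = ipow (E.hom Γ c) (E.zh k) :=
  E.mp_map₂ _ c k
theorem Ext.zK_zh (k : a.Z) : zK (E.zh k) = E.kh (zK k) := (E.mp_map _ k).symm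
theorem Ext.finOrder_iff {g : MM Γ a} : IsOfFinOrder (E.hom Γ g) ↔ IsOfFinOrder g :=
  E.hom_injective.isOfFinOrder_iff
theorem Ext.prim_iff {c : MM Γ a} : Prim (E.hom Γ c) ↔ Prim c := by
  induction c using Germ.inductionOn with | h f =>
  exact (prim_coe (f ∘ E.π)).trans ((ev E fun i => P0 Γ (f i)).trans (prim_coe f).symm)
theorem Ext.st_iff {ι : Type} [Finite ι] (Q : (ι → Γ.G) → Prop) (v : ι → MM Γ a) :
    St Q (fun i => E.hom Γ (v i)) ↔ St Q v := by
  obtain ⟨f, rfl⟩ := rep v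
  exact (st_coe' Q fun i => f i ∘ E.π).trans
    ((ev E fun j => Q fun i => f i j).trans (st_coe' Q f).symm)
end ext

section pow
variable {J : Type} (U : Ultrafilter J)
theorem mk'_surjective {X : Type} (x : Germ ((a.pow U).V : Filter (a.pow U).I) X) :
    ∃ f, a.mk' U f = x := by
  induction x using Germ.inductionOn with | h f =>
  exact ⟨fun j => Germ.ofFun fun i => f (j, i), mk_coe U fun j i => f (j, i)⟩
theorem mk'_const {X : Type} (x : Germ (a.V : Filter a.I) X) :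
    a.mk' U (fun _ => x) = (a.dg U).mp x := by
  induction x using Germ.inductionOn with | h f =>
  exact mk_coe U fun _ => f
theorem mk'_map {X Y : Type} (φ : X → Y) (f : J → Germ (a.V : Filter a.I) X) :
    (a.mk' U f).map φ = a.mk' U fun j => (f j).map φ := by
  obtain ⟨f, rfl⟩ := rep f
  rw [mk_coe]
  exact (mk_coe U fun j i => φ (f j i)).symm
theorem mk'_map₂ {X Y Z : Type} (φ : X → Y → Z) (f : J → Germ (a.V : Filter a.I) X)
    (g : J → Germ (a.V : Filter a.I) Y) :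
    Germ.map₂ φ (a.mk' U f) (a.mk' U g) = a.mk' U fun j => Germ.map₂ φ (f j) (g j) := by
  obtain ⟨f, rfl⟩ := rep f
  obtain ⟨g, rfl⟩ := rep g
  rw [mk_coe, mk_coe]
  exact (mk_coe U fun j i => φ (f j i) (g j i)).symm
theorem mk'_liftRel {X Y : Type} (R : X → Y → Prop) (f : J → Germ (a.V : Filter a.I) X)
    (g : J → Germ (a.V : Filter a.I) Y) : Germ.LiftRel R (a.mk' U f) (a.mk' U g) ↔
      ∀ᶠ j in (U : Filter J), Germ.LiftRel R (f j) (g j) := by
  obtain ⟨f, rfl⟩ := rep f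
  obtain ⟨g, rfl⟩ := rep g
  rw [mk_coe, mk_coe]
  rfl
theorem mk'_eq_iff {X : Type} (f g : J → Germ (a.V : Filter a.I) X) :
    a.mk' U f = a.mk' U g ↔ ∀ᶠ j in (U : Filter J), f j = g j := by
  obtain ⟨f, rfl⟩ := rep f
  obtain ⟨g, rfl⟩ := rep g
  rw [mk_coe, mk_coe, Germ.coe_eq]
  exact eventually_congr (Eventually.of_forall fun j => (Germ.coe_eq (f := f j) (g := g j)).symm)
theorem mk'_le_iff (f g : J → a.K) : a.mk' U f ≤ a.mk' U g ↔ ∀ᶠ j in (U : Filter J), f j ≤ g j :=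
  mk'_liftRel U (· ≤ ·) f g
theorem mk'_add (f g : J → a.K) : a.mk' U (fun j => f j + g j) = a.mk' U f + a.mk' U g :=
  (mk'_map₂ U (· + ·) f g).symm
theorem mk'_sub (f g : J → a.K) : a.mk' U (fun j => f j - g j) = a.mk' U f - a.mk' U g :=
  (mk'_map₂ U (· - ·) f g).symm
theorem mk'_mulK (f g : J → a.K) : a.mk' U (fun j => f j * g j) = a.mk' U f * a.mk' U g :=
  (mk'_map₂ U (· * ·) f g).symm
theorem mk'_mul (f g : J → MM Γ a) : a.mk' U (fun j => f j * g j) = a.mk' U f * a.mk' U g :=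
  (mk'_map₂ U (· * ·) f g).symm
theorem mk'_inv (f : J → MM Γ a) : a.mk' U (fun j => (f j)⁻¹) = (a.mk' U f)⁻¹ :=
  (mk'_map U Inv.inv f).symm
theorem mk'_hom (g : MM Γ a) : a.mk' U (fun _ => g) = (a.dg U).hom Γ g := mk'_const U g
theorem mk'_kh (x : a.K) : a.mk' U (fun _ => x) = (a.dg U).kh x := mk'_const U x
theorem ln_mk' (f : J → MM Γ a) : ln (a := a.pow U) (a.mk' U f) = a.mk' U fun j => ln (f j) :=
  mk'_map U _ f
theorem ds_mk' (f g : J → MM Γ a) :
    ds (a := a.pow U) (a.mk' U f) (a.mk' U g) = a.mk' U fun j => ds (f j) (g j) := by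
  rw [ds, ← mk'_inv, ← mk'_mul, ln_mk']
  rfl
theorem md_mk' (f : J → MM Γ a) : md (a := a.pow U) (a.mk' U f) = a.mk' U fun j => md (f j) :=
  mk'_map U _ f
theorem ipow_mk' (f : J → MM Γ a) (k : J → a.Z) :
    ipow (a := a.pow U) (a.mk' U f) (a.mk' U k) = a.mk' U fun j => ipow (f j) (k j) :=
  mk'_map₂ U _ f k
theorem finOrder_mk' (f : J → MM Γ a) :
    IsOfFinOrder (G := MM Γ (a.pow U)) (a.mk' U f) ↔ ∀ᶠ j in (U : Filter J), IsOfFinOrder (f j) := by
  obtain ⟨f, rfl⟩ := rep f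
  rw [mk_coe]
  exact (fin_coe (a := a.pow U) _).trans
    (eventually_congr (Eventually.of_forall fun j => (fin_coe (f j)).symm))
theorem prim_mk' (f : J → MM Γ a) :
    Prim (a := a.pow U) (a.mk' U f) ↔ ∀ᶠ j in (U : Filter J), Prim (f j) := by
  obtain ⟨f, rfl⟩ := rep f
  rw [mk_coe]
  exact (prim_coe (a := a.pow U) _).trans
    (eventually_congr (Eventually.of_forall fun j => (prim_coe (f j)).symm))
theorem st_mk' {ι : Type} [Finite ι] (Q : (ι → Γ.G) → Prop) (f : J → ι → MM Γ a) :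
    St (a := a.pow U) Q (fun i => a.mk' U fun j => f j i) ↔ ∀ᶠ j in (U : Filter J), St Q (f j) := by
  choose g hg using fun j => rep (f j)
  obtain rfl : f = fun j i => Germ.ofFun (g j i) := funext hg
  simp only [mk_coe]
  exact (st_coe' (a := a.pow U) Q fun i p => g p.1 i p.2).trans
    (eventually_congr (Eventually.of_forall fun j => (st_coe' Q (g j)).symm))
theorem Ext.pow_mk' (E : Ext a b) {X : Type} (f : J → Germ (a.V : Filter a.I) X) :
    (E.pow U).mp (a.mk' U f) = b.mk' U fun j => E.mp (f j) := by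
  obtain ⟨f, rfl⟩ := rep f
  rw [mk_coe]
  exact (mk_coe U fun j i => f j (E.π i)).symm
theorem mk'_finite {X : Type} (s : Set (Germ (a.V : Filter a.I) X)) (hs : s.Finite)
    (f : J → Germ (a.V : Filter a.I) X) (hf : ∀ᶠ j in (U : Filter J), f j ∈ s) :
    ∃ x ∈ s, a.mk' U f = (a.dg U).mp x := by
  obtain ⟨x, h1, h2⟩ := (Ultrafilter.eventually_exists_mem_iff (P := fun x j => f j = x) hs).1
    (hf.mono fun j h => ⟨_, h, rfl⟩)
  exact ⟨x, h1, ((mk'_eq_iff U f fun _ => x).2 h2).trans (mk'_const U x)⟩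
end pow

section internal
variable {ι : Type}
theorem st_coe [Finite ι] (Q : (ι → Γ.G) → Prop) (f : ι → a.I → Γ.G) :
    St Q (fun i => (Germ.ofFun (f i) : MM Γ a)) ↔ ∀ᶠ j in (a.V : Filter a.I), Q fun i => f i j :=
  st_coe' Q f
theorem st_word {κ : Type} [Finite ι] [Finite κ] (Q : (κ → Γ.G) → Prop) (w : κ → FreeGroup ι)
    (v : ι → MM Γ a) :
    St (fun z : ι → Γ.G => Q fun i => FreeGroup.lift z (w i)) v ↔
      St Q fun i => FreeGroup.lift v (w i) := by
  obtain ⟨f, rfl⟩ := rep v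
  simp only [lift_coe]
  exact (st_coe _ f).trans (st_coe Q fun i j => FreeGroup.lift (fun s => f s j) (w i)).symm
theorem Tr.word {κ : Type} [Finite ι] [Finite κ] {Q : (κ → Γ.G) → Prop} (h : Tr Q)
    (w : κ → FreeGroup ι) : Tr fun z : ι → Γ.G => Q fun i => FreeGroup.lift z (w i) := by
  intro a b H θ h1 h2 h3 v
  have k := h a b H θ h1 h2 h3 fun i => FreeGroup.lift v (w i)
  simp only [map_lift θ] at k
  rw [st_word, st_word, ← k]
  exact iff_of_eq (congrArg (St Q) (funext fun i => (map_lift H.subtype v (w i)).symm))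
theorem Intl.inter {S T : Set (ι → MM Γ a)} (hS : Intl S) (hT : Intl T) : Intl (S ∩ T) := by
  obtain ⟨Q, hQ⟩ := hS
  obtain ⟨R, hR⟩ := hT
  exact ⟨fun j z => Q j z ∧ R j z, fun f => by
    rw [Set.mem_inter_iff, hQ, hR, eventually_and]⟩
theorem Intl.compl {S : Set (ι → MM Γ a)} (hS : Intl S) : Intl Sᶜ := by
  obtain ⟨Q, hQ⟩ := hS
  exact ⟨fun j z => ¬Q j z, fun f => by rw [Set.mem_compl_iff, hQ, Ultrafilter.eventually_not]⟩
theorem Intl.union {S T : Set (ι → MM Γ a)} (hS : Intl S) (hT : Intl T) : Intl (S ∪ T) := by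
  obtain ⟨Q, hQ⟩ := hS
  obtain ⟨R, hR⟩ := hT
  exact ⟨fun j z => Q j z ∨ R j z, fun f => by
    rw [Set.mem_union, hQ, hR, Ultrafilter.eventually_or]⟩
theorem intl_univ : Intl (Set.univ : Set (ι → MM Γ a)) := ⟨fun _ _ => True, fun _ => by simp⟩
theorem Intl.biInter {α : Type} (s : Finset α) (S : α → Set (ι → MM Γ a)) (h : ∀ x ∈ s, Intl (S x)) :
    Intl (⋂ x ∈ s, S x) := by
  classical
  induction s using Finset.induction_on with
  | empty => simpa using intl_univ
  | insert x s _ ih =>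
    rw [Finset.set_biInter_insert]
    exact (h x (Finset.mem_insert_self x s)).inter (ih fun y hy => h y (Finset.mem_insert_of_mem hy))
/-- word maps with constants -/
def wev (w : FreeGroup (MM Γ a ⊕ ι)) (v : ι → MM Γ a) : MM Γ a := FreeGroup.lift (Sum.elim id v) w
/-- the coordinates of a word map -/
noncomputable def Bas2A.wv (w : FreeGroup (MM Γ a ⊕ ι)) (j : a.I) (z : ι → Γ.G) : Γ.G :=
  FreeGroup.lift (Sum.elim (fun g => (Quotient.out g : a.I → Γ.G) j) z) w
theorem Bas2A.wev_coe (w : FreeGroup (MM Γ a ⊕ ι)) (f : ι → a.I → Γ.G) :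
    wev w (fun i => (Germ.ofFun (f i) : MM Γ a)) =
      Germ.ofFun fun j => Bas2A.wv w j fun i => f i j := by
  have e : Sum.elim id (fun i => (Germ.ofFun (f i) : MM Γ a)) =
      fun s => Germ.ofFun (Sum.elim (fun g : MM Γ a => (Quotient.out g : a.I → Γ.G)) f s) :=
    funext fun s => by
      cases s with
      | inl g => exact (Quotient.out_eq g).symm
      | inr i => rfl
  rw [wev, e, lift_coe]
  exact congrArg Germ.ofFun (funext fun j => congrArg (FreeGroup.lift · w)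
    (funext fun s => by cases s <;> rfl))
theorem Intl.comap {κ : Type} [Finite κ] {S : Set (κ → MM Γ a)} (hS : Intl S)
    (w : κ → FreeGroup (MM Γ a ⊕ ι)) : Intl {v : ι → MM Γ a | (fun i => wev (w i) v) ∈ S} := by
  obtain ⟨Q, hQ⟩ := hS
  refine ⟨fun j z => Q j fun i => Bas2A.wv (w i) j z, fun f => ?_⟩
  simp only [Set.mem_ofPred_eq, Bas2A.wev_coe]
  exact hQ fun i j => Bas2A.wv (w i) j fun s => f s j
theorem intl_st [Finite ι] (Q : (ι → Γ.G) → Prop) : Intl {v : ι → MM Γ a | St Q v} :=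
  ⟨fun _ => Q, fun f => st_coe Q f⟩
theorem intl_ln_le (w : FreeGroup (MM Γ a ⊕ ι)) (t : a.K) :
    Intl {v : ι → MM Γ a | ln (wev w v) ≤ t} := by
  induction t using Germ.inductionOn with | h t =>
  refine ⟨fun j z => (Γ.len (Bas2A.wv w j z) : ℝ) ≤ t j, fun f => ?_⟩
  rw [Set.mem_ofPred_eq, Bas2A.wev_coe]
  rfl
theorem intl_sum_le {α : Type} (s : Finset α) (c : α → ℝ) (w : α → FreeGroup (MM Γ a ⊕ ι)) (t : a.K) :
    Intl {v : ι → MM Γ a | ∑ x ∈ s, (c x : a.K) * ln (wev (w x) v) ≤ t} := by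
  induction t using Germ.inductionOn with | h t =>
  refine ⟨fun j z => ∑ x ∈ s, c x * (Γ.len (Bas2A.wv (w x) j z) : ℝ) ≤ t j, fun f => ?_⟩
  simp only [Set.mem_ofPred_eq, Bas2A.wev_coe]
  exact iff_of_eq (congrArg (· ≤ (Germ.ofFun t : a.K))
    (sum_coe s fun x j => c x * (Γ.len (Bas2A.wv (w x) j fun i => f i j) : ℝ)))
theorem intl_eq_one (w : FreeGroup (MM Γ a ⊕ ι)) : Intl {v : ι → MM Γ a | wev w v = 1} := by
  refine ⟨fun j z => Bas2A.wv w j z = 1, fun f => ?_⟩
  rw [Set.mem_ofPred_eq, Bas2A.wev_coe]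
  exact Germ.coe_eq (g := fun _ => 1)
theorem Intl.ex {S : Set (Option ι → MM Γ a)} [Finite ι] (hS : Intl S) :
    Intl {v : ι → MM Γ a | ∃ x, (fun i => Option.elim i x v) ∈ S} := by
  obtain ⟨Q, hQ⟩ := hS
  have e : ∀ (g : a.I → Γ.G) (f : ι → a.I → Γ.G),
      (fun i => Option.elim i (Germ.ofFun g : MM Γ a) fun i => Germ.ofFun (f i)) ∈ S ↔
        ∀ᶠ j in (a.V : Filter a.I), Q j fun i => Option.elim i (g j) fun i => f i j := fun g f => by
    have e1 : (fun i => Option.elim i (Germ.ofFun g : MM Γ a) fun i => Germ.ofFun (f i)) =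
        fun i => Germ.ofFun (Option.elim i g f) := funext fun i => by cases i <;> rfl
    rw [e1, hQ]
    exact eventually_congr (Eventually.of_forall fun j =>
      iff_of_eq (congrArg (Q j) (funext fun i => by cases i <;> rfl)))
  refine ⟨fun j z => ∃ x, Q j fun i => Option.elim i x z, fun f => ⟨fun ⟨x, hx⟩ => ?_, fun h => ?_⟩⟩
  · induction x using Germ.inductionOn with | h g =>
    exact ((e g f).1 hx).mono fun j h => ⟨_, h⟩
  · obtain ⟨g, hg⟩ := h.choice
    exact ⟨_, (e g f).2 hg⟩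
/-- countable saturation -/
theorem sat (S : ℕ → Set (ι → MM Γ a)) (hS : ∀ n, Intl (S n))
    (hne : ∀ n, ∃ v, ∀ m ≤ n, v ∈ S m) : ∃ v, ∀ n, v ∈ S n := by
  choose Q hQ using hS
  choose v hv using hne
  choose F hF using fun n => rep (v n)
  obtain ⟨N, hN⟩ := diag (a := a) (fun n j => ∀ m ≤ n, Q m j fun i => F n i j) fun n =>
    ((eventually_all_finite (Set.finite_le_nat n)).2 fun m hm => (hQ m (F n)).1 (hF n ▸ hv n m hm))
  exact ⟨_, fun n => (hQ n fun i j => F (N j) i j).2 ((hN n).mono fun j h => h.2 n h.1)⟩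
/-- countable saturation for cuts of lengths -/
theorem sat_K (l u : ℕ → a.K) (h : ∀ m n, l m ≤ u n) : ∃ t, ∀ n, l n ≤ t ∧ t ≤ u n := by
  obtain ⟨l, rfl⟩ := rep l
  obtain ⟨u, rfl⟩ := rep u
  obtain ⟨N, hN⟩ := diag (a := a) (fun n j => ∀ m ≤ n, ∀ k ≤ n, l m j ≤ u k j) fun n =>
    ((eventually_all_finite (Set.finite_le_nat n)).2 fun m _ =>
      (eventually_all_finite (Set.finite_le_nat n)).2 fun k _ => h m k)
  refine ⟨Germ.ofFun fun j => (Finset.range (N j + 1)).sup' Finset.nonempty_range_add_one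
    fun m => l m j, fun n => ⟨(hN n).mono fun j hj => ?_, (hN n).mono fun j hj => ?_⟩⟩
  · exact Finset.le_sup' (fun m => l m j) (Finset.mem_range_succ_iff.2 hj.1)
  · exact Finset.sup'_le _ _ fun m hm => hj.2 m (Finset.mem_range_succ_iff.1 hm) n hj.1
/-- minimal elements of internal sets -/
theorem exists_min {k : ℕ} {S : Set (Fin k → MM Γ a)} (hS : Intl S) (hne : S.Nonempty) :
    ∃ x ∈ S, ∀ y ∈ S, tl x ≤ tl y := by
  obtain ⟨Q, hQ⟩ := hS
  obtain ⟨v, hv⟩ := hne
  obtain ⟨f, rfl⟩ := rep v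
  have e : ∀ g : Fin k → a.I → Γ.G, tl (fun i => (Germ.ofFun (g i) : MM Γ a)) =
      Germ.ofFun fun j => ∑ i, (Γ.len (g i j) : ℝ) := fun g =>
    sum_coe Finset.univ fun i j => (Γ.len (g i j) : ℝ)
  obtain ⟨z, hz⟩ := (((hQ f).1 hv).mono fun j hj => (show ∃ z, Q j z ∧ ∀ y, Q j y →
      ∑ i, Γ.len (z i) ≤ ∑ i, Γ.len (y i) from
    ⟨_, Function.argminOn_mem (fun z : Fin k → Γ.G => ∑ i, Γ.len (z i)) {z | Q j z} ⟨_, hj⟩,
      fun y hy => Function.argminOn_le (fun z : Fin k → Γ.G => ∑ i, Γ.len (z i)) _ hy⟩)).choice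
  refine ⟨_, (hQ fun i j => z j i).2 (hz.mono fun j h => h.1), fun y hy => ?_⟩
  obtain ⟨g, rfl⟩ := rep y
  rw [e, e]
  filter_upwards [hz, (hQ g).1 hy] with j h1 h2
  exact_mod_cast h1.2 _ h2
/-- exponents divisible by every standard integer are dense at every infinite scale -/
theorem exists_divisible (t ν : a.K) (hν : Big ν) :
    ∃ k : a.Z, (∀ n : ℕ, 0 < n → ∃ l : a.Z, k = (n : a.Z) * l) ∧ Ll |zK k - t| ν := by
  induction t using Germ.inductionOn with | h t =>
  induction ν using Germ.inductionOn with | h ν =>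
  obtain ⟨N, hN⟩ := diag (a := a) (fun n j => ((n * n.factorial : ℕ) : ℝ) ≤ ν j) fun n => hν _
  refine ⟨Germ.ofFun fun j => ((N j).factorial : ℤ) * ⌊t j / (N j).factorial⌋, fun n hn =>
    ⟨Germ.ofFun fun j => ((N j).factorial : ℤ) * ⌊t j / (N j).factorial⌋ / n,
      Germ.coe_eq.2 ((hN n).mono fun j hj => ?_)⟩, fun n => ?_⟩
  · exact (Int.mul_ediv_cancel' (Dvd.dvd.mul_right
      (Int.natCast_dvd_natCast.2 (Nat.dvd_factorial hn hj.1)) _)).symm
  · rw [Germ.abs_def]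
    refine (hN n).mono fun j hj => ?_
    have p : (0 : ℝ) < (N j).factorial := Nat.cast_pos.2 (N j).factorial_pos
    have h1 := mul_le_mul_of_nonneg_left (Int.floor_le (t j / (N j).factorial)) p.le
    have h2 := mul_lt_mul_of_pos_left (Int.lt_floor_add_one (t j / (N j).factorial)) p
    rw [mul_div_cancel₀ _ p.ne'] at h1 h2
    have h3 : |((((N j).factorial : ℤ) * ⌊t j / (N j).factorial⌋ : ℤ) : ℝ) - t j| ≤
        (N j).factorial := by
      push_cast
      exact abs_le.2 ⟨by linarith, by linarith⟩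
    exact (mul_le_mul (Nat.cast_le.2 hj.1) h3 (abs_nonneg _) (Nat.cast_nonneg _)).trans
      (by exact_mod_cast hj.2)
end internal

end Pool.Agent.P.MP_dba3d2_lc
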