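import Mathlib

/-! Stability of hyperbolic groups: core definitions (ambients, scales, geometrically closed subgroups). -/

namespace Pool.Agent.P.MP_dba3d2_lc

open Filter

/-- A hyperbolic group with a word length. -/
structure HG0 where
  G : Type
  [grp : Group G]
  len : G → ℕ
  len_eq_zero : ∀ g, len g = 0 ↔ g = 1
  len_inv : ∀ g, len g⁻¹ = len g
  len_mul : ∀ g h, len (g * h) ≤ len g + len h
  geo : ∀ g n, len g = n + 1 → ∃ s, len s = 1 ∧ len (s⁻¹ * g) = n
  fin : ∀ n, {g | len g ≤ n}.Finite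
  δ : ℕ
  hyp : ∀ x y z, len (x⁻¹ * y) + len z ≤
    max (len (x⁻¹ * z) + len y) (len (y⁻¹ * z) + len x) + 2 * δ

attribute [instance] HG0.grp

/-- A uniform exponent for a group. -/
structure GoodExp (G : Type) [Group G] (e : ℕ) : Prop where
  pos : 0 < e
  tors : ∀ g : G, IsOfFinOrder g → g ^ e = 1
  card : ∀ K : Subgroup G, Finite K → Nat.card K ≤ e
  norm : ∀ c g : G, ¬ IsOfFinOrder c → ∀ m n : ℤ, m ≠ 0 → g * c ^ m * g⁻¹ = c ^ n →
    g * c ^ e * g⁻¹ = c ^ e ∨ g * c ^ e * g⁻¹ = (c ^ e)⁻¹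
  comm : ∀ c f g : G, ¬ IsOfFinOrder c → Commute f (c ^ e) → Commute g (c ^ e) → Commute (f ^ e) g

/-- A hyperbolic group with a uniform exponent. -/
structure HG extends HG0 where
  e : ℕ
  good : GoodExp G e

/-- An ambient index: a countably incomplete ultrafilter. -/
structure Amb where
  I : Type
  V : Ultrafilter I
  r : I → ℕ
  hr : Tendsto r (V : Filter I) atTop

/-- Lengths of the ambient. -/
abbrev Amb.K (a : Amb) : Type := Germ (a.V : Filter a.I) ℝ
/-- Exponents of the ambient. -/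
abbrev Amb.Z (a : Amb) : Type := Germ (a.V : Filter a.I) ℤ
/-- The ambient group. -/
abbrev MM (Γ : HG) (a : Amb) : Type := Germ (a.V : Filter a.I) Γ.G

section scales
variable {K : Type} [Field K] [LinearOrder K]
/-- `x` is at most a standard multiple of `y`. -/
def Ls (x y : K) : Prop := ∃ n : ℕ, x ≤ n * y
/-- `x` is negligible compared with `y`. -/
def Ll (x y : K) : Prop := ∀ n : ℕ, n * x ≤ y
/-- `y` is infinite. -/
def Big (y : K) : Prop := ∀ n : ℕ, (n : K) ≤ y
/-- same scale. -/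
def Sim (x y : K) : Prop := Ls x y ∧ Ls y x
end scales

variable {Γ : HG} {a : Amb}

/-- internal length -/
def ln (g : MM Γ a) : a.K := g.map fun x => (Γ.len x : ℝ)
/-- internal distance -/
def ds (x y : MM Γ a) : a.K := ln (x⁻¹ * y)
/-- internal power -/
def ipow (c : MM Γ a) (k : a.Z) : MM Γ a := Germ.map₂ (fun (x : Γ.G) (n : ℤ) => x ^ n) c k
/-- an internal integer as a length -/
def zK (k : a.Z) : a.K := k.map fun n : ℤ => (n : ℝ)
/-- minimal displacement -/
noncomputable def md (c : MM Γ a) : a.K :=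
  c.map fun x => ((⨅ q : Γ.G, Γ.len (q⁻¹ * x * q) : ℕ) : ℝ)
/-- the constant embedding -/
def cst (Γ : HG) (a : Amb) : Γ.G →* MM Γ a where
  toFun x := (x : MM Γ a)
  map_one' := rfl
  map_mul' _ _ := rfl
/-- the standard copy of the group -/
def std (Γ : HG) (a : Amb) : Subgroup (MM Γ a) := (cst Γ a).range

/-- `p` lies on the segment from `x` to `y` at scale `μ`. -/
def On (μ : a.K) (p x y : MM Γ a) : Prop := Ll (ds x p + ds p y - ds x y) μ
/-- `g` fixes `p` and `q` at scale `μ`. -/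
def Stab (μ : a.K) (p q g : MM Γ a) : Prop := Ll (ds p (g * p)) μ ∧ Ll (ds q (g * q)) μ
/-- the segment from `p` to `q` is periodic at scale `μ`. -/
def Per (μ : a.K) (p q : MM Γ a) : Prop := ∃ g, ¬ IsOfFinOrder g ∧ Stab μ p q g
/-- orientation preserving elementary closure -/
def Ep (c : MM Γ a) : Subgroup (MM Γ a) := Subgroup.centralizer {c ^ Γ.e}
/-- elementary closure -/
def InE (c g : MM Γ a) : Prop := g * c ^ Γ.e * g⁻¹ = c ^ Γ.e ∨ g * c ^ Γ.e * g⁻¹ = (c ^ Γ.e)⁻¹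
/-- primitive elements -/
def Prim (c : MM Γ a) : Prop :=
  ¬ IsOfFinOrder c ∧ ∀ f ∈ Ep c, ∃ k : a.Z, IsOfFinOrder (f⁻¹ * ipow c k)
/-- centred elements -/
def Cen (c : MM Γ a) : Prop := Ls (ln c) (md c)
/-- the segments `[x, y]` and `[x', y']` share the segment `[p, q]`, nondegenerate at scale `μ`. -/
def Ov (μ : a.K) (p q x y x' y' : MM Γ a) : Prop :=
  Ls μ (ds p q) ∧ On μ p x y ∧ On μ q x y ∧ On μ p x' y' ∧ On μ q x' y'

/-- The core closure conditions. -/
structure GC0 (H : Subgroup (MM Γ a)) : Prop where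
  base : std Γ a ≤ H
  g2 : ∀ μ, Big μ → ∀ h ∈ H, ∀ h' ∈ H, Ls (ln h) μ → Ls (ln h') μ → ∀ g p q,
    Ov μ p q 1 h g (g * h') → ¬ Per μ p q → g ∈ H
  g20 : ∀ μ, Big μ → ∀ h ∈ H, Ls (ln h) μ → ∀ p q, Ls μ (ds p q) → On μ p 1 h → On μ q 1 h →
    Per μ p q → ∃ c ∈ H, Prim c ∧ Stab μ p q c
  ex : ∀ μ, Big μ → ∀ h ∈ H, Ls (ln h) μ → ∀ c ∈ H, Prim c → Ls (ln c) μ → Ll (md c) μ →
    ∃ f ∈ H, f ∈ Ep c ∧ Ll (2 * ds f h - (ln c + ln (h⁻¹ * c * h))) μ
  pur : ∀ c ∈ H, Prim c → ∀ f ∈ H, f ∈ Ep c → ∀ n : ℕ, 0 < n →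
    ∃ f' ∈ H, f' ∈ Ep c ∧ ∃ r : ℕ, IsOfFinOrder (f⁻¹ * (f' ^ n * c ^ r))
  cen : ∀ c ∈ H, ∀ c' ∈ H, ¬ IsOfFinOrder c → ¬ IsOfFinOrder c' →
    ∃ p ∈ H, Ls (ln p) (ln c + ln c') ∧ ∀ q,
      Ls (ln (p⁻¹ * c * p) + ln (p⁻¹ * c' * p)) (ln (q⁻¹ * c * q) + ln (q⁻¹ * c' * q))

/-- Finite subgroups are conjugate into the standard group. -/
def FinC (H : Subgroup (MM Γ a)) : Prop :=
  ∀ K : Subgroup (MM Γ a), K ≤ H → Finite K →
    ∃ p ∈ H, ∀ k ∈ K, p⁻¹ * k * p ∈ std Γ a

/-- Geometrically closed subgroups. -/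
structure GC (H : Subgroup (MM Γ a)) : Prop extends GC0 H where
  finc : FinC H

/-- the subgroup of elements of length at most a multiple of `μ` (for `0 ≤ μ`) -/
def ball (Γ : HG) (μ : a.K) : Subgroup (MM Γ a) := Subgroup.closure {g | Ls (ln g) μ}
/-- the subgroup of elements negligible at scale `μ` (for `0 ≤ μ`) -/
def tiny (Γ : HG) (μ : a.K) : Subgroup (MM Γ a) := Subgroup.closure {g | Ll (ln g) μ}
/-- the stabiliser of a segment at scale `μ` (for `0 ≤ μ`) -/
def StabG (μ : a.K) (p q : MM Γ a) : Subgroup (MM Γ a) := Subgroup.closure {g | Stab μ p q g}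

/-- An extension of ambients. -/
structure Ext (a b : Amb) where
  π : b.I → a.I
  hπ : Tendsto π (b.V : Filter b.I) (a.V : Filter a.I)

/-- transport of germs along an extension -/
def Ext.mp {a b : Amb} (E : Ext a b) {X : Type} (x : Germ (a.V : Filter a.I) X) :
    Germ (b.V : Filter b.I) X := x.compTendsto E.π E.hπ

/-- the group embedding of an extension -/
def Ext.hom {a b : Amb} (E : Ext a b) (Γ : HG) : MM Γ a →* MM Γ b where
  toFun := E.mp
  map_one' := rfl
  map_mul' x y := by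
    induction x using Germ.inductionOn; induction y using Germ.inductionOn; rfl

/-- the ultrapower of an ambient -/
def Amb.pow (a : Amb) {J : Type} (U : Ultrafilter J) : Amb where
  I := J × a.I
  V := U.bind fun j => a.V.map fun i => (j, i)
  r := fun p => a.r p.2
  hr := by
    intro s hs
    have h := a.hr hs
    simp only [Ultrafilter.bind, mem_map] at h ⊢
    change ∀ᶠ j in (U : Filter J), _
    exact Eventually.of_forall fun j => h

/-- the diagonal extension into the ultrapower -/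
def Amb.dg (a : Amb) {J : Type} (U : Ultrafilter J) : Ext a (a.pow U) where
  π := Prod.snd
  hπ := by
    intro s hs
    change ∀ᶠ j in (U : Filter J), _
    exact Eventually.of_forall fun j => hs

/-- the class of a family in the ultrapower -/
noncomputable def Amb.mk' (a : Amb) {J : Type} (U : Ultrafilter J) {X : Type}
    (f : J → Germ (a.V : Filter a.I) X) : Germ ((a.pow U).V : Filter (a.pow U).I) X :=
  Germ.ofFun (fun p : (a.pow U).I => (Quotient.out (f (p : J × a.I).1) : a.I → X) (p : J × a.I).2)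

/-- the map of ultrapowers induced by an extension -/
def Ext.pow {a b : Amb} (E : Ext a b) {J : Type} (U : Ultrafilter J) : Ext (a.pow U) (b.pow U) where
  π := fun p => (p.1, E.π p.2)
  hπ := by
    intro s hs
    change ∀ᶠ j in (U : Filter J), _ at hs ⊢
    filter_upwards [hs] with j hj
    exact E.hπ hj

/-- the star extension of a predicate on tuples of the standard group -/
def St {ι : Type} (Q : (ι → Γ.G) → Prop) (v : ι → MM Γ a) : Prop :=
  ∀ᶠ j in (a.V : Filter a.I), Q fun i => (Quotient.out (v i) : a.I → Γ.G) j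

/-- internal sets of tuples -/
def Intl {ι : Type} (S : Set (ι → MM Γ a)) : Prop :=
  ∃ Q : a.I → (ι → Γ.G) → Prop, ∀ f : ι → a.I → Γ.G,
    (fun i => (Germ.ofFun (f i) : MM Γ a)) ∈ S ↔ ∀ᶠ j in (a.V : Filter a.I), Q j fun i => f i j

/-- transfer along embeddings between geometrically closed subgroups -/
def Tr {ι : Type} (Q : (ι → Γ.G) → Prop) : Prop :=
  ∀ (a b : Amb) (H : Subgroup (MM Γ a)) (θ : H →* MM Γ b), GC H → GC θ.range →
    Function.Injective θ → ∀ v : ι → H, St Q (fun i => (v i : MM Γ a)) ↔ St Q fun i => θ (v i)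

/-- `H` is witness closed in `H'`. -/
def Wc (H H' : Subgroup (MM Γ a)) : Prop :=
  H ≤ H' ∧ ∀ (m k : ℕ) (Q : (Fin m ⊕ Fin k → Γ.G) → Prop), Tr Q →
    ∀ h : Fin m → MM Γ a, (∀ i, h i ∈ H) → ∀ x : Fin k → MM Γ a, (∀ i, x i ∈ H') →
      St Q (Sum.elim h x) → ∃ y : Fin k → MM Γ a, (∀ i, y i ∈ H) ∧ St Q (Sum.elim h y)

/-- total length of a tuple -/
def tl {k : ℕ} (x : Fin k → MM Γ a) : a.K := ∑ i, ln (x i)

/-- `x` is a witness of length minimal up to an error negligible at scale `μ`. -/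
def NMin {m k : ℕ} (Q : (Fin m ⊕ Fin k → Γ.G) → Prop) (h : Fin m → MM Γ a) (μ : a.K)
    (x : Fin k → MM Γ a) : Prop :=
  St Q (Sum.elim h x) ∧ ∀ y, St Q (Sum.elim h y) → Ll (tl x - tl y) μ

/-- the segment from `1` to `h` starts along the axis of `c`, at scale `μ` -/
def Fol (μ : a.K) (h c : MM Γ a) : Prop :=
  ∃ q, Ls μ (ln q) ∧ On μ q 1 h ∧ Stab μ 1 q c

/-- the segments from `1` to `g` and from `1` to `h` share a nondegenerate initial segment -/
def Ovl (μ : a.K) (g h : MM Γ a) : Prop := Ls μ (ln g + ln h - ds g h)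

/-- the segment from `p` to `q` lies on a translate of a segment of `H` of scale at most `μ` -/
def HArc (μ : a.K) (H : Subgroup (MM Γ a)) (p q : MM Γ a) : Prop :=
  ∃ g, ∃ h ∈ H, Ls (ln h) μ ∧ On μ p g (g * h) ∧ On μ q g (g * h)

/-- the segment from `1` to `x` is covered by finitely many translates of segments of `H` -/
def Cov (μ : a.K) (H : Subgroup (MM Γ a)) (x : MM Γ a) : Prop :=
  ∃ (n : ℕ) (p : ℕ → MM Γ a), p 0 = 1 ∧ p n = x ∧
    Ll (∑ i ∈ Finset.range n, ds (p i) (p (i + 1)) - ln x) μ ∧ ∀ i < n, HArc μ H (p i) (p (i + 1))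

/-- fully convex subgroups -/
def Cvx (H : Subgroup (MM Γ a)) : Prop :=
  std Γ a ≤ H ∧ ∀ h ∈ H, ∀ p, ¬ Big (ln p + ds p h - ln h) → p ∈ H

/-- every element of `H` outside `W` is much longer than every element of `W` -/
def Sep (H W : Subgroup (MM Γ a)) : Prop := ∀ h ∈ H, h ∉ W → ∀ w ∈ W, Ll (ln w) (ln h)

/-- every element of `P` is an almost geodesic product of elements of `X` -/
def AddNF (P : Subgroup (MM Γ a)) (X : Set (MM Γ a)) : Prop :=
  ∀ g ∈ P, ∃ l : List (MM Γ a), (∀ x ∈ l, x ∈ X) ∧ l.prod = g ∧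
    (Big (ln g) → Ll ((l.map ln).sum - ln g) (ln g)) ∧ (¬ Big (ln g) → l = [g])

/-- legal finite subgroups of the standard group -/
def Legal (Γ : HG) (K : Subgroup Γ.G) : Prop :=
  Finite K ∧ (∃ x ∈ Subgroup.centralizer (K : Set Γ.G), ∃ y ∈ Subgroup.centralizer (K : Set Γ.G),
    ¬ IsOfFinOrder x ∧ ¬ IsOfFinOrder y ∧ ¬ Commute (x ^ Γ.e) (y ^ Γ.e)) ∧
  ∀ R : Subgroup Γ.G, Finite R →
    (∀ g ∈ Subgroup.centralizer (K : Set Γ.G), ∀ r ∈ R, g * r * g⁻¹ ∈ R) → R ≤ K

/-- a family of letters in general position at scale `μ` over the base `B` -/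
structure Letters (μ : a.K) (B : Subgroup (MM Γ a)) {r : ℕ} (K : Fin r → Subgroup Γ.G)
    (u : Fin r → MM Γ a) : Prop where
  fin : ∀ i, Finite (K i)
  sim : ∀ i, Sim (ln (u i)) μ
  comm : ∀ i, ∀ k ∈ K i, Commute (u i) (cst Γ a k)
  nper : ∀ i p q, Ls μ (ds p q) → On μ p 1 (u i) → On μ q 1 (u i) → ¬ Per μ p q
  self : ∀ i j g p q, Ov μ p q 1 (u i) g (g * u j) → i = j ∧ g ∈ (K i).map (cst Γ a)
  base : ∀ i, ∀ w ∈ B, Ls (ln w) μ → ∀ g p q, ¬ Ov μ p q 1 (u i) g (g * w)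

/-- the fixed nonprincipal ultrafilter on the natural numbers -/
noncomputable abbrev U0 : Ultrafilter ℕ := hyperfilter ℕ

/-- every infinite scale of `H` is a scale of `H0` -/
def Sc (H H0 : Subgroup (MM Γ a)) : Prop :=
  ∀ h ∈ H, Big (ln h) → ∃ h0 ∈ H0, Sim (ln h) (ln h0)

end Pool.Agent.P.MP_dba3d2_lc
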