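import Pool.Agent.P.MP_dba3d2_lc.A.Tree

/-! Definitions used by the interfaces of the combination theorems, reflection and the machine. -/

namespace Pool.Agent.P.MP_dba3d2_lc

open Filter

/-- The stability axioms for arc stabilisers in a real tree. -/
structure RT.Ax (R : RT) (e : ℕ) : Prop where
  fin : ∀ p q, 0 < R.d p q → ¬ R.Per p q →
    {g | R.Stab p q g}.Finite ∧ {g | R.Stab p q g}.ncard ≤ e
  small : ∀ p q, 0 < R.d p q → ¬ R.Per p q → ∃ ε > 0, ∀ g r, R.On r p q →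
    R.d p (g * p) ≤ ε → R.d q (g * q) ≤ ε → R.d p (g * p) ≤ R.d p r → R.d q (g * q) ≤ R.d q r →
    R.d r (g * r) = 0
  line : ∀ p q, 0 < R.d p q → R.Per p q →
    ∃ L, R.Line L ∧ ∃ s t, R.d p (L s) = 0 ∧ R.d q (L t) = 0

variable {Γ : HG} {a b : Amb}

/-- `x` carries the axis of `c'` to the axis of `c` -/
def Cj (x c' c : MM Γ a) : Prop := Ep (x * c' * x⁻¹) = Ep c

/-- every finite subgroup of `P` is conjugate in `P` into `X` or `Y` -/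
def FinRed (P X Y : Subgroup (MM Γ a)) : Prop :=
  ∀ K : Subgroup (MM Γ a), K ≤ P → Finite K →
    ∃ p ∈ P, (∀ k ∈ K, p⁻¹ * k * p ∈ X) ∨ (∀ k ∈ K, p⁻¹ * k * p ∈ Y)

/-- primitive elements of `P` with long roots in `P` are conjugate in `P` into `X` or `Y` -/
def PerRed (P X Y : Subgroup (MM Γ a)) : Prop :=
  ∀ c ∈ P, Prim c → ∀ f ∈ P, f ∈ Ep c → Ll (md c) (md f) →
    ∃ p ∈ P, p⁻¹ * c * p ∈ X ∨ p⁻¹ * c * p ∈ Y

/-- the end of `y` does not run along the axis of `c` at the scale of `y` -/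
def NE (c y : MM Γ a) : Prop := Big (ln y) → Ll (md c) (ln y) → ¬ Fol (ln y) y⁻¹ c

/-- the end of `y` does not cancel with comparable elements of `F` outside `M` -/
def NM (F M : Subgroup (MM Γ a)) (y : MM Γ a) : Prop :=
  ∀ v ∈ F, v ∉ M → Big (ln y) → Sim (ln v) (ln y) → ¬ Ovl (ln y) y⁻¹ v

/-- elements of exponent type over `M` -/
def ExpT (M : Subgroup (MM Γ a)) (y : MM Γ a) : Prop :=
  ∃ m ∈ M, ∃ m' ∈ M, ∃ c ∈ M, Prim c ∧ ∃ f ∈ Ep c, y = m * f * m'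

/-- Independence axioms for two factors. -/
structure TwoF (F : Bool → Subgroup (MM Γ a)) : Prop where
  gc : ∀ i, GC0 (F i)
  gcm : GC0 (F false ⊓ F true)
  i1 : ∀ μ, Big μ → ∀ u ∈ F false, ∀ v ∈ F true, Ls (ln u) μ → Ls (ln v) μ → ∀ x p q,
    Ov μ p q 1 u x (x * v) → ¬ Per μ p q → ∃ g ∈ F false, ∃ g' ∈ F true, x = g * g'
  i2 : ∀ c0 ∈ F false, ∀ c1 ∈ F true, Prim c0 → Prim c1 → ∀ x, Cj x c1 c0 →
    ∃ c ∈ F false ⊓ F true, Prim c ∧ ∃ g ∈ F false, ∃ g' ∈ F true, Cj g c c0 ∧ Cj g' c c1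
  i5 : ∀ i, ∀ x ∈ F (!i), x ∉ F false ⊓ F true → ∀ c ∈ F i, ∀ c' ∈ F i, Prim c → Prim c' →
    Cj x c' c → c ∈ F false ⊓ F true
  n1 : ∀ i, ∀ y ∈ F i, y ∉ F false ⊓ F true →
    ∃ s ∈ F false ⊓ F true, NM (F (!i)) (F false ⊓ F true) (y * s)
  n2 : ∀ i, ∀ y ∈ F i, y ∉ F false ⊓ F true → ¬ ExpT (F false ⊓ F true) y →
    ∃ s ∈ F false ⊓ F true, ∃ s' ∈ F false ⊓ F true,
      NM (F (!i)) (F false ⊓ F true) (s * y * s') ∧ NM (F (!i)) (F false ⊓ F true) (s * y * s')⁻¹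
  n3 : ∀ i, ∀ c ∈ F i, Prim c → Cen c → ∀ y ∈ F i, y⁻¹ * c * y ∉ F false ⊓ F true →
    ∃ f ∈ F i, f ∈ Ep c ∧ ∃ s ∈ F false ⊓ F true,
      NM (F (!i)) (F false ⊓ F true) (f * y * s) ∧ NE c (f * y * s)⁻¹

/-- Homomorphisms on `X` and `Y` that agree on the intersection and respect the commutation of
exponents extend to the join. -/
def Ext2 (X Y : Subgroup (MM Γ a)) : Prop :=
  ∀ (G : Type) [Group G] (θ0 : X →* G) (θ1 : Y →* G),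
    (∀ (x : X) (y : Y), (x : MM Γ a) = y → θ0 x = θ1 y) →
    (∀ c ∈ X ⊓ Y, ¬ IsOfFinOrder c → ∀ (x : X) (y : Y), (x : MM Γ a) ∈ Ep c → (y : MM Γ a) ∈ Ep c →
      Commute (θ0 x ^ Γ.e) (θ1 y)) →
    ∃ θ : ↥(X ⊔ Y) →* G, (∀ x : X, θ ⟨x, (le_sup_left : X ≤ X ⊔ Y) x.2⟩ = θ0 x) ∧
      ∀ y : Y, θ ⟨y, (le_sup_right : Y ≤ X ⊔ Y) y.2⟩ = θ1 y

/-- The conclusions of the two factor theorem. -/
structure TwoOut (X Y : Subgroup (MM Γ a)) : Prop where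
  gc : GC0 (X ⊔ Y)
  fin : FinRed (X ⊔ Y) X Y
  per : PerRed (X ⊔ Y) X Y
  ext : Ext2 X Y
  nf : AddNF (X ⊔ Y) {g | g ∈ X ∨ g ∈ Y ∨
    ∃ c ∈ X ⊓ Y, Prim c ∧ Cen c ∧ ∃ x ∈ X, ∃ y ∈ Y, x ∈ Ep c ∧ y ∈ Ep c ∧ g = x * y}
  e1 : ∀ c ∈ X ⊓ Y, Prim c → ∀ f ∈ X ⊔ Y, f ∈ Ep c →
    ∃ x ∈ X, ∃ y ∈ Y, x ∈ Ep c ∧ y ∈ Ep c ∧ f = x * y
  e2 : ∀ c ∈ X, Prim c → (∀ g ∈ X, g⁻¹ * c * g ∉ Y) → ∀ f ∈ X ⊔ Y, f ∈ Ep c → f ∈ X
  e3 : ∀ c ∈ Y, Prim c → (∀ g ∈ Y, g⁻¹ * c * g ∉ X) → ∀ f ∈ X ⊔ Y, f ∈ Ep c → f ∈ Y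

/-- The common conclusions for an adjunction `B ≤ T` at the top scale `μ`. -/
structure TopOut (μ : a.K) (B T : Subgroup (MM Γ a)) : Prop where
  gc : GC0 T
  bd : T ≤ ball Γ μ
  fin : FinRed T B B
  per : PerRed T B B
  top : ∀ t ∈ T, t ∉ B → Ls μ (ln t)

/-- homomorphisms on `B` extend to letters `u i` conjugating `K i` to `K' i` -/
def ExtL (B : Subgroup (MM Γ a)) {r : ℕ} (u : Fin r → MM Γ a) : Prop :=
  ∀ (G : Type) [Group G] (θ0 : B →* G) (ν : Fin r → G),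
    (∀ i (x y : B), (y : MM Γ a) = (u i)⁻¹ * x * u i → θ0 y = (ν i)⁻¹ * θ0 x * ν i) →
    ∃ θ : ↥(B ⊔ Subgroup.closure (Set.range u)) →* G,
      (∀ x : B, θ ⟨x, (le_sup_left : B ≤ _) x.2⟩ = θ0 x) ∧
      ∀ i, θ ⟨u i, (le_sup_right : _ ≤ B ⊔ _) (Subgroup.subset_closure ⟨i, rfl⟩)⟩ = ν i

/-- homomorphisms on `B` extend to the exponents `ipow c (k q)` -/
def ExtE (B : Subgroup (MM Γ a)) (c : MM Γ a) (k : ℚ →+ a.Z) : Prop :=
  ∀ (G : Type) [Group G] (θ0 : B →* G) (ν : Multiplicative ℚ →* G),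
    (∀ (x : B) (q : ℚ), (x : MM Γ a) ∈ Ep c → Commute (θ0 x) (ν (.ofAdd q))) →
    (∀ (x : B) (q : ℚ), InE c x → (x : MM Γ a) ∉ Ep c →
      θ0 x * ν (.ofAdd q) * (θ0 x)⁻¹ = ν (.ofAdd (-q))) →
    ∃ θ : ↥(B ⊔ Subgroup.closure (Set.range fun q => ipow c (k q))) →* G,
      (∀ x : B, θ ⟨x, (le_sup_left : B ≤ _) x.2⟩ = θ0 x) ∧
      ∀ q, θ ⟨ipow c (k q), (le_sup_right : _ ≤ B ⊔ _) (Subgroup.subset_closure ⟨q, rfl⟩)⟩ =
        ν (.ofAdd q)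

/-- A retraction from a subgroup of the extension `b` to the ambient `a` that almost does not
increase lengths, is injective on torsion and respects periodicity. -/
structure Retr (E : Ext a b) (T : Subgroup (MM Γ b)) (ρ : T →* MM Γ a) (n : ℕ) : Prop where
  lip : ∀ t : T, ¬ Big (n * E.mp (ln (ρ t)) - (n + 1) * ln (t : MM Γ b))
  tor : ∀ t : T, IsOfFinOrder t → ρ t = 1 → t = 1
  per : ∀ c f : T, Prim (c : MM Γ b) → (f : MM Γ b) ∈ Ep (c : MM Γ b) →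
    Ll (md (c : MM Γ b)) (md (f : MM Γ b)) →
    (∃ ν : a.K, Big ν ∧ Ll (md (c : MM Γ b)) (E.mp ν) ∧ Ls (E.mp ν) (md (f : MM Γ b))) →
    ¬ IsOfFinOrder (ρ c)

/-- An admissible deformation of the finite set `A`, with precision `1 / n`, fixing `D`. -/
structure Adm (E : Ext a b) (A : Finset (MM Γ a)) (D : Set (MM Γ a)) (n : ℕ)
    (T : Subgroup (MM Γ b)) (ι : MM Γ a → T) (ρ : T →* MM Γ a) : Prop where
  gc : GC0 T
  retr : Retr E T ρ n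
  mul : ∀ x ∈ A, ∀ y ∈ A, x * y ∈ A → ι (x * y) = ι x * ι y
  fix : ∀ x ∈ A, x ∈ D ∨ x ∈ std Γ a → (ι x : MM Γ b) = E.hom Γ x
  sec : ∀ x ∈ A, ρ (ι x) = x
  ni : ∀ x ∈ A, ¬ Big (n * ln (ι x : MM Γ b) - (n + 1) * E.mp (ln x))

/-- the product of blocks and joints -/
def weave {G : Type} [Group G] : (r : ℕ) → (Fin (r + 1) → G) → (Fin r → G) → G
  | 0, h, _ => h 0
  | r + 1, h, z => h 0 * z 0 * weave r (Fin.tail h) (Fin.tail z)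

/-- `y` is an almost geodesic product at scale `μ` of blocks `h` from `H` and negligible joints `z`. -/
structure Dec (μ : a.K) (H : Subgroup (MM Γ a)) (y : MM Γ a) (r : ℕ) (h : Fin (r + 1) → MM Γ a)
    (z : Fin r → MM Γ a) : Prop where
  mem : ∀ i, h i ∈ H
  bd : ∀ i, Ls (ln (h i)) μ
  tin : ∀ i, Ll (ln (z i)) μ
  eq : y = weave r h z
  add : Ll (∑ i, ln (h i) - ln y) μ

/-- The shape of a descending chain of decompositions. -/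
structure Shape (Γ : HG) (a : Amb) where
  k : ℕ → ℕ
  r : (n : ℕ) → Fin (k n) → ℕ
  h : (n : ℕ) → (i : Fin (k n)) → Fin (r n i + 1) → MM Γ a
  e : (n : ℕ) → ((i : Fin (k n)) × Fin (r n i)) ≃ Fin (k (n + 1))

/-- one substitution step -/
def Shape.up (S : Shape Γ a) (n : ℕ) (z : Fin (S.k (n + 1)) → MM Γ a) : Fin (S.k n) → MM Γ a :=
  fun i => weave (S.r n i) (S.h n i) fun j => z (S.e n ⟨i, j⟩)

/-- the composite substitution down to level zero -/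
def Shape.top (S : Shape Γ a) : (n : ℕ) → (Fin (S.k n) → MM Γ a) → Fin (S.k 0) → MM Γ a
  | 0, z => z
  | n + 1, z => S.top n (S.up n z)

end Pool.Agent.P.MP_dba3d2_lc
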