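import Pool.Agent.P.MP_dba3d2_lc.A.Geo0

/-! Periodic chains and block words. -/

namespace Pool.Agent.P.MP_dba3d2_lc

open Filter MP_4b59b0_al

/-- A chain `P 0, ..., P n` of long periodic blocks, consecutive blocks having independent periods. -/
structure PCh (Γ : HG) (c T L U n : ℕ) (P h : ℕ → Γ.G) : Prop where
  bt : ∀ i j k, i ≤ j → j ≤ k → k ≤ n → Γ.sp.Bt c (P i) (P j) (P k)
  lo : ∀ t < n, L ≤ Γ.sp.d (P t) (P (t + 1))
  hi : ∀ t < n, Γ.sp.d (P t) (P (t + 1)) ≤ U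
  inf : ∀ t < n, ¬ IsOfFinOrder (h t)
  mv : ∀ t < n, Γ.sp.d (P t) (h t • P t) ≤ T ∧ Γ.sp.d (P (t + 1)) (h t • P (t + 1)) ≤ T
  ind : ∀ t, t + 1 < n → ¬ Commute (h (t + 1)) (h t ^ Γ.e)

/-- translation of a periodic chain -/
theorem PCh.smul {Γ : HG} {c T L U n : ℕ} {P h : ℕ → Γ.G} (H : PCh Γ c T L U n P h) (g : Γ.G) :
    PCh Γ c T L U n (fun t => g • P t) fun t => g * h t * g⁻¹ where
  bt i j k a b d := Γ.iso.bt g (H.bt i j k a b d)
  lo t ht := by rw [Γ.iso]; exact H.lo t ht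
  hi t ht := by rw [Γ.iso]; exact H.hi t ht
  inf t ht := fun e => H.inf t ht (by
    simpa [mul_assoc] using (MulAut.conj g).symm.toMonoidHom.isOfFinOrder e)
  mv t ht := by rw [Γ.iso.disp_conj, Γ.iso.disp_conj]; exact H.mv t ht
  ind t ht := fun e => H.ind t ht (by
    rw [conj_pow] at e
    simpa [mul_assoc] using e.map (MulAut.conj g).symm)

/-- reversal of a periodic chain -/
theorem PCh.rev {Γ : HG} {c T L U n : ℕ} {P h : ℕ → Γ.G} (H : PCh Γ c T L U n P h) :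
    PCh Γ c T L U n (fun t => P (n - t)) fun t => h (n - (t + 1)) where
  bt i j k a b d := (H.bt (n - k) (n - j) (n - i) (by omega) (by omega) (by omega)).symm
  lo t ht := by
    have := H.lo (n - (t + 1)) (by omega)
    rwa [show n - (t + 1) + 1 = n - t by omega, Γ.sp.symm] at this
  hi t ht := by
    have := H.hi (n - (t + 1)) (by omega)
    rwa [show n - (t + 1) + 1 = n - t by omega, Γ.sp.symm] at this
  inf t ht := H.inf _ (by omega)
  mv t ht := by
    have := H.mv (n - (t + 1)) (by omega)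
    rw [show n - (t + 1) + 1 = n - t by omega] at this
    exact this.symm
  ind t ht := fun e => by
    refine H.ind (n - (t + 1 + 1)) (by omega) ?_
    rw [show n - (t + 1 + 1) + 1 = n - (t + 1) by omega]
    exact (Geo0.ep0 (H.inf _ (by omega)) (H.inf _ (by omega)) e _).2 (Commute.self_pow _ _)

/-- Block words: `w i b n` consists of `n` blocks of length about `b`. -/
structure BWp (Γ : HG) {r : ℕ} (K : Fin r → Subgroup Γ.G) (C : ℕ) (w : Fin r → ℕ → ℕ → Γ.G) :
    Prop where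
  comm : ∀ i b n, ∀ k ∈ K i, Commute (w i b n) k
  lo : ∀ i b n, n * b ≤ Γ.len (w i b n) + C * n
  hi : ∀ i b n, Γ.len (w i b n) ≤ n * b + C * n * (n + 1)
  ov : ∀ i j b b' n n' D g p q, Γ.sp.Bt D 1 p (w i b n) → Γ.sp.Bt D 1 q (w i b n) →
    Γ.sp.Bt D g p (g * w j b' n') → Γ.sp.Bt D g q (g * w j b' n') →
    C * (b + b' + n + n' + D + 1) ≤ Γ.sp.d p q →
    i = j ∧ b ≤ b' + C * (n' + 1) ∧ b' ≤ b + C * (n + 1) ∧ (b = b' → n = n' → g ∈ K i)

/-- an internal natural number as a length -/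
def nK {a : Amb} (f : a.I → ℕ) : a.K := Germ.ofFun fun j => (f j : ℝ)

/-- an internal block word -/
def gw {Γ : HG} {a : Amb} (w : ℕ → ℕ → Γ.G) (b n : a.I → ℕ) : MM Γ a :=
  Germ.ofFun fun j => w (b j) (n j)

end Pool.Agent.P.MP_dba3d2_lc
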