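import Pool.Agent.P.MP_dba3d2_lc.A.Iface
import Pool.Agent.P.MP_dba3d2_lc.A.Iface2

/-! Step ELEM of the stability project. -/

namespace Pool.Agent.P.MP_dba3d2_lc

open Filter

namespace Elem

open Bas2A

variable {Γ : HG} {a : Amb} {c f g : MM Γ a}

theorem mem : f ∈ Ep c ↔ Commute f (c ^ Γ.e) := Subgroup.mem_centralizer_singleton_iff

theorem self (c : MM Γ a) : c ∈ Ep c := mem.2 (Commute.self_pow _ _)

theorem ninf {c : a.I → Γ.G} (h : ¬ IsOfFinOrder (Germ.ofFun c : MM Γ a)) :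
    ∀ᶠ i in (a.V : Filter a.I), ¬ IsOfFinOrder (c i) := by
  rwa [fin_coe, ← Ultrafilter.eventually_not] at h

theorem comm (hc : ¬ IsOfFinOrder c) (hf : f ∈ Ep c) (hg : g ∈ Ep c) : Commute (f ^ Γ.e) g := by
  induction c using Germ.inductionOn with | h c =>
  induction f using Germ.inductionOn with | h f =>
  induction g using Germ.inductionOn with | h g =>
  refine Germ.coe_eq.2 ?_
  filter_upwards [ninf hc, (ep_coe c f).1 hf, (ep_coe c g).1 hg] with i h1 h2 h3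
  exact Γ.good.comm _ _ _ h1 h2 h3

theorem ep_eq (hc : ¬ IsOfFinOrder c) (hf : f ∈ Ep c) (hf' : ¬ IsOfFinOrder f) : Ep f = Ep c :=
  Subgroup.ext fun _ => ⟨fun hg => mem.2 (comm hf' (mem.2 (comm hc hf (self c)).symm) hg).symm,
    fun hg => mem.2 (comm hc hf hg).symm⟩

theorem prim (H : S_A_EL0) (hc : ¬ IsOfFinOrder c) : ∃ c0, Prim c0 ∧ Ep c0 = Ep c := by
  induction c using Germ.inductionOn with | h c =>
  obtain ⟨c0, h⟩ := ((ninf hc).mono fun i hi => (H Γ _ hi).1).choice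
  have h1 := (prim_coe c0).2 (h.mono fun i hi => hi.1)
  exact ⟨_, h1, ep_eq hc ((ep_coe c c0).2 (h.mono fun i hi => hi.2)) h1.1⟩

theorem tors (H : S_A_EL0) (hc : ¬ IsOfFinOrder c) (hf : f ∈ Ep c) (hg : g ∈ Ep c) :
    IsOfFinOrder (f * g * f⁻¹ * g⁻¹) ∧
      (IsOfFinOrder f → IsOfFinOrder g → IsOfFinOrder (f * g)) := by
  induction c using Germ.inductionOn with | h c =>
  induction f using Germ.inductionOn with | h f =>
  induction g using Germ.inductionOn with | h g =>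
  have h : ∀ᶠ i in (a.V : Filter a.I), IsOfFinOrder (f i * g i * (f i)⁻¹ * (g i)⁻¹) ∧
      (IsOfFinOrder (f i) → IsOfFinOrder (g i) → IsOfFinOrder (f i * g i)) := by
    filter_upwards [ninf hc, (ep_coe c f).1 hf, (ep_coe c g).1 hg] with i h1 h2 h3
    exact (H Γ _ h1).2.1 _ _ h2 h3
  refine ⟨(fin_coe fun i => f i * g i * (f i)⁻¹ * (g i)⁻¹).2 (h.mono fun i hi => hi.1),
    fun h1 h2 => (fin_coe fun i => f i * g i).2 ?_⟩
  filter_upwards [h, (fin_coe f).1 h1, (fin_coe g).1 h2] with i k1 k2 k3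
  exact k1.2 k2 k3

theorem ine (H : S_A_EL0) (hc : ¬ IsOfFinOrder c) (h : g * c * g⁻¹ ∈ Ep c) : InE c g := by
  induction c using Germ.inductionOn with | h c =>
  induction g using Germ.inductionOn with | h g =>
  have k : ∀ᶠ i in (a.V : Filter a.I), g i * c i ^ Γ.e * (g i)⁻¹ = c i ^ Γ.e ∨
      g i * c i ^ Γ.e * (g i)⁻¹ = (c i ^ Γ.e)⁻¹ := by
    filter_upwards [ninf hc, (ep_coe c fun i => g i * c i * (g i)⁻¹).1 h] with i h1 h2
    exact (H Γ _ h1).2.2 _ h2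
  exact (Ultrafilter.eventually_or.1 k).imp Germ.coe_eq.2 Germ.coe_eq.2

theorem cj (h : InE c g) : Cj g c c := by
  refine Subgroup.ext fun x => ?_
  rw [mem, mem, conj_pow]
  rcases h with h | h <;> rw [h]
  exact Commute.inv_right_iff

theorem inv (h : InE c g) (hg : g ∉ Ep c) : g * c ^ Γ.e * g⁻¹ = (c ^ Γ.e)⁻¹ :=
  h.resolve_left fun e => hg (mem.2 (mul_inv_eq_iff_eq_mul.1 e))

theorem fin (hc : ¬ IsOfFinOrder c) (h : InE c g) (hg : g ∉ Ep c) : IsOfFinOrder g := by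
  by_contra k
  have e := inv h hg
  have h2 : g ^ 2 ∈ Ep c := by
    refine mem.2 (mul_inv_eq_iff_eq_mul.1 ?_)
    have h3 : g ^ 2 * c ^ Γ.e * (g ^ 2)⁻¹ = g * (g * c ^ Γ.e * g⁻¹) * g⁻¹ := by
      simp only [pow_two, mul_inv_rev, mul_assoc]
    have h4 : g * (c ^ Γ.e)⁻¹ * g⁻¹ = (g * c ^ Γ.e * g⁻¹)⁻¹ := by
      simp only [mul_inv_rev, inv_inv, mul_assoc]
    rw [h3, e, h4, e, inv_inv]
  refine hg (ep_eq hc h2 (Geo0.pow_inf k two_ne_zero) ▸ mem.2 ?_)
  exact (Commute.self_pow g 2).pow_right _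

theorem ipw (hc : ¬ IsOfFinOrder c) (k : a.Z) (hk : k ≠ 0) : ¬ IsOfFinOrder (ipow c k) := by
  induction c using Germ.inductionOn with | h c =>
  induction k using Germ.inductionOn with | h k =>
  intro h
  refine hk (Germ.coe_eq.2 ?_)
  filter_upwards [ninf hc, (fin_coe fun i => c i ^ k i).1 h] with i h1 h2
  by_contra e
  exact Geo0.zpow_inf h1 e h2

theorem last (H : S_A_EL0) (hc : ¬ IsOfFinOrder c) (h : InE c g) (hg : g ∉ Ep c) (hf : f ∈ Ep c) :
    g * f ^ Γ.e * g⁻¹ = (f ^ Γ.e)⁻¹ := by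
  by_cases k : IsOfFinOrder f
  · have e : f ^ Γ.e = 1 := by
      induction f using Germ.inductionOn with | h f =>
      exact Germ.coe_eq.2 (((fin_coe f).1 k).mono fun i hi => Γ.good.tors _ hi)
    simp [e]
  · have e := ep_eq hc hf k
    have h1 : g * f * g⁻¹ ∈ Ep c := by
      have := (mem.1 hf).map (MulAut.conj g)
      rw [MulAut.conj_apply, MulAut.conj_apply, inv h hg] at this
      exact mem.2 (Commute.inv_right_iff.1 this)
    exact inv (ine H k (e ▸ h1)) (e ▸ hg)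

end Elem

open Elem in
theorem p_ELEM (hA_EL0 : S_A_EL0) :
    S_ELEM := fun _ _ c hc =>
  ⟨prim hA_EL0 hc, fun _ hf hf' => ep_eq hc hf hf', fun _ hf _ hg => (tors hA_EL0 hc hf hg).2,
    fun g => ⟨cj, fun h => ine hA_EL0 hc ((show Ep (g * c * g⁻¹) = Ep c from h) ▸ self _)⟩,
    fun _ => fin hc, ipw hc,
    fun k => mem.2 ((commute_ipow (Commute.refl c) k).symm.pow_right _),
    fun _ hf _ hg => comm hc hf hg, fun _ hf _ hg => (tors hA_EL0 hc hf hg).1,
    fun _ h hg _ hf => last hA_EL0 hc h hg hf⟩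

end Pool.Agent.P.MP_dba3d2_lc
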