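import Pool.Agent.P.MP_dba3d2_lc.A.Iface
import Pool.Agent.P.MP_dba3d2_lc.A.Iface2

/-! Step FRAME of the stability project. -/

namespace Pool.Agent.P.MP_dba3d2_lc

open Filter

namespace Frame

variable {Γ : HG} {a : Amb} {μ : a.K}

theorem stab_iff {y g : MM Γ a} :
    Stab μ 1 y g ↔ Ll (ln g) μ ∧ Ll (ln (y⁻¹ * g * y)) μ := by
  simp only [Stab, ds, inv_one, one_mul, mul_one, mul_assoc]

theorem ll_mul {g h : MM Γ a} (hg : Ll (ln g) μ) (hh : Ll (ln h) μ) : Ll (ln (g * h)) μ :=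
  Ll.mono_left (ln_mul_le g h) (hg.add hh)

theorem ll_inv {g : MM Γ a} (hg : Ll (ln g) μ) : Ll (ln g⁻¹) μ := by rwa [ln_inv]

theorem fin_comap {G H : Type} [Group G] [Group H] (φ : G →* H) (hφ : Function.Injective φ)
    (K : Subgroup H) (hK : Finite K) : Finite (K.comap φ) :=
  Finite.of_injective (fun x : K.comap φ => (⟨φ x, x.2⟩ : K)) fun _ _ h =>
    Subtype.ext (hφ (congrArg Subtype.val h))

theorem finm (hFINM : S_FINM) (hμ : Big μ) (K : Subgroup (MM Γ a)) (hK : Finite K)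
    (h : ∀ k ∈ K, Ll (ln k) μ) :
    ∃ p, (∀ k ∈ K, p⁻¹ * k * p ∈ std Γ a) ∧ Ll (ln p) μ := by
  obtain ⟨p, h1, k, hk, h2⟩ := hFINM Γ a K hK
  exact ⟨p, h1, Ll.ls_left h2 ((h k hk).add (big_iff_ll.1 hμ))⟩

theorem fix (u : MM Γ a) (K : Subgroup Γ.G) (hK : Finite K)
    (h : ∀ k ∈ K, u⁻¹ * cst Γ a k * u ∈ std Γ a) :
    ∃ γ : Γ.G, ∀ k ∈ K, u⁻¹ * cst Γ a k * u = cst Γ a (γ⁻¹ * k * γ) := by
  induction u using Germ.inductionOn with | h f =>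
  choose k' hk' using fun k : K => h k k.2
  have h1 : ∀ k : K, ∀ᶠ j in (a.V : Filter a.I), k' k = (f j)⁻¹ * k * f j := fun k =>
    Germ.coe_eq.1 (hk' k)
  obtain ⟨j, hj⟩ := (eventually_all.2 h1).exists
  exact ⟨f j, fun k hk => by rw [← hk' ⟨k, hk⟩, hj ⟨k, hk⟩]⟩

end Frame

open Frame in
theorem p_FRAME (hTORS : S_TORS) (hFINM : S_FINM) (hA_FR2 : S_A_FR2) :
    S_FRAME := by
  intro Γ a μ y hμ hy hP
  have h0 := hμ.pos.le
  have hK0 : Finite (StabG μ 1 y) := (hTORS Γ a _ fun k hk => by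
    by_contra h
    exact hP ⟨k, h, (mem_stabG h0).1 hk⟩).1
  obtain ⟨z, hz, hzl⟩ := finm hFINM hμ _ hK0 fun k hk => (stab_iff.1 ((mem_stabG h0).1 hk)).1
  let K : Subgroup Γ.G := (StabG μ 1 y).comap ((MulAut.conj z).toMonoidHom.comp (cst Γ a))
  have hK : ∀ x, x ∈ K ↔ z * cst Γ a x * z⁻¹ ∈ StabG μ 1 y := fun _ => Iff.rfl
  have hKf : Finite K := fin_comap _ ((MulAut.conj z).injective.comp cst_injective) _ hK0
  have hiff : ∀ g, Stab μ 1 y g ↔ z⁻¹ * g * z ∈ K.map (cst Γ a) := by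
    intro g
    rw [← mem_stabG h0]
    constructor
    · intro hg
      obtain ⟨x, hx⟩ := hz g hg
      refine ⟨x, (hK x).2 ?_, hx⟩
      rw [hx]
      simpa [mul_assoc] using hg
    · rintro ⟨x, hx, e⟩
      have := (hK x).1 hx
      rw [e] at this
      simpa [mul_assoc] using this
  let K1 : Subgroup (MM Γ a) := (StabG μ 1 y).comap (MulAut.conj y).toMonoidHom
  have hK1 : ∀ x, x ∈ K1 ↔ y * x * y⁻¹ ∈ StabG μ 1 y := fun _ => Iff.rfl
  obtain ⟨z2, hz2, hzl2⟩ := finm hFINM hμ K1 (fin_comap _ (MulAut.conj y).injective _ hK0)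
    fun k hk => by
      have := (stab_iff.1 ((mem_stabG h0).1 ((hK1 k).1 hk))).2
      simpa [mul_assoc] using this
  obtain ⟨γ, hγ⟩ := fix (z⁻¹ * y * z2) K hKf fun k hk => by
    have h1 : y⁻¹ * (z * cst Γ a k * z⁻¹) * y ∈ K1 := by
      rw [hK1]
      simpa [mul_assoc] using (hK k).1 hk
    simpa [mul_assoc] using hz2 _ h1
  have hzl3 : Ll (ln (z2 * (cst Γ a γ)⁻¹)) μ :=
    ll_mul hzl2 (ll_inv ((mem_tiny h0).1 (std_le_tiny hμ ⟨γ, rfl⟩)))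
  have hcomm : ∀ k ∈ K, Commute (z⁻¹ * y * (z2 * (cst Γ a γ)⁻¹)) (cst Γ a k) := by
    intro k hk
    have h1 := hγ k hk
    rw [map_mul, map_mul, map_inv] at h1
    rw [← mul_assoc]
    generalize z⁻¹ * y * z2 = u at h1
    have h2 : cst Γ a k * u = u * ((cst Γ a γ)⁻¹ * cst Γ a k * cst Γ a γ) := by
      rw [← h1]; group
    rw [Commute, SemiconjBy, ← mul_assoc, h2]
    group
  generalize z2 * (cst Γ a γ)⁻¹ = z' at hzl3 hcomm
  refine ⟨z, z', hzl, hzl3, K, hA_FR2 Γ a μ (z⁻¹ * y * z') K hμ ?_ hKf hcomm fun g hg => ?_,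
    hcomm, hiff⟩
  · rw [← not_ll_iff' hμ.pos]
    intro h
    have h1 := ll_mul (ll_mul hzl h) (ll_inv hzl3)
    rw [show z * (z⁻¹ * y * z') * z'⁻¹ = y by group] at h1
    exact h1.not_ls hμ.pos hy
  · obtain ⟨h1, h2⟩ := stab_iff.1 hg
    have h3 : Stab μ 1 y (z * g * z⁻¹) := by
      refine stab_iff.2 ⟨ll_mul (ll_mul hzl h1) (ll_inv hzl), ?_⟩
      have h4 := ll_mul (ll_mul hzl3 h2) (ll_inv hzl3)
      rwa [show z' * ((z⁻¹ * y * z')⁻¹ * g * (z⁻¹ * y * z')) * z'⁻¹ =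
        y⁻¹ * (z * g * z⁻¹) * y by group] at h4
    have h5 := (hiff _).1 h3
    rwa [show z⁻¹ * (z * g * z⁻¹) * z = g by group] at h5

end Pool.Agent.P.MP_dba3d2_lc
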