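import Pool.Agent.P.MP_dba3d2_lc.A.Bas1
import Pool.Agent.P.MP_dba3d2_lc.A.Bas2
import Pool.Agent.P.MP_dba3d2_lc.A.Defs2
import Pool.Agent.P.MP_4b59b0_al.Isom
import Pool.Agent.P.MP_a48cb8_al.Basic

/-! The Cayley graph of a hyperbolic group as an integer valued metric space; basic lemmas. -/

namespace Pool.Agent.P.MP_dba3d2_lc

open Filter MP_4b59b0_al

theorem HG0.point (R : HG0) (k : ℕ) : ∀ g : R.G, k ≤ R.len g →
    ∃ p, R.len p = k ∧ k + R.len (p⁻¹ * g) = R.len g := by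
  induction k with
  | zero => exact fun g _ => ⟨1, (R.len_eq_zero 1).2 rfl, by simp⟩
  | succ k ih =>
    intro g hg
    obtain ⟨p, h1, h2⟩ := ih g (by omega)
    obtain ⟨s, h3, h4⟩ := R.geo (p⁻¹ * g) (R.len g - k - 1) (by omega)
    have h5 := R.len_mul p s
    have h6 := R.len_mul (p * s) (s⁻¹ * (p⁻¹ * g))
    rw [mul_assoc, mul_inv_cancel_left, mul_inv_cancel_left] at h6
    refine ⟨p * s, by omega, ?_⟩
    rw [mul_inv_rev, mul_assoc]
    omega

/-- The word metric. -/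
def HG0.sp (R : HG0) : Sp R.G where
  d x y := R.len (x⁻¹ * y)
  d_self x := by rw [inv_mul_cancel]; exact (R.len_eq_zero 1).2 rfl
  eq_of x y h := inv_mul_eq_one.1 ((R.len_eq_zero _).1 h)
  symm x y := by rw [← R.len_inv, mul_inv_rev, inv_inv]
  tri x y z := by
    have := R.len_mul (x⁻¹ * y) (y⁻¹ * z)
    rwa [mul_assoc, mul_inv_cancel_left] at this
  geod x y k hk := by
    obtain ⟨p, h1, h2⟩ := R.point k _ hk
    refine ⟨x * p, by rw [inv_mul_cancel_left, h1], ?_⟩
    rw [inv_mul_cancel_left, h1, mul_inv_rev, mul_assoc, h2]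

namespace HG0
variable (R : HG0)

theorem d_def (x y : R.G) : R.sp.d x y = R.len (x⁻¹ * y) := rfl
theorem d_one (x : R.G) : R.sp.d 1 x = R.len x := by rw [d_def, inv_one, one_mul]
theorem d_conj (p g : R.G) : R.sp.d p (g • p) = R.len (p⁻¹ * g * p) := by
  rw [d_def, smul_eq_mul, mul_assoc]
theorem d_one_smul (g : R.G) : R.sp.d 1 (g • 1) = R.len g := by rw [d_one, smul_eq_mul, mul_one]

theorem iso : R.sp.Iso R.G := fun g x y => by
  rw [d_def, d_def, smul_eq_mul, smul_eq_mul, mul_inv_rev, mul_assoc, inv_mul_cancel_left]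

theorem hyp' : R.sp.Hyp (2 * R.δ) := fun x y z w => by
  have h := R.hyp (w⁻¹ * x) (w⁻¹ * y) (w⁻¹ * z)
  simp only [mul_inv_rev, inv_inv, mul_assoc, mul_inv_cancel_left] at h
  have e1 := R.sp.symm w z
  have e2 := R.sp.symm w y
  have e3 := R.sp.symm w x
  simp only [d_def] at *
  omega

/-- balls are finite -/
theorem fin_ball (p : R.G) (n : ℕ) : {x | R.sp.d p x ≤ n}.Finite :=
  ((R.fin n).image (p * ·)).subset fun x hx => ⟨p⁻¹ * x, hx, mul_inv_cancel_left _ _⟩

/-- the displacement is positive -/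
theorem one_le_d {g : R.G} (h : g ≠ 1) (p : R.G) : 1 ≤ R.sp.d p (g • p) :=
  Sp.d_pos fun e => h (by rw [smul_eq_mul] at e; exact mul_eq_right.1 e.symm)

/-- the powers of an element of infinite order leave every ball -/
theorem unbdd {c : R.G} (h : ¬ IsOfFinOrder c) (p : R.G) (n : ℕ) :
    ∃ k : ℕ, n < R.sp.d p (c ^ k • p) := by
  by_contra e
  refine Set.infinite_range_of_injective (f := fun k : ℕ => c ^ k • p) (fun i j hij => ?_)
    ((R.fin_ball p n).subset ?_)
  · exact injective_pow_iff_not_isOfFinOrder.2 h (mul_right_cancel hij)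
  · rintro _ ⟨k, rfl⟩
    exact not_lt.1 fun h' => e ⟨k, h'⟩

/-- the same space in the second library -/
@[reducible] def gs : MP_a48cb8_al.GeoSpace R.G where
  dd := R.sp.d
  dd_self := R.sp.d_self
  dd_comm := R.sp.symm
  dd_tri := R.sp.tri
  geo x y k h := by
    obtain ⟨m, h1, h2⟩ := R.sp.geod x y k h
    exact ⟨m, h1, by omega⟩

theorem gs_hyp : @MP_a48cb8_al.Hyp R.G R.gs (2 * R.δ) := fun x y z w => by
  have h := R.hyp' x z y w
  have e := R.sp.symm z y
  show R.sp.d x z + R.sp.d y w ≤ R.sp.d x y + R.sp.d z w + _ ∨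
    R.sp.d x z + R.sp.d y w ≤ R.sp.d x w + R.sp.d y z + _
  omega

/-- commutators of elements that almost preserve a long segment almost fix its middle -/
theorem comm_small {T : ℕ} {a b x y p : R.G} (hax : R.sp.d x (a • x) ≤ T)
    (hay : R.sp.d y (a • y) ≤ T) (hbx : R.sp.d x (b • x) ≤ T) (hby : R.sp.d y (b • y) ≤ T)
    (hp : R.sp.Bt 0 x p y) (h1 : 4 * T + 8 * R.δ + 1 ≤ R.sp.d x p)
    (h2 : 4 * T + 8 * R.δ + 1 ≤ R.sp.d p y) :
    R.sp.d p ((a * b * a⁻¹ * b⁻¹) • p) ≤ 60 * R.δ := by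
  let _ := R.gs
  have : MP_a48cb8_al.IsomAct R.G R.G := ⟨R.iso⟩
  have := R.gs_hyp.comm_small hax hay hbx hby hp (show _ ≤ R.sp.d x p by omega)
    (show _ ≤ R.sp.d p y by omega)
  exact le_trans this (by omega)

/-- an element of finite order that almost preserves a long segment almost fixes its middle -/
theorem tors_small {T : ℕ} {a x y p : R.G} (ha : IsOfFinOrder a) (hax : R.sp.d x (a • x) ≤ T)
    (hay : R.sp.d y (a • y) ≤ T) (hp : R.sp.Bt 0 x p y) (h1 : 2 * T + 4 * R.δ + 1 ≤ R.sp.d x p)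
    (h2 : 2 * T + 4 * R.δ + 1 ≤ R.sp.d p y) : R.sp.d p (a • p) ≤ 20 * R.δ := by
  let _ := R.gs
  have : MP_a48cb8_al.IsomAct R.G R.G := ⟨R.iso⟩
  by_contra h
  obtain ⟨n, h0, hn⟩ := isOfFinOrder_iff_pow_eq_one.1 ha
  have := R.gs_hyp.lox_of_shift hax hay hp (show _ ≤ R.sp.d x p by omega)
    (show _ ≤ R.sp.d p y by omega) (show _ < R.sp.d p (a • p) by omega) n
  rw [hn, one_smul] at this
  have e : MP_a48cb8_al.dd p p = 0 := R.sp.d_self p
  omega

/-- going towards an almost fixed point -/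
theorem descent {T l : ℕ} {f x z q : R.G} (hz : R.sp.d z (f • z) ≤ l) (hx : R.sp.d x (f • x) ≤ T)
    (hq : R.sp.Bt 0 x q z) (h : 2 * T + 2 * R.δ < 2 * R.sp.d x q) :
    R.sp.d q (f • q) ≤ l + 4 * R.δ := by
  let _ := R.gs
  have : MP_a48cb8_al.IsomAct R.G R.G := ⟨R.iso⟩
  exact le_trans (R.gs_hyp.descent hz hx hq h) (by omega)

end HG0

namespace Geo0

variable {V : Type} {X : Sp V} {δ : ℕ}

/-- gluing two local betweenness relations -/
theorem glue (H : X.Hyp δ) {c c' : ℕ} {x y z w : V} (h1 : X.Bt c x y z) (h2 : X.Bt c' y z w)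
    (h : c + c' + δ < 2 * X.d y z) : X.Bt (c + δ) x y w ∧ X.Bt (c' + δ) x z w := by
  have := H x z y w
  have := H x y z w
  have := H y z x w
  have := X.symm y x; have := X.symm z x; have := X.symm z y
  unfold Sp.Bt at *
  constructor <;> omega

theorem chain1 (H : X.Hyp δ) {c n : ℕ} {P : ℕ → V}
    (h1 : ∀ t, t + 2 ≤ n → X.Bt c (P t) (P (t + 1)) (P (t + 2)))
    (h2 : ∀ t, t + 1 ≤ n → c + 2 * δ < X.d (P t) (P (t + 1))) (i : ℕ) :
    ∀ j, i ≤ j → j + 1 ≤ n → X.Bt (c + δ) (P i) (P j) (P (j + 1)) := by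
  intro j hij
  induction j, hij using Nat.le_induction with
  | base => exact fun _ => Sp.bt_left _ _ _
  | succ j _ ih =>
    intro hn
    have := h2 j (by omega)
    exact (glue H (ih (by omega)) (h1 j hn) (by omega)).2

/-- the chain lemma -/
theorem chain (H : X.Hyp δ) {c n : ℕ} {P : ℕ → V}
    (h1 : ∀ t, t + 2 ≤ n → X.Bt c (P t) (P (t + 1)) (P (t + 2)))
    (h2 : ∀ t, t + 1 ≤ n → c + 2 * δ < X.d (P t) (P (t + 1))) {i j k : ℕ} (hij : i ≤ j)
    (hjk : j ≤ k) (hk : k ≤ n) : X.Bt (c + 2 * δ) (P i) (P j) (P k) := by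
  rcases hjk.eq_or_lt with rfl | hjk
  · exact Sp.bt_right _ _ _
  have a1 := chain1 H h1 h2 i j hij (by omega)
  have a2 := chain1 H (c := c) (n := k - j) (P := fun t => P (k - t)) (fun t ht => by
    have := (h1 (k - (t + 2)) (by omega)).symm
    rwa [show k - (t + 2) + 2 = k - t by omega, show k - (t + 2) + 1 = k - (t + 1) by omega] at this)
    (fun t ht => by
      have := h2 (k - (t + 1)) (by omega)
      rwa [show k - (t + 1) + 1 = k - t by omega, X.symm] at this) 0 (k - j - 1) (by omega)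
    (by omega)
  simp only [Nat.sub_zero, show k - (k - j - 1) = j + 1 by omega,
    show k - (k - j - 1 + 1) = j by omega] at a2
  have := h2 j (by omega)
  exact ((glue H a1 a2.symm (by omega)).1).mono (by omega)

/-- a chain does not come back -/
theorem chain_le (H : X.Hyp δ) {c n : ℕ} {P : ℕ → V}
    (h1 : ∀ t, t + 2 ≤ n → X.Bt c (P t) (P (t + 1)) (P (t + 2)))
    (h2 : ∀ t, t + 1 ≤ n → c + 2 * δ < X.d (P t) (P (t + 1))) :
    ∀ j, j ≤ n → j ≤ X.d (P 0) (P j) := by
  intro j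
  induction j with
  | zero => exact fun _ => Nat.zero_le _
  | succ j ih =>
    intro hj
    have a := chain1 H h1 h2 0 j (Nat.zero_le _) hj
    have := h2 j hj
    have := ih (by omega)
    unfold Sp.Bt at a
    omega

/-- a point well inside `[p, q]` is between `A` and `B` with an error that does not depend on the
errors of `p` and `q` -/
theorem inner (H : X.Hyp δ) {c D : ℕ} {A B p q z : V} (hz : X.Bt c p z q) (hp : X.Bt D A p B)
    (hq : X.Bt D A q B) (h1 : D + c + 3 * δ < X.d p z) (h2 : D + c + 3 * δ < X.d q z) :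
    X.Bt (c + 2 * δ) A z B := by
  have s1 := X.symm p A; have s2 := X.symm q A; have s4 := X.symm z A
  have t3 := X.tri A z B
  rcases H.l1 hz A with a | a
  · rcases H.l1 a B with b | b
    · exfalso; unfold Sp.Bt at *; omega
    · exact b.mono (by omega)
  · rcases H.l1 a B with b | b
    · exfalso; unfold Sp.Bt at *; omega
    · exact b.mono (by omega)

/-- a point of `[A, B]` whose coordinate is between those of `p` and `q` is between them -/
theorem coord (H : X.Hyp δ) {c D : ℕ} {A B p q z : V} (hz : X.Bt c A z B) (hq : X.Bt D A q B)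
    (h1 : X.d A p + c + δ < X.d A z) (h2 : X.d A z + D + c + 2 * δ < X.d A q) :
    X.Bt (c + 2 * δ) p z q := by
  have s1 := X.symm z B; have s2 := X.symm q B; have t := X.tri A z B
  rcases H.l1 hz p with a | a
  · exfalso; unfold Sp.Bt at *; omega
  · rcases H.l1 a q with b | b
    · exfalso; unfold Sp.Bt at *; omega
    · exact b.mono (by omega)

variable {Γ : HG} {a : Amb}

theorem ds_coe (f g : a.I → Γ.G) : ds (Germ.ofFun f : MM Γ a) (Germ.ofFun g) =
    Germ.ofFun fun i => (Γ.sp.d (f i) (g i) : ℝ) := rfl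

/-- the elementary closure depends only on the commensurability class -/
theorem ep0 {c f : Γ.G} (hc : ¬ IsOfFinOrder c) (hf : ¬ IsOfFinOrder f) (h : Commute f (c ^ Γ.e))
    (g : Γ.G) : Commute g (f ^ Γ.e) ↔ Commute g (c ^ Γ.e) :=
  ⟨fun hg => (Γ.good.comm f c g hf
      (Γ.good.comm c f c hc h (Commute.self_pow _ _)).symm hg).symm,
    fun hg => (Γ.good.comm c f g hc h hg).symm⟩

theorem pow_inf {G : Type} [Group G] {c : G} (hc : ¬ IsOfFinOrder c) {n : ℕ} (hn : n ≠ 0) :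
    ¬ IsOfFinOrder (c ^ n) := fun h => hc (h.of_pow hn)

theorem zpow_inf {G : Type} [Group G] {c : G} (hc : ¬ IsOfFinOrder c) {n : ℤ} (hn : n ≠ 0) :
    ¬ IsOfFinOrder (c ^ n) := fun h => hc ((isOfFinOrder_iff_zpow_eq_one.2 (by
  obtain ⟨m, h1, h2⟩ := isOfFinOrder_iff_zpow_eq_one.1 h
  exact ⟨n * m, mul_ne_zero hn h1, by rwa [zpow_mul]⟩)))

end Geo0

end Pool.Agent.P.MP_dba3d2_lc
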