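import Pool.Agent.P.MP_dba3d2_lc.A.Iface
import Pool.Agent.P.MP_dba3d2_lc.A.Iface2

/-! Step GMIC of the stability project. -/

namespace Pool.Agent.P.MP_dba3d2_lc

open Filter

namespace Gmic

theorem le_of (a : Amb) (f g : ℕ → ℝ) (N : ℕ) (h : ∀ n, N ≤ n → f n ≤ g n) :
    (Germ.ofFun (fun p : (a.pow U0).I => f p.1) : (a.pow U0).K) ≤
      Germ.ofFun fun p : (a.pow U0).I => g p.1 := by
  refine Germ.coe_le.2 ?_
  change ∀ᶠ j in (U0 : Filter ℕ), ∀ᶠ _i in (a.V : Filter a.I), f j ≤ g j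
  have := (eventually_ge_atTop N).filter_mono
    (Nat.cofinite_eq_atTop ▸ hyperfilter_le_cofinite : (U0 : Filter ℕ) ≤ atTop)
  exact this.mono fun j hj => Eventually.of_forall fun _ => h j hj

end Gmic

theorem p_GMIC (hA_BW2 : S_A_BW2) (hA_BWM : S_A_BWM) :
    S_GMIC := by
  intro Γ r K hK
  obtain ⟨C, w, hw⟩ := hA_BW2 Γ r K hK
  refine ⟨fun i n => w i n n, fun n => (n : ℝ) * n, fun a => ?_⟩
  have e1 : (a.mk' U0 fun n : ℕ => (((n : ℝ) * n : ℝ) : a.K)) =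
      Germ.ofFun fun p : (a.pow U0).I => (p.1 : ℝ) * p.1 :=
    Bas2A.mk_coe U0 fun (n : ℕ) (_ : a.I) => (n : ℝ) * n
  have e2 : (fun i => a.mk' U0 fun n => cst Γ a (w i n n)) =
      fun i => gw (a := a.pow U0) (w i) Prod.fst Prod.fst :=
    funext fun i => Bas2A.mk_coe U0 fun (n : ℕ) (_ : a.I) => w i n n
  rw [e1, e2]
  have hl : Ll (nK (a := a.pow U0) Prod.fst)
      (Germ.ofFun fun p : (a.pow U0).I => (p.1 : ℝ) * p.1) := fun N =>
    Gmic.le_of a (fun n => (N : ℝ) * n) (fun n => (n : ℝ) * n) N fun n hn => by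
      exact_mod_cast Nat.mul_le_mul_right n hn
  have hb : Big (K := (a.pow U0).K) (Germ.ofFun fun p : (a.pow U0).I => (p.1 : ℝ) * p.1) :=
    fun N => Gmic.le_of a (fun _ => (N : ℝ)) (fun n => (n : ℝ) * n) N fun n hn => by
      exact_mod_cast hn.trans (Nat.le_mul_self n)
  refine ⟨hb, hA_BWM Γ r K C w hw (fun i => (hK i).1) (a.pow U0) _ (fun _ => Prod.fst) Prod.fst
    hb (fun _ => hl) hl fun i => ⟨⟨1 + 2 * C, ?_⟩, ⟨2, ?_⟩⟩⟩
  · refine Gmic.le_of a (fun n => (Γ.len (w i n n) : ℝ))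
      (fun n => ((1 + 2 * C : ℕ) : ℝ) * ((n : ℝ) * n)) 0 fun n _ => ?_
    have h1 := hw.hi i n n
    have h2 := Nat.mul_le_mul_left C (Nat.le_mul_self n)
    exact_mod_cast (by nlinarith : Γ.len (w i n n) ≤ (1 + 2 * C) * (n * n))
  · refine Gmic.le_of a (fun n => (n : ℝ) * n)
      (fun n => ((2 : ℕ) : ℝ) * (Γ.len (w i n n) : ℝ)) (2 * C) fun n hn => ?_
    have h1 := hw.lo i n n
    have h2 := Nat.mul_le_mul_right n hn
    exact_mod_cast (by nlinarith : n * n ≤ 2 * Γ.len (w i n n))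

end Pool.Agent.P.MP_dba3d2_lc
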