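import Mathlib

/-! The notions used in the final statement: the language of groups, stability, hyperbolicity. -/

namespace Pool.Agent.P.MP_dba3d2_lc

open FirstOrder

universe u

/-- The function symbols of the language of groups. -/
inductive GrpFunc : ℕ → Type
  | mul : GrpFunc 2
  | inv : GrpFunc 1
  | one : GrpFunc 0

/-- The first-order language of groups: multiplication, inverse, identity, no relation symbols. -/
def grpLang : Language where
  Functions := GrpFunc
  Relations := fun _ => Empty

/-- A group as a structure for the language of groups. -/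
@[reducible] def grpStructure (G : Type u) [Group G] : grpLang.Structure G where
  funMap := fun {n} (f : GrpFunc n) (v : Fin n → G) =>
    match n, f, v with
    | _, .mul, v => v 0 * v 1
    | _, .inv, v => (v 0)⁻¹
    | _, .one, _ => 1
  RelMap := fun {_} (r : Empty) _ => r.elim

/-- The group `G` satisfies the formula `φ` at the tuples `x` and `y`. -/
def Sat (G : Type u) [Group G] {k l : ℕ} (φ : grpLang.Formula (Fin k ⊕ Fin l)) (x : Fin k → G)
    (y : Fin l → G) : Prop :=
  @Language.Formula.Realize grpLang G (grpStructure G) _ φ (Sum.elim x y)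

/-- Stability: for each formula the lengths of its half graphs are bounded. -/
def IsStable (G : Type u) [Group G] : Prop :=
  ∀ (k l : ℕ) (φ : grpLang.Formula (Fin k ⊕ Fin l)), ∃ n : ℕ,
    ∀ (m : ℕ) (x : Fin m → Fin k → G) (y : Fin m → Fin l → G),
      (∀ i j, Sat G φ (x i) (y j) ↔ i < j) → m ≤ n

/-- Gromov's four point condition for the path metric of a graph. -/
def FourPoint {V : Type u} (X : SimpleGraph V) (δ : ℝ) : Prop :=
  ∀ w x y z : V, (X.dist x y : ℝ) + X.dist z w ≤
    max ((X.dist x z : ℝ) + X.dist y w) ((X.dist y z : ℝ) + X.dist x w) + 2 * δ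

/-- Geodesic triangles of a graph are slim: every vertex on a side is within `δ` of a vertex on one
of the other two sides. -/
def Slim {V : Type u} (X : SimpleGraph V) (δ : ℝ) : Prop :=
  ∀ (x y z : V) (p : X.Walk x y) (q : X.Walk y z) (r : X.Walk z x),
    p.length = X.dist x y → q.length = X.dist y z → r.length = X.dist z x →
    ∀ v ∈ p.support, ∃ w, (w ∈ q.support ∨ w ∈ r.support) ∧ (X.dist v w : ℝ) ≤ δ

/-- Hyperbolic groups: the Cayley graph for some finite generating set is hyperbolic, in the sense
of the four point condition or in the sense of slim triangles. -/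
def IsHyperbolic (G : Type u) [Group G] : Prop :=
  ∃ S : Finset G, Subgroup.closure (S : Set G) = ⊤ ∧ ∃ δ : ℝ, 0 ≤ δ ∧
    (FourPoint (SimpleGraph.mulCayley (S : Set G)) δ ∨ Slim (SimpleGraph.mulCayley (S : Set G)) δ)

end Pool.Agent.P.MP_dba3d2_lc
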