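import Pool.Agent.P.MP_dba3d2_lc.A.Defs

/-! Groups with a real length function: abstract real trees at one scale. -/

namespace Pool.Agent.P.MP_dba3d2_lc

open Filter

/-- A group with a subadditive real length. -/
structure LG where
  W : Type
  [grp : Group W]
  ℓ : W → ℝ
  l_one : ℓ 1 = 0
  l_inv : ∀ g, ℓ g⁻¹ = ℓ g
  l_mul : ∀ g h, ℓ (g * h) ≤ ℓ g + ℓ h

attribute [instance] LG.grp

/-- A group acting transitively on a real tree (given as a pseudo-metric on the group). -/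
structure RT extends LG where
  hyp : ∀ x y z, ℓ (x⁻¹ * y) + ℓ z ≤ max (ℓ (x⁻¹ * z) + ℓ y) (ℓ (y⁻¹ * z) + ℓ x)
  geo : ∀ g t, 0 ≤ t → t ≤ ℓ g → ∃ p, ℓ p = t ∧ ℓ (p⁻¹ * g) = ℓ g - t

namespace LG
variable (R : LG)
/-- distance -/
def d (x y : R.W) : ℝ := R.ℓ (x⁻¹ * y)
/-- `p` lies between `x` and `y` -/
def On (p x y : R.W) : Prop := R.d x p + R.d p y = R.d x y
/-- `g` fixes `p` and `q` -/
def Stab (p q g : R.W) : Prop := R.d p (g * p) = 0 ∧ R.d q (g * q) = 0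
/-- periodic segments -/
def Per (p q : R.W) : Prop := ∃ g, ¬ IsOfFinOrder g ∧ R.Stab p q g
/-- the segment from `p` to `q` lies on a translate of a segment of `M` -/
def HArc (M : Subgroup R.W) (p q : R.W) : Prop :=
  ∃ g, ∃ h ∈ M, R.On p g (g * h) ∧ R.On q g (g * h)
/-- the segment from `1` to `x` is covered by finitely many translates of segments of `M` -/
def Cov (M : Subgroup R.W) (x : R.W) : Prop :=
  ∃ (n : ℕ) (p : ℕ → R.W), p 0 = 1 ∧ p n = x ∧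
    ∑ i ∈ Finset.range n, R.d (p i) (p (i + 1)) = R.ℓ x ∧ ∀ i < n, R.HArc M (p i) (p (i + 1))
/-- a periodic line -/
structure Line (L : ℝ → R.W) : Prop where
  iso : ∀ s t, R.d (L s) (L t) = |s - t|
  per : ∀ s t, s < t → R.Per (L s) (L t)
  rig : ∀ g s t s' t', s < t → R.d (g * L s) (L s') = 0 → R.d (g * L t) (L t') = 0 →
    ∃ ε b : ℝ, (ε = 1 ∨ ε = -1) ∧ ∀ x, R.d (g * L x) (L (ε * x + b)) = 0
end LG

/-- The stability axioms for arc stabilisers. -/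
structure RTA extends RT where
  e : ℕ
  fin : ∀ p q, 0 < toLG.d p q → ¬ toLG.Per p q →
    {g | toLG.Stab p q g}.Finite ∧ {g | toLG.Stab p q g}.ncard ≤ e
  small : ∀ p q, 0 < toLG.d p q → ¬ toLG.Per p q → ∃ ε > 0, ∀ g r, toLG.On r p q →
    toLG.d p (g * p) ≤ ε → toLG.d q (g * q) ≤ ε → ε ≤ toLG.d p r → ε ≤ toLG.d q r →
    toLG.d r (g * r) = 0
  line : ∀ p q, 0 < toLG.d p q → toLG.Per p q →
    ∃ L, toLG.Line L ∧ ∃ s t, toLG.d p (L s) = 0 ∧ toLG.d q (L t) = 0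

/-- `ι` respects the products of `A`, and agrees with `j` on `M` and on elements of length zero. -/
structure PHom {R : LG} {G : Type} [Group G] (A : Finset R.W) (M : Subgroup R.W) (j ι : R.W → G) :
    Prop where
  mul : ∀ x ∈ A, ∀ y ∈ A, x * y ∈ A → ι (x * y) = ι x * ι y
  par : ∀ x ∈ A, x ∈ M ∨ R.ℓ x = 0 → ι x = j x

/-- First outcome of the machine: insertion of letters over finite arc stabilisers. -/
def Out1 (R : LG) (M : Subgroup R.W) (A : Finset R.W) {k : ℕ} (x : Fin k → R.W) : Prop :=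
  ∀ η > 0, ∃ (r : ℕ) (y : Fin r → R.W) (ι : R.W → Monoid.Coprod R.W (FreeGroup (Fin r))) (c : ℝ),
    0 < c ∧ (∀ i, 0 < R.ℓ (y i) ∧ ¬ R.Per 1 (y i)) ∧
    (∀ w ∈ A, Monoid.Coprod.lift (MonoidHom.id _) 1 (ι w) = w) ∧
    ∀ (G : LG) (j : R.W →* G.W) (ν : Fin r → G.W), (∀ w, G.ℓ (j w) ≤ R.ℓ w) →
      (∀ i g, R.Stab 1 (y i) g → Commute (ν i) (j g)) →
      PHom A M j (fun w => Monoid.Coprod.lift j (FreeGroup.lift ν) (ι w)) ∧
      ((∀ i, G.ℓ (ν i) = 0) →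
        ∀ w ∈ A, G.ℓ (Monoid.Coprod.lift j (FreeGroup.lift ν) (ι w)) ≤ R.ℓ w + η) ∧
      ((∀ i, G.ℓ (ν i * j (y i)) = 0) →
        ∑ i, G.ℓ (Monoid.Coprod.lift j (FreeGroup.lift ν) (ι (x i))) ≤ ∑ i, R.ℓ (x i) - c)

/-- Second outcome of the machine: insertion of exponents along a periodic line. -/
def Out2 (R : LG) (M : Subgroup R.W) (A : Finset R.W) {k : ℕ} (x : Fin k → R.W) : Prop :=
  ∃ (L : ℝ → R.W) (ι : R.W → Monoid.Coprod R.W (Multiplicative ℚ)) (c : ℝ),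
    0 < c ∧ R.Line L ∧ (∀ w ∈ A, Monoid.Coprod.lift (MonoidHom.id _) 1 (ι w) = w) ∧
    ∀ (G : LG) (j : R.W →* G.W) (ν : Multiplicative ℚ →* G.W), (∀ w, G.ℓ (j w) ≤ R.ℓ w) →
      (∀ g (ε : ℚ) (b : ℝ), (ε = 1 ∨ ε = -1) → (∀ t, R.d (g * L t) (L (ε * t + b)) = 0) →
        ∀ q : ℚ, j g * ν (.ofAdd q) * (j g)⁻¹ = ν (.ofAdd (ε * q))) →
      PHom A M j (fun w => Monoid.Coprod.lift j ν (ι w)) ∧
      ((∀ (q : ℚ) t, G.d (ν (.ofAdd q) * j (L t)) (j (L t)) = 0) →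
        ∀ w ∈ A, G.ℓ (Monoid.Coprod.lift j ν (ι w)) ≤ R.ℓ w) ∧
      ((∀ (q : ℚ) t, G.d (ν (.ofAdd q) * j (L t)) (j (L (t - q))) = 0) →
        ∑ i, G.ℓ (Monoid.Coprod.lift j ν (ι (x i))) ≤ ∑ i, R.ℓ (x i) - c)

/-- Third outcome of the machine: a convex subgroup with a shortening automorphism, and letters. -/
def Out3 (R : LG) (M : Subgroup R.W) (A : Finset R.W) {k : ℕ} (x : Fin k → R.W) : Prop :=
  ∃ (T : Subgroup R.W) (σ : T ≃* T) (r : ℕ) (y : Fin r → R.W)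
    (ι : R.W → Monoid.Coprod T (FreeGroup (Fin r))) (c : ℝ),
    0 < c ∧ M ≤ T ∧ (∀ h ∈ T, ∀ p, R.On p 1 h → p ∈ T) ∧
    (∀ t : T, (t : R.W) ∈ M ∨ R.ℓ t = 0 → σ t = t) ∧
    (∀ i, 0 < R.ℓ (y i) ∧ ¬ R.Per 1 (y i)) ∧
    (∀ w ∈ A, Monoid.Coprod.lift T.subtype (FreeGroup.lift y) (ι w) = w) ∧
    ∀ (G : LG) (j : T →* G.W) (u : Fin r → G.W),
      (∀ i (g g' : T), R.Stab 1 (y i) g → (g' : R.W) = (y i)⁻¹ * g * y i →
        (u i)⁻¹ * j g * u i = j g') →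
      (∀ w ∈ A, ∀ w' ∈ A, w * w' ∈ A → Monoid.Coprod.lift j (FreeGroup.lift u) (ι (w * w')) =
        Monoid.Coprod.lift j (FreeGroup.lift u) (ι w) *
          Monoid.Coprod.lift j (FreeGroup.lift u) (ι w')) ∧
      (∀ t : T, (t : R.W) ∈ A → (t : R.W) ∈ M ∨ R.ℓ t = 0 →
        Monoid.Coprod.lift j (FreeGroup.lift u) (ι t) = j t) ∧
      ((∀ t : T, G.ℓ (j t) ≤ R.ℓ t) → (∀ i, G.ℓ (u i) ≤ R.ℓ (y i)) →
        (∀ w ∈ A, G.ℓ (Monoid.Coprod.lift j (FreeGroup.lift u) (ι w)) ≤ R.ℓ w) ∧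
        ∑ i, G.ℓ (Monoid.Coprod.lift (j.comp σ.toMonoidHom) (FreeGroup.lift u) (ι (x i))) ≤
          ∑ i, R.ℓ (x i) - c)

/-- the real value of `x` at scale `μ` -/
noncomputable def rl {a : Amb} (μ x : a.K) : ℝ := ArchimedeanClass.stdPart (x / μ)

end Pool.Agent.P.MP_dba3d2_lc
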